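import Pool.Agent.P.MP_032f6a_lc.Sys

/-!
Generic bipartite colourings: back and forth, and a large one with small agreement sets.
-/

set_option autoImplicit false

open Cardinal

namespace Pool.Agent.P.MP_032f6a_lc.Uf

theorem baf {A A' : Type} [Countable A] [Countable A'] (K : A × A' → A × A' → Prop)
    (hK : ∀ p q, K p q → (p.1 = q.1 ↔ p.2 = q.2))
    (forth : ∀ s : Set (A × A'), s.Finite → (∀ p ∈ s, ∀ q ∈ s, K p q) → ∀ a, ∃ a',
      ∀ p ∈ insert (a, a') s, ∀ q ∈ insert (a, a') s, K p q)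
    (back : ∀ s : Set (A × A'), s.Finite → (∀ p ∈ s, ∀ q ∈ s, K p q) → ∀ a', ∃ a,
      ∀ p ∈ insert (a, a') s, ∀ q ∈ insert (a, a') s, K p q) :
    ∃ g : A ≃ A', ∀ x y, K (x, g x) (y, g y) := by
  obtain ⟨en, hen⟩ := exists_surjective_nat (Option (A ⊕ A'))
  let PI : Set (A × A') → Prop := fun s => s.Finite ∧ ∀ p ∈ s, ∀ q ∈ s, K p q
  have step : ∀ (k : ℕ) (s : {s // PI s}), ∃ t : {s // PI s}, s.1 ⊆ t.1 ∧
      (∀ b, en k = some (Sum.inl b) → b ∈ Prod.fst '' t.1) ∧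
      (∀ b, en k = some (Sum.inr b) → b ∈ Prod.snd '' t.1) := by
    intro k s
    rcases hk : en k with _ | b | b
    · exact ⟨s, subset_rfl, by simp, by simp⟩
    · obtain ⟨a, h⟩ := forth s.1 s.2.1 s.2.2 b
      exact ⟨⟨_, s.2.1.insert _, h⟩, Set.subset_insert _ _,
        by rintro _ ⟨⟩; exact ⟨_, Set.mem_insert _ _, rfl⟩, by simp⟩
    · obtain ⟨a, h⟩ := back s.1 s.2.1 s.2.2 b
      exact ⟨⟨_, s.2.1.insert _, h⟩, Set.subset_insert _ _, by simp,
        by rintro _ ⟨⟩; exact ⟨_, Set.mem_insert _ _, rfl⟩⟩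
  choose f hf1 hf2 hf3 using step
  let q : ℕ → {s // PI s} := fun k => Nat.rec ⟨∅, Set.finite_empty, by simp⟩ f k
  have hmono : Monotone fun k => (q k).1 := monotone_nat_of_le_succ fun k => hf1 k (q k)
  let u : Set (A × A') := ⋃ k, (q k).1
  have h3 : ∀ p ∈ u, ∀ r ∈ u, K p r := by
    intro p hp r hr
    obtain ⟨i, hi⟩ := Set.mem_iUnion.mp hp
    obtain ⟨j, hj⟩ := Set.mem_iUnion.mp hr
    exact (q (max i j)).2.2 _ (hmono (le_max_left _ _) hi) _ (hmono (le_max_right _ _) hj)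
  have hg : ∀ b, ∃ b', (b, b') ∈ u := by
    intro b
    obtain ⟨k, hk⟩ := hen (some (Sum.inl b))
    obtain ⟨p, hp, rfl⟩ := hf2 k (q k) b hk
    exact ⟨p.2, Set.mem_iUnion.mpr ⟨k + 1, hp⟩⟩
  choose g hg using hg
  have hbij : Function.Bijective g := by
    refine ⟨fun x y hxy => (hK _ _ (h3 _ (hg x) _ (hg y))).mpr hxy, fun b' => ?_⟩
    obtain ⟨k, hk⟩ := hen (some (Sum.inr b'))
    obtain ⟨p, hp, rfl⟩ := hf3 k (q k) b' hk
    exact ⟨p.1, (hK _ _ (h3 _ (hg p.1) p (Set.mem_iUnion.mpr ⟨k + 1, hp⟩))).mp rfl⟩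
  exact ⟨Equiv.ofBijective g hbij, fun x y => h3 _ (hg x) _ (hg y)⟩

theorem exists_gadget (N : Type) [Infinite N] : ∃ (X Z : Type) (col : X → Z → N),
    #X = Order.succ #N ∧ #Z = Order.succ #N ∧
    (∀ (s : Set Z) (c : Z → N) (t : Set X), s.Finite → t.Finite →
      ∃ x, x ∉ t ∧ ∀ z ∈ s, col x z = c z) ∧
    (∀ (s : Set X) (c : X → N) (t : Set Z), s.Finite → t.Finite →
      ∃ z, z ∉ t ∧ ∀ x ∈ s, col x z = c x) ∧
    ∀ z z', z ≠ z' → #{x // col x z = col x z'} ≤ #N := by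
  classical
  have h0 : ℵ₀ ≤ #N := aleph0_le_mk N
  have s0 : ℵ₀ ≤ Order.succ #N := h0.trans (Order.le_succ _)
  let W := (Order.succ #N).ord.ToType
  have hW : #W = Order.succ #N := mk_ord_toType _
  let X0 := Finset N × Finset (Finset N × N) × ℕ
  have hX0 : #X0 ≤ #N := by
    have : #(Finset N × N) = #N := by simp
    simp only [X0, mk_prod, lift_id, mk_finset_of_infinite, mk_nat]
    exact mul_le_of_le h0 le_rfl (mul_le_of_le h0 (mul_le_of_le h0 le_rfl le_rfl) h0)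
  have hX : #(X0 ⊕ W) = Order.succ #N := by
    rw [mk_sum, lift_id, lift_id, hW]
    exact add_eq_right s0 (hX0.trans (Order.le_succ _))
  have iX : Infinite (X0 ⊕ W) := infinite_iff.2 (hX ▸ s0)
  let Z := Finset ((X0 ⊕ W) × N) × ℕ
  have hZ : #Z = Order.succ #N := by
    simp only [Z, mk_prod, lift_id, mk_finset_of_infinite, mk_nat, hX]
    rw [mul_eq_left s0 (Order.le_succ _) (ne_of_gt (aleph0_pos.trans_le h0)),
      mul_eq_left s0 s0 aleph0_ne_zero]
  obtain ⟨idx⟩ := (Cardinal.le_def Z W).1 (by rw [hZ, hW])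
  obtain ⟨e⟩ := (Cardinal.le_def Z (Set N)).1 (by
    rw [hZ, mk_set]
    exact Order.succ_le_of_lt (cantor _))
  have hI : ∀ w : W, #(Set.Iio w) ≤ #N := fun w =>
    Order.lt_succ_iff.1 ((mk_Iio_lt w (by simp [W])).trans_eq hW)
  have hh : ∀ w : W, ∃ f : Z → N, ∀ z z', idx z < w → idx z' < w → f z = f z' → z = z' := by
    intro w
    obtain ⟨j⟩ := (Cardinal.le_def _ _).1 (hI w)
    refine ⟨fun z => if h : idx z < w then j ⟨idx z, h⟩ else Classical.arbitrary N,
      fun z z' a b h => ?_⟩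
    exact idx.injective (congrArg Subtype.val
      (j.injective (((dif_pos a).symm.trans h).trans (dif_pos b))))
  choose hh hh1 using hh
  let f : Set N → X0 → N := fun S x =>
    if h : ∃ c, (x.1.filter (· ∈ S), c) ∈ x.2.1 then h.choose else Classical.arbitrary N
  let col : X0 ⊕ W → Z → N := fun x z =>
    if h : ∃ c, (x, c) ∈ z.1 then h.choose else Sum.elim (f (e z)) (fun w => hh w z) x
  have dom : ∀ z : Z, {x | ∃ c, (x, c) ∈ z.1}.Finite := fun z =>
    (z.1.finite_toSet.image Prod.fst).subset fun x ⟨c, h⟩ => ⟨_, h, rfl⟩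
  refine ⟨X0 ⊕ W, Z, col, hX, hZ, fun s c t hs ht => ?_, fun s c t hs ht => ?_, fun z z' hz => ?_⟩
  · have sep : ∀ p : Z × Z, ∃ n, p.1 ≠ p.2 → ¬ (n ∈ e p.1 ↔ n ∈ e p.2) := by
      intro p
      by_cases h : p.1 = p.2
      · exact ⟨Classical.arbitrary N, fun g => absurd h g⟩
      · obtain ⟨n, hn⟩ := not_forall.1 (mt Set.ext (e.injective.ne h))
        exact ⟨n, fun _ => hn⟩
    choose sep hsep using sep
    let F : Finset N := (hs.prod hs).toFinset.image sep
    let Φ : Finset (Finset N × N) := hs.toFinset.image fun z => (F.filter (· ∈ e z), c z)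
    have hinj : Function.Injective fun n : ℕ => (Sum.inl (F, Φ, n) : X0 ⊕ W) :=
      fun a b h => congrArg (fun x : X0 => x.2.2) (Sum.inl_injective h)
    obtain ⟨n, hn⟩ := ((ht.union (hs.biUnion fun z _ => dom z)).preimage hinj.injOn).infinite_compl.nonempty
    refine ⟨.inl (F, Φ, n), fun h => hn (Or.inl h), fun z hz => ?_⟩
    have h1 : ¬ ∃ c, (Sum.inl (F, Φ, n), c) ∈ z.1 := fun h => hn (Or.inr (Set.mem_biUnion hz h))
    have h2 : ∃ c, (F.filter (· ∈ e z), c) ∈ Φ :=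
      ⟨c z, Finset.mem_image.2 ⟨z, hs.mem_toFinset.2 hz, rfl⟩⟩
    refine (dif_neg h1).trans ((dif_pos h2).trans ?_)
    obtain ⟨y, hy, e1⟩ := Finset.mem_image.1 h2.choose_spec
    have e2 := congrArg Prod.fst e1
    by_cases hyz : y = z
    · exact hyz ▸ (congrArg Prod.snd e1).symm
    · have hm : sep (y, z) ∈ F := Finset.mem_image.2
        ⟨_, (hs.prod hs).mem_toFinset.2 ⟨hs.mem_toFinset.1 hy, hz⟩, rfl⟩
      have := Finset.ext_iff.1 e2 (sep (y, z))
      simp only [Finset.mem_filter, hm, true_and] at this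
      exact absurd this (hsep (y, z) hyz)
  · let Φ : Finset ((X0 ⊕ W) × N) := hs.toFinset.image fun x => (x, c x)
    have hinj : Function.Injective fun n : ℕ => ((Φ, n) : Z) := fun a b h => congrArg Prod.snd h
    obtain ⟨n, hn⟩ := (ht.preimage hinj.injOn).infinite_compl.nonempty
    refine ⟨(Φ, n), hn, fun x hx => ?_⟩
    have h2 : ∃ c, (x, c) ∈ Φ := ⟨c x, Finset.mem_image.2 ⟨x, hs.mem_toFinset.2 hx, rfl⟩⟩
    refine (dif_pos h2).trans ?_
    obtain ⟨y, -, e1⟩ := Finset.mem_image.1 h2.choose_spec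
    obtain rfl : y = x := congrArg Prod.fst e1
    exact (congrArg Prod.snd e1).symm
  · have hsub : {x | col x z = col x z'} ⊆ (Set.range Sum.inl ∪ Sum.inr '' Set.Iic (max (idx z) (idx z'))) ∪
        ({x | ∃ c, (x, c) ∈ z.1} ∪ {x | ∃ c, (x, c) ∈ z'.1}) := by
      rintro (x | w) h
      · exact Or.inl (Or.inl ⟨x, rfl⟩)
      · by_contra hn
        simp only [Set.mem_union, not_or] at hn
        have h1 : max (idx z) (idx z') < w := not_le.1 fun g => hn.1.2 ⟨w, g, rfl⟩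
        refine hz (hh1 w _ _ ((le_max_left _ _).trans_lt h1) ((le_max_right _ _).trans_lt h1) ?_)
        exact ((dif_neg hn.2.1).symm.trans h).trans (dif_neg hn.2.2)
    refine (mk_le_mk_of_subset hsub).trans ((mk_union_le _ _).trans (add_le_of_le h0 ?_ ?_))
    · refine (mk_union_le _ _).trans (add_le_of_le h0 (mk_range_le.trans hX0) (mk_image_le.trans ?_))
      rw [← Set.Iio_insert]
      exact mk_insert_le.trans (add_le_of_le h0 (hI _) (one_le_aleph0.trans h0))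
    · exact ((dom z).union (dom z')).lt_aleph0.le.trans h0

end Pool.Agent.P.MP_032f6a_lc.Uf
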