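import Pool.Agent.P.MP_032f6a_lc.LogicDefs

/-!
Definability calculus and the downward Loewenheim-Skolem theorem for `Fml`.
-/

open FirstOrder Cardinal FirstOrder.Language

namespace Pool.Agent.P.MP_032f6a_lc

variable {L : FirstOrder.Language.{0, 0}} {α β : Type}

def Fml.and2 {n : ℕ} (a b : Fml L n) : Fml L n := .conj fun k => Nat.casesOn k a fun _ => b

theorem Fml.sat_and2 {M : Type} [L.Structure M] {n : ℕ} (a b : Fml L n) (v : Fin n → M) :
    (a.and2 b).Sat v ↔ a.Sat v ∧ b.Sat v := by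
  refine ⟨fun h => ⟨h 0, h 1⟩, fun h k => ?_⟩
  cases k
  · exact h.1
  · exact h.2

def Dfn (L : FirstOrder.Language.{0, 0}) {α : Type} (S : ∀ (M : Type) [L.Structure M], (α → M) → Prop) :
    Prop :=
  ∀ (n : ℕ) (e : α → Fin n), ∃ ψ : Fml L n, ∀ (M : Type) [L.Structure M] (v : Fin n → M),
    ψ.Sat v ↔ S M fun a => v (e a)

def Trm (L : FirstOrder.Language.{0, 0}) {α : Type} (g : ∀ (M : Type) [L.Structure M], (α → M) → M) :
    Prop :=
  ∃ t : L.Term α, ∀ (M : Type) [L.Structure M] (v : α → M), t.realize v = g M v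

theorem Trm.var (a : α) : Trm L fun _ _ v => v a := ⟨.var a, fun _ _ _ => rfl⟩

theorem Trm.func {k : ℕ} (f : L.Functions k)
    {g : Fin k → ∀ (M : Type) [L.Structure M], (α → M) → M} (h : ∀ i, Trm L (g i)) :
    Trm L fun M _ v => Structure.funMap f fun i => g i M v := by
  choose t ht using h
  exact ⟨.func f t, fun M _ v => by simp only [Term.realize, ht]⟩

namespace Dfn

variable {S T : ∀ (M : Type) [L.Structure M], (α → M) → Prop}

theorem congr (h : Dfn L S) (e : ∀ (M : Type) [L.Structure M] (v : α → M), S M v ↔ T M v) :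
    Dfn L T := by
  intro n f
  obtain ⟨ψ, hψ⟩ := h n f
  exact ⟨ψ, fun M _ v => (hψ M v).trans (e M _)⟩

theorem eq {g h : ∀ (M : Type) [L.Structure M], (α → M) → M} (hg : Trm L g) (hh : Trm L h) :
    Dfn L fun M _ v => g M v = h M v := by
  obtain ⟨t, ht⟩ := hg
  obtain ⟨u, hu⟩ := hh
  intro n e
  refine ⟨.eq (t.relabel e) (u.relabel e), fun M _ v => ?_⟩
  simp only [Fml.Sat, Term.realize_relabel, ht, hu]
  rfl

theorem rel {k : ℕ} (r : L.Relations k)
    {g : Fin k → ∀ (M : Type) [L.Structure M], (α → M) → M} (h : ∀ i, Trm L (g i)) :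
    Dfn L fun M _ v => Structure.RelMap r fun i => g i M v := by
  choose t ht using h
  intro n e
  refine ⟨.rel r fun i => (t i).relabel e, fun M _ v => ?_⟩
  simp only [Fml.Sat, Term.realize_relabel, ht]
  rfl

theorem not (h : Dfn L S) : Dfn L fun M _ v => ¬ S M v := by
  intro n e
  obtain ⟨ψ, hψ⟩ := h n e
  exact ⟨.neg ψ, fun M _ v => not_congr (hψ M v)⟩

theorem top : Dfn L fun _ _ (_ : α → _) => True := by
  intro n e
  exact ⟨.all (.eq (.var 0) (.var 0)), fun M _ v => by simp [Fml.Sat]⟩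

theorem const (p : Prop) : Dfn L fun _ _ (_ : α → _) => p := by
  by_cases hp : p
  · exact top.congr fun _ _ _ => by simp [hp]
  · exact top.not.congr fun _ _ _ => by simp [hp]

theorem iAll {ι : Type} [Countable ι] {S : ι → ∀ (M : Type) [L.Structure M], (α → M) → Prop}
    (h : ∀ i, Dfn L (S i)) : Dfn L fun M _ v => ∀ i, S i M v := by
  rcases isEmpty_or_nonempty ι with hι | hι
  · exact top.congr fun _ _ _ => by simp
  · obtain ⟨f, hf⟩ := exists_surjective_nat ι
    intro n e
    choose ψ hψ using fun i => h i n e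
    refine ⟨.conj fun k => ψ (f k), fun M _ v => ?_⟩
    simp only [Fml.Sat, hψ]
    exact (hf.forall (p := fun i => S i M fun a => v (e a))).symm

theorem iEx {ι : Type} [Countable ι] {S : ι → ∀ (M : Type) [L.Structure M], (α → M) → Prop}
    (h : ∀ i, Dfn L (S i)) : Dfn L fun M _ v => ∃ i, S i M v :=
  (iAll fun i => (h i).not).not.congr fun _ _ _ => by simp

theorem and (h1 : Dfn L S) (h2 : Dfn L T) : Dfn L fun M _ v => S M v ∧ T M v := by
  intro n e
  obtain ⟨ψ, hψ⟩ := h1 n e
  obtain ⟨χ, hχ⟩ := h2 n e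
  exact ⟨ψ.and2 χ, fun M _ v => by rw [Fml.sat_and2, hψ, hχ]⟩

theorem imp (h1 : Dfn L S) (h2 : Dfn L T) : Dfn L fun M _ v => S M v → T M v :=
  (h1.and h2.not).not.congr fun _ _ _ => by tauto

theorem or (h1 : Dfn L S) (h2 : Dfn L T) : Dfn L fun M _ v => S M v ∨ T M v :=
  (h1.not.imp h2).congr fun _ _ _ => by tauto

theorem iff (h1 : Dfn L S) (h2 : Dfn L T) : Dfn L fun M _ v => S M v ↔ T M v :=
  ((h1.imp h2).and (h2.imp h1)).congr fun _ _ _ => by tauto

theorem all1 {U : ∀ (M : Type) [L.Structure M], (α → M) → M → Prop}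
    (h : Dfn L fun M _ (u : Option α → M) => U M (fun a => u (some a)) (u none)) :
    Dfn L fun M _ v => ∀ x, U M v x := by
  intro n e
  obtain ⟨ψ, hψ⟩ := h (n + 1) fun o => o.elim (Fin.last n) fun a => (e a).castSucc
  refine ⟨.all ψ, fun M _ v => ?_⟩
  simp only [Fml.Sat, hψ, Option.elim, Fin.snoc_castSucc, Fin.snoc_last]

theorem ex1 {U : ∀ (M : Type) [L.Structure M], (α → M) → M → Prop}
    (h : Dfn L fun M _ (u : Option α → M) => U M (fun a => u (some a)) (u none)) :
    Dfn L fun M _ v => ∃ x, U M v x :=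
  (all1 (U := fun M _ v x => ¬ U M v x) h.not).not.congr fun _ _ _ => by simp

theorem comp (h : Dfn L S) (g : α → β) : Dfn L fun M _ (v : β → M) => S M fun a => v (g a) :=
  fun n e => h n fun a => e (g a)

theorem allFin (k : ℕ) : ∀ {α : Type}
    {U : ∀ (M : Type) [L.Structure M], (α → M) → (Fin k → M) → Prop},
    (Dfn L fun M _ (u : α ⊕ Fin k → M) => U M (fun a => u (.inl a)) fun b => u (.inr b)) →
    Dfn L fun M _ v => ∀ w, U M v w := by
  induction k with
  | zero =>
    intro α U h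
    refine (h.comp (Sum.elim id Fin.elim0)).congr fun M _ v => ?_
    refine ⟨fun h1 w => ?_, fun h1 => h1 _⟩
    rw [Subsingleton.elim w fun b => v (Fin.elim0 b)]
    exact h1
  | succ k ih =>
    intro α U h
    have h1 : Dfn L fun M _ (v : α → M) => ∀ x : M, ∀ w : Fin k → M,
        U M v (Fin.cons x w : Fin (k + 1) → M) := by
      refine all1 (ih ?_)
      refine (h.comp (β := Option α ⊕ Fin k)
        (Sum.elim (fun a => .inl (some a)) (Fin.cons (.inl none) fun b => .inr b))).congr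
        fun M _ v => ?_
      refine iff_of_eq (congrArg _ ?_)
      funext i
      refine Fin.cases rfl (fun _ => rfl) i
    refine h1.congr fun M _ v => ⟨fun h2 w => ?_, fun h2 x w => h2 _⟩
    simpa using h2 (w 0) (Fin.tail w)

theorem allF [Finite β] {U : ∀ (M : Type) [L.Structure M], (α → M) → (β → M) → Prop}
    (h : Dfn L fun M _ (u : α ⊕ β → M) => U M (fun a => u (.inl a)) fun b => u (.inr b)) :
    Dfn L fun M _ v => ∀ w, U M v w := by
  obtain ⟨k, ⟨e⟩⟩ := Finite.exists_equiv_fin β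
  have h1 := allFin (L := L) k (U := fun M _ v w => U M v fun b => w (e b))
    (h.comp (Sum.map id e))
  refine h1.congr fun M _ v => ⟨fun h2 w => ?_, fun h2 w => h2 _⟩
  simpa using h2 fun i => w (e.symm i)

theorem exF [Finite β] {U : ∀ (M : Type) [L.Structure M], (α → M) → (β → M) → Prop}
    (h : Dfn L fun M _ (u : α ⊕ β → M) => U M (fun a => u (.inl a)) fun b => u (.inr b)) :
    Dfn L fun M _ v => ∃ w, U M v w :=
  (allF (U := fun M _ v w => ¬ U M v w) h.not).not.congr fun _ _ _ => by simp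

end Dfn

/-! ### Downward Loewenheim-Skolem -/

def Fml.sub : {n : ℕ} → Fml L n → Set (Σ m, Fml L (m + 1))
  | _, .eq _ _ => ∅
  | _, .rel _ _ => ∅
  | _, .neg φ => φ.sub
  | _, .conj f => ⋃ i, (f i).sub
  | n, .all φ => insert ⟨n, φ⟩ φ.sub

theorem Fml.sub_countable {n : ℕ} (φ : Fml L n) : φ.sub.Countable := by
  induction φ with
  | eq => exact Set.countable_empty
  | rel => exact Set.countable_empty
  | neg _ ih => exact ih
  | conj _ ih => exact Set.countable_iUnion ih
  | all _ ih => exact ih.insert _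

theorem tarski_vaught {M : Type} [L.Structure M] (S : L.Substructure M) {n : ℕ} (φ : Fml L n)
    (h : ∀ q ∈ φ.sub, ∀ w : Fin q.1 → M, (∀ i, w i ∈ S) →
      (∃ x : M, ¬ q.2.Sat (Fin.snoc w x : Fin _ → M)) →
        ∃ x ∈ S, ¬ q.2.Sat (Fin.snoc w x : Fin _ → M))
    (w : Fin n → S) : φ.Sat w ↔ φ.Sat fun i => (w i : M) := by
  have hterm : ∀ {m : ℕ} (t : L.Term (Fin m)) (w : Fin m → S),
      t.realize (fun i => (w i : M)) = (t.realize w : S) :=
    fun t w => HomClass.realize_term S.subtype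
  induction φ with
  | eq t u => simp only [Fml.Sat, hterm, Subtype.ext_iff]
  | rel r ts =>
    simp only [Fml.Sat, hterm]
    rfl
  | neg φ ih => exact not_congr (ih h w)
  | conj f ih =>
    exact forall_congr' fun i => ih i (fun q hq => h q (Set.mem_iUnion.mpr ⟨i, hq⟩)) w
  | @all m φ ih =>
    have hs : ∀ x : S, (fun i => ((Fin.snoc w x : Fin (m + 1) → S) i : M)) =
        Fin.snoc (fun i => (w i : M)) (x : M) := by
      intro x
      exact Fin.comp_snoc (Subtype.val : S → M) w x
    have ih' := ih fun q hq => h q (Or.inr hq)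
    refine ⟨fun h1 => ?_, fun h1 x => ?_⟩
    · by_contra hn
      obtain ⟨x, hx, h2⟩ := h ⟨m, φ⟩ (Or.inl rfl) (fun i => (w i : M)) (fun i => (w i).2)
        (not_forall.mp hn)
      refine h2 ?_
      have := (ih' _).mp (h1 ⟨x, hx⟩)
      rwa [hs] at this
    · refine (ih' _).mpr ?_
      rw [hs]
      exact h1 x

theorem countable_fun [Countable L.Symbols] (n : ℕ) : Countable (L.Functions n) :=
  Function.Injective.countable (f := fun f => (Sum.inl ⟨n, f⟩ : L.Symbols))
    fun _ _ h => by simpa using h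

theorem countable_rel [Countable L.Symbols] (n : ℕ) : Countable (L.Relations n) :=
  Function.Injective.countable (f := fun f => (Sum.inr ⟨n, f⟩ : L.Symbols))
    fun _ _ h => by simpa using h

theorem sat_zero {M : Type} [L.Structure M] {φ : Fml L 0} (v w : Fin 0 → M) (h : φ.Sat v) :
    φ.Sat w := Subsingleton.elim v w ▸ h

theorem lowenheim [Countable L.Symbols] {φ : Fml L 0} (A : Model φ) {μ : Cardinal.{0}}
    (h0 : ℵ₀ ≤ μ) (h1 : μ ≤ #A.M) : ∃ B : Model φ, #B.M = μ := by
  classical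
  let K : FirstOrder.Language.{0, 0} :=
    ⟨fun n => L.Functions n ⊕ {ψ : Fml L (n + 1) // ⟨n, ψ⟩ ∈ φ.sub}, fun _ => Empty⟩
  let _inst : K.Structure A.M :=
    { funMap := fun {n} f w => f.elim (fun f => Structure.funMap f w)
        fun ψ => Classical.epsilon fun x => ¬ ψ.1.Sat (Fin.snoc w x : Fin _ → A.M)
      RelMap := fun r => r.elim }
  have hK : ∀ n, Countable (K.Functions n) := by
    intro n
    have := countable_fun (L := L) n
    have := φ.sub_countable.to_subtype
    have : Countable {ψ : Fml L (n + 1) // (⟨n, ψ⟩ : Σ m, Fml L (m + 1)) ∈ φ.sub} :=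
      Function.Injective.countable (f := fun ψ => (⟨⟨n, ψ.1⟩, ψ.2⟩ : φ.sub))
        fun _ _ h => Subtype.ext (by simpa using h)
    exact inferInstanceAs (Countable (_ ⊕ _))
  obtain ⟨s, hs⟩ := le_mk_iff_exists_set.mp h1
  let T := Substructure.closure K s
  let S : L.Substructure A.M :=
    ⟨T, fun {n} f w hw => T.fun_mem (Sum.inl f : K.Functions n) w hw⟩
  have hcard : #S = μ := by
    refine le_antisymm ?_ (hs ▸ mk_le_mk_of_subset Substructure.subset_closure)
    have := Substructure.lift_card_closure_le (L := K) (s := s)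
    rw [lift_id, lift_id, lift_id, hs] at this
    refine this.trans (max_le h0 (add_le_of_le h0 le_rfl (mk_le_aleph0.trans h0)))
  have : Nonempty S := by
    rw [← mk_ne_zero_iff, hcard]
    exact (aleph0_pos.trans_le h0).ne'
  refine ⟨⟨S, ?_⟩, hcard⟩
  rw [tarski_vaught S φ]
  · exact sat_zero _ _ A.sat
  · intro q hq w hw hx
    exact ⟨_, T.fun_mem (Sum.inr ⟨q.2, hq⟩ : K.Functions q.1) w hw, Classical.epsilon_spec hx⟩

end Pool.Agent.P.MP_032f6a_lc
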