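import Mathlib

open Cardinal

namespace Pool.Agent.P.MP_032f6a_lc

/-- Formulas of the infinitary logic `L_{ω₁,ω}` whose free variables are among `Fin n`:
atomic formulas, negation, countable conjunction, universal quantifier. -/
inductive Fml (L : FirstOrder.Language.{0, 0}) : ℕ → Type
  | eq {n : ℕ} (t u : L.Term (Fin n)) : Fml L n
  | rel {n k : ℕ} (r : L.Relations k) (ts : Fin k → L.Term (Fin n)) : Fml L n
  | neg {n : ℕ} (φ : Fml L n) : Fml L n
  | conj {n : ℕ} (f : ℕ → Fml L n) : Fml L n
  | all {n : ℕ} (φ : Fml L (n + 1)) : Fml L n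

/-- Satisfaction; the quantifier binds the last variable. -/
def Fml.Sat {L : FirstOrder.Language.{0, 0}} {M : Type} [L.Structure M] :
    {n : ℕ} → Fml L n → (Fin n → M) → Prop
  | _, .eq t u, v => t.realize v = u.realize v
  | _, .rel r ts, v => FirstOrder.Language.Structure.RelMap r fun i => (ts i).realize v
  | _, .neg φ, v => ¬ φ.Sat v
  | _, .conj f, v => ∀ i, (f i).Sat v
  | _, .all φ, v => ∀ x : M, φ.Sat (Fin.snoc v x : Fin _ → M)

/-- A model of a sentence: a nonempty structure satisfying it. -/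
structure Model {L : FirstOrder.Language.{0, 0}} (φ : Fml L 0) : Type 1 where
  M : Type
  [str : L.Structure M]
  [ne : Nonempty M]
  sat : φ.Sat (Fin.elim0 : Fin 0 → M)

attribute [instance] Model.str Model.ne

/-- A sentence is complete if it has exactly one countable model up to isomorphism. -/
def IsComplete {L : FirstOrder.Language.{0, 0}} (φ : Fml L 0) : Prop :=
  (∃ A : Model φ, Countable A.M) ∧
    ∀ A B : Model φ, Countable A.M → Countable B.M → Nonempty (L.Equiv A.M B.M)

/-- The set defined by a unary predicate in a model. -/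
def Model.ext {L : FirstOrder.Language.{0, 0}} {φ : Fml L 0} (A : Model φ) (P : L.Relations 1) : Set A.M :=
  {x | FirstOrder.Language.Structure.RelMap P ![x]}

/-- `P` is completely homogeneous for `A`. -/
def Model.Homogeneous {L : FirstOrder.Language.{0, 0}} {φ : Fml L 0} (A : Model φ) (P : L.Relations 1) :
    Prop :=
  (A.ext P).Infinite ∧
    ∀ σ : Equiv.Perm (A.ext P), ∃ g : L.Equiv A.M A.M, ∀ x : A.ext P, g x = σ x

/-- Characterizable cardinals. -/
def Ch (κ : Cardinal.{0}) : Prop :=
  ℵ₀ ≤ κ ∧ ∃ (L : FirstOrder.Language.{0, 0}) (_ : Countable L.Symbols) (φ : Fml L 0), IsComplete φ ∧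
    (∀ μ, ℵ₀ ≤ μ → μ ≤ κ → ∃ A : Model φ, #A.M = μ) ∧ ¬ ∃ A : Model φ, #A.M = Order.succ κ

/-- Homogeneously characterizable cardinals. -/
def HomCh (κ : Cardinal.{0}) : Prop :=
  ∃ (L : FirstOrder.Language.{0, 0}) (_ : Countable L.Symbols) (φ : Fml L 0) (P : L.Relations 1),
    IsComplete φ ∧ (∀ A : Model φ, #A.M ≤ κ) ∧
      (∀ A : Model φ, Countable A.M → A.Homogeneous P) ∧ ∃ A : Model φ, #(A.ext P) = κ

end Pool.Agent.P.MP_032f6a_lc
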