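import Pool.Agent.P.MP_032f6a_lc.Sys

/-!
Existence of a good system of size at most the number of colours.
-/

open Cardinal

namespace Pool.Agent.P.MP_032f6a_lc

variable {N P : Type}

abbrev Task (N P : Type) (n : ℕ) : Type := Set (Fin n) × Sys N P (Fin n)

abbrev Lab (N P : Type) : Type := Σ n : ℕ, Task N P n × Fin n

abbrev Br (l : Lab N P) : Type := l.2.1.1

noncomputable instance instFintypeBr (l : Lab N P) : Fintype (Br l) := Fintype.ofFinite _

abbrev Tm (N P : Type) : Type := WType (Br (N := N) (P := P))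

open Classical in
noncomputable def elem {n : ℕ} (t : Task N P n) (a : t.1 → Tm N P) (i : Fin n) : Tm N P :=
  if h : i ∈ t.1 then a ⟨i, h⟩ else WType.mk ⟨n, t, i⟩ a

def lab : Tm N P → Lab N P
  | ⟨l, _⟩ => l

noncomputable def el : (x : Tm N P) → Fin (lab x).1 → Tm N P
  | ⟨l, a⟩ => elem l.2.1 a

def blk (x : Tm N P) : Set (Tm N P) := Set.range (el x)

open Classical in
noncomputable def idx (x y : Tm N P) : Fin (lab x).1 :=
  if h : y ∈ blk x then h.choose else (lab x).2.2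

open Classical in
noncomputable def raw (rho : Tm N P → N) : Sys N P (Tm N P) where
  c x y := if y ∈ blk x then (lab x).2.1.2.c (idx x x) (idx x y)
    else if x ∈ blk y then (lab y).2.1.2.c (idx y x) (idx y y) else rho y
  p x := (lab x).2.1.2.p (idx x x)
  R x y z := if y ∈ blk x then z ∈ blk x ∧ (lab x).2.1.2.R (idx x x) (idx x y) (idx x z)
    else if x ∈ blk y then z ∈ blk y ∧ (lab y).2.1.2.R (idx y x) (idx y y) (idx y z)
    else z ∈ blk x ∨ z ∈ blk y

theorem idx_el {x : Tm N P} (h : Function.Injective (el x)) (j : Fin (lab x).1) :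
    idx x (el x j) = j := by
  have hm : el x j ∈ blk x := ⟨j, rfl⟩
  rw [idx, dif_pos hm]
  exact h hm.choose_spec

theorem raw_sub (rho : Tm N P → N) {x y z : Tm N P} (h : (raw rho).R x y z) :
    z ∈ blk x ∨ z ∈ blk y := by
  simp only [raw] at h
  split_ifs at h
  · exact Or.inl h.1
  · exact Or.inr h.1
  · exact h

theorem elem_old {n : ℕ} (t : Task N P n) (a : t.1 → Tm N P) (i : t.1) : elem t a i = a i := by
  rw [elem, dif_pos i.2]

theorem elem_new {n : ℕ} (t : Task N P n) (a : t.1 → Tm N P) {i : Fin n} (h : i ∉ t.1) :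
    elem t a i = WType.mk ⟨n, t, i⟩ a := by
  rw [elem, dif_neg h]

theorem depth_old {n : ℕ} (t : Task N P n) (a : t.1 → Tm N P) (i : t.1) (j : Fin n) :
    (a i).depth < (WType.mk ⟨n, t, j⟩ a : Tm N P).depth :=
  WType.depth_lt_depth_mk (β := Br) ⟨n, t, j⟩ a i

theorem blk_cases {x y : Tm N P} (h : y ∈ blk x) :
    y.depth < x.depth ∨ (y.depth = x.depth ∧ blk y = blk x) := by
  obtain ⟨⟨n, t, i⟩, a⟩ := x
  obtain ⟨j, rfl⟩ := h
  change Fin n at j
  change (elem t a j).depth < _ ∨ ((elem t a j).depth = _ ∧ blk (elem t a j) = _)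
  by_cases hj : j ∈ t.1
  · rw [elem_old t a ⟨j, hj⟩]
    exact Or.inl (depth_old t a _ i)
  · rw [elem_new t a hj]
    exact Or.inr ⟨rfl, rfl⟩

theorem depth_le {x y : Tm N P} (h : y ∈ blk x) : y.depth ≤ x.depth :=
  (blk_cases h).elim le_of_lt fun h => h.1.le

inductive Valid (rho : Tm N P → N) : Tm N P → Prop
  | mk {n : ℕ} (t : Task N P n) (a : t.1 → Tm N P) (i : Fin n) (hi : i ∉ t.1)
      (ha : ∀ j, Valid rho (a j)) (hD : Ax t.2.c t.2.R) (he : Emb t.2 (raw rho) (elem t a)) :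
      Valid rho (WType.mk ⟨n, t, i⟩ a)

variable {rho : Tm N P → N}

theorem Valid.self {x : Tm N P} (h : Valid rho x) : x ∈ blk x := by
  obtain ⟨t, a, i, hi, -, -, -⟩ := h
  exact ⟨i, elem_new t a hi⟩

theorem Valid.blk {x y : Tm N P} (h : Valid rho x) (hy : y ∈ blk x) : Valid rho y := by
  obtain ⟨t, a, i, hi, ha, hD, he⟩ := h
  obtain ⟨j, rfl⟩ := hy
  change Valid rho (elem t a j)
  by_cases hj : j ∈ t.1
  · rw [elem_old t a ⟨j, hj⟩]
    exact ha _
  · rw [elem_new t a hj]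
    exact Valid.mk t a j hj ha hD he

theorem Emb.dep {I B : Type} {D : Sys N P I} {S : Sys N P B} {e : I → B} (he : Emb D S e)
    (hD : Ax D.c D.R) (j k l : I) (h1 : e j ≠ e k) (h2 : e j ≠ e l) (h3 : e k ≠ e l)
    (h4 : S.c (e k) (e j) ≠ S.c (e l) (e j) ∨ S.c (e j) (e k) = S.c (e j) (e l)) :
    Dep S.R (e j) (e k) (e l) := by
  rw [he.c, he.c, he.c, he.c] at h4
  have := hD j k l (fun e => h1 (congrArg _ e)) (fun e => h2 (congrArg _ e))
    (fun e => h3 (congrArg _ e)) h4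
  simpa only [Dep, he.R] using this

theorem Valid.ax {w x y z : Tm N P} (h : Valid rho w) (hx : x ∈ MP_032f6a_lc.blk w)
    (hy : y ∈ MP_032f6a_lc.blk w) (hz : z ∈ MP_032f6a_lc.blk w) (h1 : x ≠ y) (h2 : x ≠ z)
    (h3 : y ≠ z) (h4 : (raw rho).c y x ≠ (raw rho).c z x ∨ (raw rho).c x y = (raw rho).c x z) :
    Dep (raw rho).R x y z := by
  obtain ⟨t, a, i, hi, ha, hD, he⟩ := h
  obtain ⟨j, rfl⟩ := hx
  obtain ⟨k, rfl⟩ := hy
  obtain ⟨l, rfl⟩ := hz
  exact he.dep hD j k l h1 h2 h3 h4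

def Cross (x y : Tm N P) : Prop := y ∉ blk x ∧ x ∉ blk y

theorem Cross.c {x y : Tm N P} (h : Cross x y) : (raw rho).c x y = rho y := by
  simp only [raw, if_neg h.1, if_neg h.2]

theorem Cross.R {x y z : Tm N P} (h : Cross x y) (hz : z ∈ blk x ∨ z ∈ blk y) :
    (raw rho).R x y z := by
  simpa only [raw, if_neg h.1, if_neg h.2] using hz

theorem Cross.symm {x y : Tm N P} (h : Cross x y) : Cross y x := ⟨h.2, h.1⟩

theorem cross_of {b m : Tm N P} (hm : Valid rho m) (hd : m.depth ≤ b.depth) (h : m ∉ blk b) :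
    Cross b m := by
  refine ⟨h, fun hb => ?_⟩
  rcases blk_cases hb with h1 | h1
  · omega
  · exact h (h1.2 ▸ hm.self)

def Tri (rho : Tm N P → N) (x y z : Tm N P) : Prop :=
  Dep (raw rho).R x y z ∨ (∃ w, Valid rho w ∧ x ∈ blk w ∧ y ∈ blk w ∧ z ∈ blk w) ∨
    (Cross x y ∧ Cross x z ∧ Cross y z)

theorem Tri.swap12 {x y z : Tm N P} (h : Tri rho x y z) : Tri rho y x z := by
  rcases h with h | ⟨w, h0, h1, h2, h3⟩ | ⟨h1, h2, h3⟩
  · left
    unfold Dep at h ⊢
    tauto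
  · exact Or.inr (Or.inl ⟨w, h0, h2, h1, h3⟩)
  · exact Or.inr (Or.inr ⟨h1.symm, h3, h2⟩)

theorem Tri.swap13 {x y z : Tm N P} (h : Tri rho x y z) : Tri rho z y x := by
  rcases h with h | ⟨w, h0, h1, h2, h3⟩ | ⟨h1, h2, h3⟩
  · left
    unfold Dep at h ⊢
    tauto
  · exact Or.inr (Or.inl ⟨w, h0, h3, h2, h1⟩)
  · exact Or.inr (Or.inr ⟨h3.symm, h2.symm, h1.symm⟩)

theorem tri_max {b u m : Tm N P} (hb : Valid rho b) (hu : Valid rho u) (hm : Valid rho m)
    (h1 : u.depth ≤ b.depth) (h2 : m.depth ≤ b.depth) : Tri rho b u m := by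
  by_cases c1 : u ∈ blk b
  · by_cases c2 : m ∈ blk b
    · exact Or.inr (Or.inl ⟨b, hb, hb.self, c1, c2⟩)
    · exact Or.inl (Or.inr (Or.inr (Or.inl ((cross_of hm h2 c2).R (Or.inl c1)))))
  · by_cases c2 : m ∈ blk b
    · exact Or.inl (Or.inl ((cross_of hu h1 c1).R (Or.inl c2)))
    · by_cases c3 : m ∈ blk u
      · exact Or.inl (Or.inl ((cross_of hu h1 c1).R (Or.inr c3)))
      · by_cases c4 : u ∈ blk m
        · exact Or.inl (Or.inr (Or.inr (Or.inl ((cross_of hm h2 c2).R (Or.inr c4)))))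
        · exact Or.inr (Or.inr ⟨cross_of hu h1 c1, cross_of hm h2 c2, c3, c4⟩)

theorem tri {x y z : Tm N P} (hx : Valid rho x) (hy : Valid rho y) (hz : Valid rho z) :
    Tri rho x y z := by
  by_cases c1 : y.depth ≤ x.depth ∧ z.depth ≤ x.depth
  · exact tri_max hx hy hz c1.1 c1.2
  · by_cases c2 : z.depth ≤ y.depth
    · exact (tri_max hy hx hz (by omega) c2).swap12
    · exact (tri_max hz hy hx (by omega) (by omega)).swap13

theorem valid_ax (hr : Function.Injective rho) {x y z : Tm N P} (hx : Valid rho x)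
    (hy : Valid rho y) (hz : Valid rho z) (h1 : x ≠ y) (h2 : x ≠ z) (h3 : y ≠ z)
    (h4 : (raw rho).c y x ≠ (raw rho).c z x ∨ (raw rho).c x y = (raw rho).c x z) :
    Dep (raw rho).R x y z := by
  rcases tri hx hy hz with h | ⟨w, h0, a1, a2, a3⟩ | ⟨a1, a2, -⟩
  · exact h
  · exact h0.ax a1 a2 a3 h1 h2 h3 h4
  · rw [a1.symm.c, a2.symm.c, a1.c, a2.c] at h4
    exact h4.elim (fun h => absurd rfl h) fun h => absurd (hr h) h3

theorem hull (x : Tm N P) : ∃ H : Set (Tm N P), H.Finite ∧ x ∈ H ∧ ∀ y ∈ H, blk y ⊆ H := by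
  induction x with
  | mk l a ih =>
    obtain ⟨n, t, i⟩ := l
    choose H h1 h2 h3 using ih
    refine ⟨insert ⟨⟨n, t, i⟩, a⟩ (Set.range (elem t a) ∪ ⋃ j, H j),
      ((Set.finite_range _).union (Set.finite_iUnion h1)).insert _, Or.inl rfl, ?_⟩
    have key : ∀ j y, y ∈ H j → blk y ⊆
        insert ⟨⟨n, t, i⟩, a⟩ (Set.range (elem t a) ∪ ⋃ j, H j) :=
      fun j y hy z hz => Or.inr (Or.inr (Set.mem_iUnion.mpr ⟨j, h3 j y hy hz⟩))
    rintro y (rfl | ⟨j, rfl⟩ | hy)
    · exact fun z hz => Or.inr (Or.inl hz)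
    · by_cases hj : j ∈ t.1
      · rw [elem_old t a ⟨j, hj⟩]
        exact key _ _ (h2 _)
      · rw [elem_new t a hj]
        exact fun z hz => Or.inr (Or.inl hz)
    · obtain ⟨j, hj⟩ := Set.mem_iUnion.mp hy
      exact key j y hj

theorem emb_elem {n : ℕ} (t : Task N P n) (a : t.1 → Tm N P) (hO : Cl t.2.R t.1)
    (ha : Emb (t.2.comap (Subtype.val : t.1 → Fin n)) (raw rho) a) :
    Emb t.2 (raw rho) (elem t a) := by
  have hinj : Function.Injective (elem t a) := by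
    intro i j hij
    by_cases hi : i ∈ t.1 <;> by_cases hj : j ∈ t.1
    · rw [elem_old t a ⟨i, hi⟩, elem_old t a ⟨j, hj⟩] at hij
      exact congrArg Subtype.val (ha.inj hij)
    · rw [elem_old t a ⟨i, hi⟩, elem_new t a hj] at hij
      exact absurd (congrArg WType.depth hij) (depth_old t a _ j).ne
    · rw [elem_old t a ⟨j, hj⟩, elem_new t a hi] at hij
      exact absurd (congrArg WType.depth hij) (depth_old t a _ i).ne'
    · rw [elem_new t a hi, elem_new t a hj] at hij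
      have := congrArg lab hij
      simpa [lab] using this
  have hmem : ∀ i j : Fin n, elem t a j ∈ blk (WType.mk ⟨n, t, i⟩ a : Tm N P) :=
    fun i j => ⟨j, rfl⟩
  have hidx : ∀ i j : Fin n, idx (WType.mk ⟨n, t, i⟩ a : Tm N P) (elem t a j) = j :=
    fun i j => idx_el (x := WType.mk ⟨n, t, i⟩ a) hinj j
  have hself : ∀ i : Fin n, i ∉ t.1 →
      idx (WType.mk ⟨n, t, i⟩ a : Tm N P) (WType.mk ⟨n, t, i⟩ a) = i := by
    intro i hi
    have := hidx i i
    rwa [elem_new t a hi] at this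
  have hnot : ∀ i ∈ t.1, ∀ j : Fin n, (WType.mk ⟨n, t, j⟩ a : Tm N P) ∉ blk (elem t a i) := by
    intro i hi j h
    have h1 := depth_le h
    rw [elem_old t a ⟨i, hi⟩] at h1
    exact absurd (depth_old t a ⟨i, hi⟩ j) (not_lt.mpr h1)
  have hR1 : ∀ i ∉ t.1, ∀ j z, (raw rho).R (elem t a i) (elem t a j) z ↔
      z ∈ Set.range (elem t a) ∧ t.2.R i j (idx (WType.mk ⟨n, t, i⟩ a : Tm N P) z) := by
    intro i hi j z
    rw [elem_new t a hi]
    simp only [raw, if_pos (hmem i j), hidx, hself i hi]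
    rfl
  have hR2 : ∀ i ∈ t.1, ∀ j ∉ t.1, ∀ z, (raw rho).R (elem t a i) (elem t a j) z ↔
      z ∈ Set.range (elem t a) ∧ t.2.R i j (idx (WType.mk ⟨n, t, j⟩ a : Tm N P) z) := by
    intro i hi j hj z
    rw [elem_new t a hj]
    simp only [raw, if_neg (hnot i hi j), if_pos (hmem j i), hidx, hself j hj]
    rfl
  refine ⟨hinj, ?_, ?_, ?_, ?_⟩
  · rintro _ ⟨i, rfl⟩ _ ⟨j, rfl⟩ z hz
    by_cases hi : i ∈ t.1
    · by_cases hj : j ∈ t.1
      · rw [elem_old t a ⟨i, hi⟩, elem_old t a ⟨j, hj⟩] at hz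
        obtain ⟨l, rfl⟩ := ha.cl _ ⟨_, rfl⟩ _ ⟨_, rfl⟩ z hz
        exact ⟨l, elem_old t a l⟩
      · exact ((hR2 i hi j hj z).mp hz).1
    · exact ((hR1 i hi j z).mp hz).1
  · intro i j
    by_cases hi : i ∈ t.1
    · by_cases hj : j ∈ t.1
      · rw [elem_old t a ⟨i, hi⟩, elem_old t a ⟨j, hj⟩]
        exact ha.c _ _
      · rw [elem_new t a hj]
        simp only [raw, if_neg (hnot i hi j), if_pos (hmem j i), hidx, hself j hj]
        rfl
    · rw [elem_new t a hi]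
      simp only [raw, if_pos (hmem i j), hidx, hself i hi]
      rfl
  · intro i
    by_cases hi : i ∈ t.1
    · rw [elem_old t a ⟨i, hi⟩]
      exact ha.p _
    · rw [elem_new t a hi]
      simp only [raw, hself i hi]
      rfl
  · intro i j l
    by_cases hi : i ∈ t.1
    · by_cases hj : j ∈ t.1
      · by_cases hl : l ∈ t.1
        · rw [elem_old t a ⟨i, hi⟩, elem_old t a ⟨j, hj⟩, elem_old t a ⟨l, hl⟩]
          exact ha.R _ _ _
        · refine iff_of_false (fun hz => ?_) fun hz => hl (hO i hi j hj l hz)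
          rw [elem_old t a ⟨i, hi⟩, elem_old t a ⟨j, hj⟩] at hz
          obtain ⟨k, hk⟩ := ha.cl _ ⟨_, rfl⟩ _ ⟨_, rfl⟩ _ hz
          rw [← elem_old t a k] at hk
          exact hl (hinj hk ▸ k.2)
      · rw [hR2 i hi j hj, hidx]
        exact and_iff_right ⟨l, rfl⟩
    · rw [hR1 i hi j, hidx]
      exact and_iff_right ⟨l, rfl⟩

theorem good_valid (hr : Function.Injective rho) :
    Good ((raw rho).comap (Subtype.val : {x // Valid rho x} → Tm N P)) where
  ax := fun x y z h1 h2 h3 h4 => valid_ax hr x.2 y.2 z.2 (Subtype.val_injective.ne h1)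
    (Subtype.val_injective.ne h2) (Subtype.val_injective.ne h3) h4
  loc := by
    intro s hs
    choose H h1 h2 h3 using hull (N := N) (P := P)
    refine ⟨Subtype.val ⁻¹' ⋃ x ∈ s, H x.1,
      (hs.biUnion fun x _ => h1 x.1).preimage Subtype.val_injective.injOn,
      fun x hx => Set.mem_biUnion hx (h2 x.1), ?_⟩
    intro x hx y hy z hz
    obtain ⟨u, hu, hx⟩ := Set.mem_iUnion₂.mp hx
    obtain ⟨v, hv, hy⟩ := Set.mem_iUnion₂.mp hy
    rcases raw_sub rho hz with h | h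
    · exact Set.mem_biUnion hu (h3 _ _ hx h)
    · exact Set.mem_biUnion hv (h3 _ _ hy h)
  ext := by
    intro n O D a hD hO ha
    have ha0 : Emb (D.comap (Subtype.val : O → Fin n)) (raw rho) fun i => (a i).1 := by
      refine ⟨Subtype.val_injective.comp ha.inj, ?_, ha.c, ha.p, ha.R⟩
      rintro _ ⟨i, rfl⟩ _ ⟨j, rfl⟩ z hz
      have hv : Valid rho z := (raw_sub rho hz).elim (a i).2.blk (a j).2.blk
      obtain ⟨l, hl⟩ := ha.cl _ ⟨i, rfl⟩ _ ⟨j, rfl⟩ ⟨z, hv⟩ hz
      exact ⟨l, congrArg Subtype.val hl⟩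
    have he := emb_elem (rho := rho) (O, D) (fun i => (a i).1) hO ha0
    have hv : ∀ i, Valid rho (elem (O, D) (fun i => (a i).1) i) := by
      intro i
      by_cases hi : i ∈ O
      · rw [elem_old (O, D) _ ⟨i, hi⟩]
        exact (a _).2
      · rw [elem_new (O, D) _ hi]
        exact Valid.mk (O, D) _ i hi (fun j => (a j).2) hD he
    refine ⟨fun i => ⟨_, hv i⟩, fun i => Subtype.ext (elem_old (O, D) _ i),
      fun i j h => he.inj (congrArg Subtype.val h), ?_, he.c, he.p, he.R⟩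
    rintro _ ⟨i, rfl⟩ _ ⟨j, rfl⟩ z hz
    obtain ⟨l, hl⟩ := he.cl _ ⟨i, rfl⟩ _ ⟨j, rfl⟩ z.1 hz
    exact ⟨l, Subtype.ext hl⟩

theorem card_Tm [Infinite N] (hP : #P ≤ #N) : #(Tm N P) ≤ #N := by
  have hN : ℵ₀ ≤ #N := aleph0_le_mk N
  have hfin : ∀ (X : Type) [Finite X], #X ≤ #N := fun X _ => (lt_aleph0_of_finite X).le.trans hN
  have hprod : ∀ X Y : Type, #X ≤ #N → #Y ≤ #N → #(X × Y) ≤ #N := by
    intro X Y h1 h2
    rw [mk_prod, lift_id, lift_id]
    exact mul_le_of_le hN h1 h2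
  have hpow : ∀ (n : ℕ) (X : Type), #X ≤ #N → #(Fin n → X) ≤ #N := by
    intro n X h
    rw [mk_arrow, lift_id, lift_id, mk_fin]
    exact (power_le_power_right h).trans (power_nat_le hN)
  have hsys : ∀ n, #(Sys N P (Fin n)) ≤ #N := by
    intro n
    have : #(Sys N P (Fin n)) ≤
        #((Fin n → Fin n → N) × (Fin n → P) × (Fin n → Fin n → Fin n → Prop)) := by
      refine mk_le_of_injective (f := fun S => (S.c, S.p, S.R)) ?_
      rintro ⟨_, _, _⟩ ⟨_, _, _⟩ h
      simpa using h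
    exact this.trans (hprod _ _ (hpow _ _ (hpow _ _ le_rfl)) (hprod _ _ (hpow _ _ hP) (hfin _)))
  refine WType.cardinalMk_le_max_aleph0_of_finite.trans (max_le ?_ hN)
  rw [mk_sigma]
  refine (sum_le_sum _ (fun _ => #N) fun n =>
    hprod _ _ (hprod _ _ (hfin _) (hsys n)) (hfin _)).trans ?_
  rw [sum_const', mk_nat]
  exact mul_le_of_le hN hN le_rfl

theorem exists_good (N P : Type) [Infinite N] (hP : #P ≤ #N) :
    ∃ (B : Type) (S : Sys N P B), Good S ∧ #B ≤ #N := by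
  obtain ⟨rho⟩ := (Cardinal.le_def _ _).mp (card_Tm hP)
  exact ⟨_, _, good_valid rho.injective, (mk_subtype_le _).trans (card_Tm hP)⟩

end Pool.Agent.P.MP_032f6a_lc
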