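import Pool.Agent.P.MP_032f6a_lc.LogicSent
import Pool.Agent.P.MP_032f6a_lc.SysExist

/-!
Models of the sentence: size bound, uniqueness over the two colour sorts, existence.
-/

open FirstOrder Cardinal FirstOrder.Language

namespace Pool.Agent.P.MP_032f6a_lc

variable {L : FirstOrder.Language.{0, 0}}

section analysis
variable {M M' : Type} [(LX L).Structure M] [(LX L).Structure M']

abbrev NM (L : FirstOrder.Language.{0, 0}) (M : Type) [(LX L).Structure M] : Type :=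
  {x : M // Np L x}
abbrev PM (L : FirstOrder.Language.{0, 0}) (M : Type) [(LX L).Structure M] : Type :=
  {x : M // Pp L x}
abbrev BM (L : FirstOrder.Language.{0, 0}) (M : Type) [(LX L).Structure M] : Type :=
  {x : M // Bp L x}

@[reducible] def Spec.str (h : Spec L M) : L.Structure (NM L M) where
  funMap f w := ⟨fL f fun i => (w i).1, h.funN _ f _ fun i => (w i).2⟩
  RelMap r w := rL r fun i => (w i).1

theorem Spec.sub (h : Spec L M) : @Sub L M (NM L M) _ h.str Subtype.val :=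
  letI := h.str
  ⟨Subtype.val_injective, fun x => ⟨fun hx => ⟨⟨x, hx⟩, rfl⟩, fun ⟨a, ha⟩ => ha ▸ a.2⟩,
    fun _ _ _ => rfl, fun _ _ _ => Iff.rfl⟩

def Spec.sys (h : Spec L M) : Sys (NM L M) (PM L M) (BM L M) :=
  ⟨fun x y => ⟨cc L x.1 y.1, h.cB _ _ x.2 y.2⟩, fun x => ⟨pp L x.1, h.pB _ x.2⟩,
    fun x y z => Rr L x.1 y.1 z.1⟩

theorem Spec.good (h : Spec L M) : Good h.sys := by
  have hP : Pres (M := M) (Np L) (Pp L) (Bp L) (cc L) (pp L) (Rr L) h.sys Subtype.val Subtype.val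
      Subtype.val :=
    ⟨Subtype.val_injective, Subtype.val_injective, Subtype.val_injective,
      fun x => ⟨fun hx => ⟨⟨x, hx⟩, rfl⟩, fun ⟨a, ha⟩ => ha ▸ a.2⟩,
      fun x => ⟨fun hx => ⟨⟨x, hx⟩, rfl⟩, fun ⟨a, ha⟩ => ha ▸ a.2⟩,
      fun x => ⟨fun hx => ⟨⟨x, hx⟩, rfl⟩, fun ⟨a, ha⟩ => ha ▸ a.2⟩,
      fun _ _ => rfl, fun _ => rfl, fun _ _ _ => Iff.rfl, fun x y z hR => (h.RO x y z hR).2.2⟩
  exact hP.good_iff.mp ⟨h.ax, h.loc, h.ext⟩

theorem Spec.nonempty (h : Spec L M) : Nonempty (NM L M) :=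
  h.neN.elim fun x hx => ⟨⟨x, hx⟩⟩

theorem Spec.infinite (h : Spec L M) : Infinite (PM L M) := by
  refine not_finite_iff_infinite.mp fun hfin => ?_
  obtain ⟨v, h1, h2⟩ := h.infP (Nat.card (PM L M) + 1)
  have := Nat.card_le_card_of_injective (fun i => (⟨v i, h2 i⟩ : PM L M))
    fun i j e => h1 i j (congrArg Subtype.val e)
  simp at this

/-- The model of the given sentence living on the first sort. -/
def Spec.model (h : Spec L M) {φ : Fml L 0} (hφ : (relz φ).Sat (Fin.elim0 : Fin 0 → M)) :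
    Model φ :=
  letI := h.str
  letI := h.nonempty
  ⟨NM L M, (h.sub.sat φ Fin.elim0).mp (sat_zero _ _ hφ)⟩

noncomputable def Spec.split (h : Spec L M) : NM L M ⊕ PM L M ⊕ BM L M ≃ M :=
  Equiv.ofBijective (Sum.elim Subtype.val (Sum.elim Subtype.val Subtype.val)) <| by
    constructor
    · rintro (a | a | a) (b | b | b) e <;> simp only [Sum.elim_inl, Sum.elim_inr] at e
      · rw [Subtype.ext e]
      · exact absurd (e ▸ b.2) (h.disj _ a.2)
      · exact absurd (e ▸ a.2) b.2.1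
      · exact absurd (e ▸ a.2) (h.disj _ b.2)
      · rw [Subtype.ext e]
      · exact absurd (e ▸ a.2) b.2.2
      · exact absurd (e ▸ b.2) a.2.1
      · exact absurd (e ▸ b.2) a.2.2
      · rw [Subtype.ext e]
    · intro x
      by_cases h1 : Np L x
      · exact ⟨.inl ⟨x, h1⟩, rfl⟩
      · by_cases h2 : Pp L x
        · exact ⟨.inr (.inl ⟨x, h2⟩), rfl⟩
        · exact ⟨.inr (.inr ⟨x, h1, h2⟩), rfl⟩

theorem Spec.card_le (h : Spec L M) {κ : Cardinal.{0}} (h1 : ℵ₁ ≤ κ) (hN : #(NM L M) ≤ κ) :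
    #M ≤ κ := by
  have := h.nonempty
  have h0 : ℵ₀ ≤ κ := aleph0_lt_aleph_one.le.trans h1
  have hB : #(BM L M) ≤ κ := h.good.card_le.trans (max_le hN h1)
  have hP : #(PM L M) ≤ κ := (mk_le_of_surjective h.good.surj).trans hB
  rw [← mk_congr h.split, mk_sum, mk_sum]
  simp only [lift_id]
  exact add_le_of_le h0 hN (add_le_of_le h0 hP hB)

theorem vec1 (v : Fin 1 → M) : v = ![v 0] := by
  funext i
  fin_cases i
  rfl

theorem vec2 (v : Fin 2 → M) : v = ![v 0, v 1] := by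
  funext i
  fin_cases i <;> rfl

theorem vec3 (v : Fin 3 → M) : v = ![v 0, v 1, v 2] := by
  funext i
  fin_cases i <;> rfl

theorem Spec.iso [Countable M] [Countable M'] (h : Spec L M) (h' : Spec L M')
    (f : @Language.Equiv L (NM L M) (NM L M') h.str h'.str) (σ : PM L M ≃ PM L M') :
    ∃ g : (LX L).Equiv M M', ∀ x : PM L M, g x.1 = (σ x).1 := by
  let _i1 := h.str
  let _i2 := h'.str
  obtain ⟨g, g1, g2, g3⟩ := unique_over h.good h'.good f.toEquiv σ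
  let F : M ≃ M' := h.split.symm.trans ((f.toEquiv.sumCongr (σ.sumCongr g)).trans h'.split)
  have FN : ∀ x : NM L M, F x.1 = (f x).1 := fun x => by
    have : h.split.symm x.1 = .inl x := h.split.symm_apply_eq.mpr rfl
    simp only [F, Equiv.trans_apply, this]
    rfl
  have FP : ∀ x : PM L M, F x.1 = (σ x).1 := fun x => by
    have : h.split.symm x.1 = .inr (.inl x) := h.split.symm_apply_eq.mpr rfl
    simp only [F, Equiv.trans_apply, this]
    rfl
  have FB : ∀ x : BM L M, F x.1 = (g x).1 := fun x => by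
    have : h.split.symm x.1 = .inr (.inr x) := h.split.symm_apply_eq.mpr rfl
    simp only [F, Equiv.trans_apply, this]
    rfl
  have hNP : ∀ x, (Np L (F x) ↔ Np L x) ∧ (Pp L (F x) ↔ Pp L x) := by
    intro x
    by_cases h1 : Np L x
    · have := FN ⟨x, h1⟩ ▸ (f ⟨x, h1⟩).2
      exact ⟨iff_of_true this h1, iff_of_false (h'.disj _ this) (h.disj _ h1)⟩
    · by_cases h2 : Pp L x
      · have := FP ⟨x, h2⟩ ▸ (σ ⟨x, h2⟩).2
        exact ⟨iff_of_false (fun e => h'.disj _ e this) h1, iff_of_true this h2⟩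
      · have := FB ⟨x, h1, h2⟩ ▸ (g ⟨x, h1, h2⟩).2
        exact ⟨iff_of_false this.1 h1, iff_of_false this.2 h2⟩
  have hB : ∀ x, Bp L (F x) ↔ Bp L x := fun x =>
    and_congr (not_congr (hNP x).1) (not_congr (hNP x).2)
  have hc : ∀ x y, F (cc L x y) = cc L (F x) (F y) := by
    intro x y
    by_cases hb : Bp L x ∧ Bp L y
    · rw [FB ⟨x, hb.1⟩, FB ⟨y, hb.2⟩, FN ⟨_, h.cB x y hb.1 hb.2⟩]
      exact (congrArg Subtype.val (g1 ⟨x, hb.1⟩ ⟨y, hb.2⟩)).symm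
    · rw [h.cO x y hb, h'.cO _ _ (by rwa [hB, hB])]
  have hp : ∀ x, F (pp L x) = pp L (F x) := by
    intro x
    by_cases hb : Bp L x
    · rw [FB ⟨x, hb⟩, FP ⟨_, h.pB x hb⟩]
      exact (congrArg Subtype.val (g2 ⟨x, hb⟩)).symm
    · rw [h.pO x hb, h'.pO _ (by rwa [hB])]
  have hR : ∀ x y z, Rr L (F x) (F y) (F z) ↔ Rr L x y z := by
    intro x y z
    by_cases hb : Bp L x ∧ Bp L y ∧ Bp L z
    · rw [FB ⟨x, hb.1⟩, FB ⟨y, hb.2.1⟩, FB ⟨z, hb.2.2⟩]
      exact g3 ⟨x, hb.1⟩ ⟨y, hb.2.1⟩ ⟨z, hb.2.2⟩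
    · refine iff_of_false (fun e => hb ?_) fun e => hb (h.RO _ _ _ e)
      simpa only [hB] using h'.RO _ _ _ e
  have hf : ∀ (n : ℕ) (q : L.Functions n) (v : Fin n → M),
      F (fL q v) = fL q fun i => F (v i) := by
    intro n q v
    by_cases hv : ∀ i, Np L (v i)
    · have e1 : (fun i => F (v i)) = fun i => (f ⟨v i, hv i⟩).1 := funext fun i => FN ⟨v i, hv i⟩
      rw [e1, FN ⟨_, h.funN n q v hv⟩]
      exact congrArg Subtype.val (f.map_fun q fun i => ⟨v i, hv i⟩)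
    · obtain ⟨i, -⟩ := not_forall.mp hv
      rw [h.funO n q v hv ⟨0, i.pos⟩ rfl,
        h'.funO n q _ (by simpa only [fun x => (hNP x).1] using hv) ⟨0, i.pos⟩ rfl]
  have hr : ∀ (n : ℕ) (q : L.Relations n) (v : Fin n → M),
      rL q (fun i => F (v i)) ↔ rL q v := by
    intro n q v
    by_cases hv : ∀ i, Np L (v i)
    · have e1 : (fun i => F (v i)) = fun i => (f ⟨v i, hv i⟩).1 := funext fun i => FN ⟨v i, hv i⟩
      rw [e1]
      exact f.map_rel q fun i => ⟨v i, hv i⟩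
    · refine iff_of_false (fun e => hv fun i => ?_) fun e => hv (h.relO n q v e)
      exact (hNP _).1.mp (h'.relO n q _ e i)
  refine ⟨⟨F, ?_, ?_⟩, FP⟩
  · rintro n (q | ⟨⟨⟩⟩) v
    · exact hf n q v
    · rw [vec2 v, vec2 (_ ∘ _)]
      exact hc _ _
    · rw [vec1 v, vec1 (_ ∘ _)]
      exact hp _
  · rintro n (q | ⟨⟨⟩⟩) v
    · exact hr n q v
    · rw [vec1 v, vec1 (_ ∘ _)]
      exact (hNP _).1
    · rw [vec1 v, vec1 (_ ∘ _)]
      exact (hNP _).2
    · rw [vec3 v, vec3 (_ ∘ _)]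
      exact hR _ _ _

end analysis

section synthesis
variable {N P B : Type} [L.Structure N]

def cS (S : Sys N P B) : N ⊕ P ⊕ B → N ⊕ P ⊕ B → N ⊕ P ⊕ B
  | .inr (.inr x), .inr (.inr y) => .inl (S.c x y)
  | x, _ => x

def pS (S : Sys N P B) : N ⊕ P ⊕ B → N ⊕ P ⊕ B
  | .inr (.inr x) => .inr (.inl (S.p x))
  | x => x

open Classical in
@[reducible] noncomputable def strS (L : FirstOrder.Language.{0, 0}) [L.Structure N]
    (S : Sys N P B) : (LX L).Structure (N ⊕ P ⊕ B) where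
  funMap {n} q v := match q with
    | .inl q => if h : ∃ w : Fin n → N, v = fun i => .inl (w i) then
        .inl (Structure.funMap q h.choose)
      else v ⟨0, Nat.pos_of_ne_zero fun e => h (by
        subst e
        exact ⟨Fin.elim0, Subsingleton.elim _ _⟩)⟩
    | .inr q => match n, q, v with
      | _, XF.c, v => cS S (v 0) (v 1)
      | _, XF.p, v => pS S (v 0)
  RelMap {n} q v := match q with
    | .inl q => ∃ w : Fin n → N, (v = fun i => .inl (w i)) ∧ Structure.RelMap q w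
    | .inr q => match n, q, v with
      | _, XR.N, v => ∃ a, .inl a = v 0
      | _, XR.U, v => ∃ a, .inr (.inl a) = v 0
      | _, XR.R, v => ∃ x y z, v 0 = .inr (.inr x) ∧ v 1 = .inr (.inr y) ∧ v 2 = .inr (.inr z) ∧
          S.R x y z

theorem strS_sub (S : Sys N P B) : @Sub L (N ⊕ P ⊕ B) N (strS L S) _ Sum.inl := by
  let _i := strS L S
  have hw : ∀ {n : ℕ} {w w' : Fin n → N},
      ((fun i => (Sum.inl (w i) : N ⊕ P ⊕ B)) = fun i => .inl (w' i)) → w = w' :=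
    fun e => funext fun i => Sum.inl_injective (congrFun e i)
  refine ⟨Sum.inl_injective, fun _ => Iff.rfl, fun n q w => ?_, fun n q w => ?_⟩
  · have h : ∃ w' : Fin n → N,
        (fun i => (Sum.inl (w i) : N ⊕ P ⊕ B)) = fun i => .inl (w' i) := ⟨w, rfl⟩
    refine (dif_pos h).trans ?_
    rw [← hw h.choose_spec]
  · exact ⟨fun ⟨w', e, h⟩ => hw e ▸ h, fun h => ⟨w, rfl, h⟩⟩

theorem strS_spec [Nonempty N] [Infinite P] {S : Sys N P B} (hS : Good S) :
    @Spec L (N ⊕ P ⊕ B) (strS L S) := by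
  let _i := strS L S
  have hN : ∀ x : N ⊕ P ⊕ B, Np L x ↔ ∃ a, .inl a = x := fun _ => Iff.rfl
  have hP : ∀ x : N ⊕ P ⊕ B, Pp L x ↔ ∃ a, .inr (.inl a) = x := fun _ => Iff.rfl
  have hB : ∀ x : N ⊕ P ⊕ B, Bp L x ↔ ∃ a, .inr (.inr a) = x := by
    rintro (a | a | a) <;> simp [Bp, hN, hP]
  have hc : ∀ x y : N ⊕ P ⊕ B, cc L x y = cS S x y := fun _ _ => rfl
  have hp : ∀ x : N ⊕ P ⊕ B, pp L x = pS S x := fun _ => rfl
  have hR : ∀ u v w : N ⊕ P ⊕ B, Rr L u v w ↔ ∃ x y z, u = .inr (.inr x) ∧ v = .inr (.inr y) ∧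
      w = .inr (.inr z) ∧ S.R x y z := fun _ _ _ => Iff.rfl
  have hRO : ∀ x y z : N ⊕ P ⊕ B, Rr L x y z → Bp L x ∧ Bp L y ∧ Bp L z := by
    intro u v w h
    obtain ⟨x, y, z, rfl, rfl, rfl, -⟩ := (hR _ _ _).mp h
    exact ⟨(hB _).mpr ⟨_, rfl⟩, (hB _).mpr ⟨_, rfl⟩, (hB _).mpr ⟨_, rfl⟩⟩
  have hPres : Pres (M := N ⊕ P ⊕ B) (Np L) (Pp L) (Bp L) (cc L) (pp L) (Rr L) S Sum.inl
      (fun a => .inr (.inl a)) fun a => .inr (.inr a) :=
    ⟨Sum.inl_injective, Sum.inr_injective.comp Sum.inl_injective,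
      Sum.inr_injective.comp Sum.inr_injective, hN, hP, hB, fun _ _ => rfl, fun _ => rfl,
      fun x y z => by simp [hR], fun x y z h => (hRO x y z h).2.2⟩
  obtain ⟨a1, a2, a3⟩ := hPres.good_iff.mpr hS
  have hall : ∀ {n : ℕ} (v : Fin n → N ⊕ P ⊕ B),
      (∀ i, Np L (v i)) ↔ ∃ w : Fin n → N, v = fun i => .inl (w i) := by
    intro n v
    constructor
    · intro h
      choose w hw using fun i => (hN _).mp (h i)
      exact ⟨w, funext fun i => (hw i).symm⟩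
    · rintro ⟨w, rfl⟩ i
      exact ⟨w i, rfl⟩
  refine ⟨?_, ?_, fun n => ?_, fun n q v h => ?_, fun n q v h i hi => ?_, fun n q v h => ?_,
    ?_, ?_, ?_, ?_, hRO, a1, a2, a3⟩
  · rintro (a | a | a) <;> simp [hN, hP]
  · exact ⟨.inl (Classical.arbitrary N), _, rfl⟩
  · refine ⟨fun i => .inr (.inl (Infinite.natEmbedding P i)), fun i j e => ?_, fun i => ⟨_, rfl⟩⟩
    exact Fin.ext ((Infinite.natEmbedding P).injective (by simpa using e))
  · obtain ⟨w, rfl⟩ := (hall v).mp h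
    rw [(strS_sub S).hf]
    exact ⟨_, rfl⟩
  · refine (dif_neg (mt (hall v).mpr h)).trans (congrArg v (Fin.ext hi.symm))
  · obtain ⟨w, e, -⟩ := h
    exact (hall v).mpr ⟨w, e⟩
  · intro x y hx hy
    obtain ⟨x, rfl⟩ := (hB _).mp hx
    obtain ⟨y, rfl⟩ := (hB _).mp hy
    exact ⟨_, rfl⟩
  · rintro (a | a | a) (b | b | b) h <;> first | rfl | exact absurd ⟨(hB _).mpr ⟨_, rfl⟩, (hB _).mpr ⟨_, rfl⟩⟩ h
  · intro x hx
    obtain ⟨x, rfl⟩ := (hB _).mp hx
    exact ⟨_, rfl⟩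
  · rintro (a | a | a) h <;> first | rfl | exact absurd ((hB _).mpr ⟨_, rfl⟩) h

end synthesis

theorem homCh_of_ch {κ : Cardinal.{0}} (h : Ch κ) (hne : κ ≠ ℵ₀) : HomCh κ := by
  obtain ⟨h0, L, hL, φ, hcomp, hmod, hno⟩ := h
  have h1 : ℵ₁ ≤ κ := by
    rw [← succ_aleph0]
    exact Order.succ_le_of_lt (lt_of_le_of_ne h0 hne.symm)
  have hle : ∀ A : Model φ, #A.M ≤ κ := by
    intro A
    by_contra hA
    exact hno (lowenheim A (h0.trans (Order.le_succ κ)) (Order.succ_le_of_lt (not_le.mp hA)))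
  obtain ⟨ψ, hψ⟩ := exists_sentence φ
  have hex : ∀ μ, ℵ₀ ≤ μ → μ ≤ κ → ∃ A : Model ψ, #A.M ≤ μ ∧ #(A.ext (sP L)) = μ := by
    intro μ m0 m1
    obtain ⟨A, hA⟩ := hmod μ m0 m1
    have hinf : Infinite A.M := infinite_iff.mpr (hA ▸ m0)
    obtain ⟨B, S, hS, hB⟩ := exists_good A.M A.M le_rfl
    let _i := strS L S
    have hsat : (relz φ).Sat (Fin.elim0 : Fin 0 → A.M ⊕ A.M ⊕ B) :=
      sat_zero _ _ (((strS_sub S).sat φ Fin.elim0).mpr A.sat)
    refine ⟨⟨A.M ⊕ A.M ⊕ B, (hψ _).mpr ⟨hsat, strS_spec hS⟩⟩, ?_, ?_⟩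
    · change #(A.M ⊕ A.M ⊕ B) ≤ μ
      rw [mk_sum, mk_sum]
      simp only [lift_id]
      exact add_le_of_le m0 hA.le (add_le_of_le m0 hA.le (hB.trans hA.le))
    · rw [← hA]
      exact mk_range_eq (fun a : A.M => (Sum.inr (.inl a) : A.M ⊕ A.M ⊕ B))
        (Sum.inr_injective.comp Sum.inl_injective)
  have hiso : ∀ A A' : Model ψ, Countable A.M → Countable A'.M → ∀ σ : PM L A.M ≃ PM L A'.M,
      ∃ g : (LX L).Equiv A.M A'.M, ∀ x : PM L A.M, g x.1 = (σ x).1 := by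
    intro A A' c1 c2 σ
    obtain ⟨a1, a2⟩ := (hψ _).mp A.sat
    obtain ⟨b1, b2⟩ := (hψ _).mp A'.sat
    obtain ⟨f⟩ := hcomp.2 (a2.model a1) (b2.model b1) (inferInstanceAs (Countable (NM L A.M)))
      (inferInstanceAs (Countable (NM L A'.M)))
    exact a2.iso b2 f σ
  refine ⟨LX L, countable_LX, ψ, sP L, ⟨?_, fun A A' c1 c2 => ?_⟩, fun A => ?_,
    fun A c => ⟨?_, fun σ => hiso A A c c σ⟩, ?_⟩
  · obtain ⟨A, hA, -⟩ := hex ℵ₀ le_rfl h0
    exact ⟨A, mk_le_aleph0_iff.mp hA⟩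
  · have i1 := ((hψ _).mp A.sat).2.infinite
    have i2 := ((hψ _).mp A'.sat).2.infinite
    obtain ⟨σ⟩ : Nonempty (PM L A.M ≃ PM L A'.M) := nonempty_equiv_of_countable
    obtain ⟨g, -⟩ := hiso A A' c1 c2 σ
    exact ⟨g⟩
  · obtain ⟨a1, a2⟩ := (hψ _).mp A.sat
    exact a2.card_le h1 (hle (a2.model a1))
  · exact Set.infinite_coe_iff.mp ((hψ _).mp A.sat).2.infinite
  · obtain ⟨A, -, hA⟩ := hex κ h0 le_rfl
    exact ⟨A, hA⟩

end Pool.Agent.P.MP_032f6a_lc
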