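import Pool.Agent.P.MP_032f6a_lc.Sys

/-!
One-sorted form of `Good`.
-/

namespace Pool.Agent.P.MP_032f6a_lc

variable {M N P B : Type}

def ClM {I : Type} (R : M → M → M → Prop) (y : I → M) : Prop :=
  ∀ i j z, R (y i) (y j) z → ∃ l, z = y l

def EmbM {I : Type} (c : M → M → M) (p : M → M) (R : M → M → M → Prop) (cD : I → I → M)
    (pD : I → M) (RD : I → I → I → Prop) (e : I → M) : Prop :=
  (∀ i j, e i = e j → i = j) ∧ ClM R e ∧ (∀ i j, c (e i) (e j) = cD i j) ∧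
    (∀ i, p (e i) = pD i) ∧ ∀ i j l, R (e i) (e j) (e l) ↔ RD i j l

def AxM (Bp : M → Prop) (c : M → M → M) (R : M → M → M → Prop) : Prop :=
  ∀ x y z, Bp x → Bp y → Bp z → ¬ x = y → ¬ x = z → ¬ y = z →
    (¬ c y x = c z x ∨ c x y = c x z) →
      R x y z ∨ R y x z ∨ R x z y ∨ R z x y ∨ R y z x ∨ R z y x

def LocM (Bp : M → Prop) (R : M → M → M → Prop) : Prop :=
  ∀ (n : ℕ) (x : Fin n → M), (∀ i, Bp (x i)) →
    ∃ (m : ℕ) (y : Fin m → M), (∀ j, Bp (y j)) ∧ (∀ i, ∃ j, x i = y j) ∧ ClM R y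

def ExtM (Np Pp Bp : M → Prop) (c : M → M → M) (p : M → M) (R : M → M → M → Prop) : Prop :=
  ∀ (n : ℕ) (O : Set (Fin n)) (RD : Fin n → Fin n → Fin n → Prop) (cD : Fin n × Fin n → M)
    (pD : Fin n → M) (a : O → M), (∀ q, Np (cD q)) → (∀ i, Pp (pD i)) → (∀ i, Bp (a i)) →
    (∀ x y z, x ≠ y → x ≠ z → y ≠ z → (¬ cD (y, x) = cD (z, x) ∨ cD (x, y) = cD (x, z)) →
      Dep RD x y z) → Cl RD O →
    EmbM c p R (fun i j : O => cD (i, j)) (fun i => pD i) (fun i j l => RD i j l) a →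
      ∃ e : Fin n → M, (∀ i, Bp (e i)) ∧ (∀ i : O, e i = a i) ∧
        EmbM c p R (fun i j => cD (i, j)) pD RD e

structure Pres (Np Pp Bp : M → Prop) (c : M → M → M) (p : M → M) (R : M → M → M → Prop)
    (S : Sys N P B) (iN : N → M) (iP : P → M) (iB : B → M) : Prop where
  injN : Function.Injective iN
  injP : Function.Injective iP
  injB : Function.Injective iB
  rN : ∀ x, Np x ↔ ∃ a, iN a = x
  rP : ∀ x, Pp x ↔ ∃ a, iP a = x
  rB : ∀ x, Bp x ↔ ∃ a, iB a = x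
  hc : ∀ x y, c (iB x) (iB y) = iN (S.c x y)
  hp : ∀ x, p (iB x) = iP (S.p x)
  hR : ∀ x y z, R (iB x) (iB y) (iB z) ↔ S.R x y z
  out : ∀ x y z, R x y z → Bp z

variable {Np Pp Bp : M → Prop} {c : M → M → M} {p : M → M} {R : M → M → M → Prop}
  {S : Sys N P B} {iN : N → M} {iP : P → M} {iB : B → M}

theorem Pres.cl_iff (h : Pres Np Pp Bp c p R S iN iP iB) {I : Type} (e : I → B) :
    ClM R (fun i => iB (e i)) ↔ Cl S.R (Set.range e) := by
  constructor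
  · rintro h1 _ ⟨i, rfl⟩ _ ⟨j, rfl⟩ z hz
    obtain ⟨l, hl⟩ := h1 i j (iB z) ((h.hR _ _ _).mpr hz)
    exact ⟨l, (h.injB hl).symm⟩
  · intro h1 i j z hz
    obtain ⟨b, rfl⟩ := (h.rB z).mp (h.out _ _ _ hz)
    obtain ⟨l, hl⟩ := h1 _ ⟨i, rfl⟩ _ ⟨j, rfl⟩ b ((h.hR _ _ _).mp hz)
    exact ⟨l, congrArg iB hl.symm⟩

theorem Pres.emb_iff (h : Pres Np Pp Bp c p R S iN iP iB) {I : Type} (D : Sys N P I)
    (e : I → B) : EmbM c p R (fun i j => iN (D.c i j)) (fun i => iP (D.p i)) D.R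
      (fun i => iB (e i)) ↔ Emb D S e := by
  unfold EmbM
  simp only [h.cl_iff, h.hc, h.hp, h.hR, h.injN.eq_iff, h.injP.eq_iff, h.injB.eq_iff]
  exact ⟨fun ⟨h1, h2, h3, h4, h5⟩ => ⟨fun _ _ h => h1 _ _ h, h2, h3, h4, h5⟩,
    fun h => ⟨fun _ _ e => h.inj e, h.cl, h.c, h.p, h.R⟩⟩

theorem Pres.ax_iff (h : Pres Np Pp Bp c p R S iN iP iB) : AxM Bp c R ↔ Ax S.c S.R := by
  constructor
  · intro h1 x y z n1 n2 n3 h4
    have := h1 (iB x) (iB y) (iB z) ((h.rB _).mpr ⟨_, rfl⟩) ((h.rB _).mpr ⟨_, rfl⟩)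
      ((h.rB _).mpr ⟨_, rfl⟩) (h.injB.ne n1) (h.injB.ne n2) (h.injB.ne n3)
      (by simpa only [h.hc, h.injN.eq_iff] using h4)
    simpa only [Dep, h.hR] using this
  · intro h1 x y z b1 b2 b3 n1 n2 n3 h4
    obtain ⟨x, rfl⟩ := (h.rB _).mp b1
    obtain ⟨y, rfl⟩ := (h.rB _).mp b2
    obtain ⟨z, rfl⟩ := (h.rB _).mp b3
    have := h1 x y z (fun e => n1 (congrArg _ e)) (fun e => n2 (congrArg _ e))
      (fun e => n3 (congrArg _ e)) (by simpa only [h.hc, h.injN.eq_iff] using h4)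
    simpa only [Dep, h.hR] using this

theorem Pres.loc_iff (h : Pres Np Pp Bp c p R S iN iP iB) : LocM Bp R ↔ S.LocFin := by
  constructor
  · intro h1 s hs
    obtain ⟨n, x, -, rfl⟩ := hs.fin_param
    obtain ⟨m, y, hy, h2, h3⟩ := h1 n (fun i => iB (x i)) fun i => (h.rB _).mpr ⟨_, rfl⟩
    choose y' hy' using fun j => (h.rB _).mp (hy j)
    obtain rfl : y = fun j => iB (y' j) := funext fun j => (hy' j).symm
    refine ⟨Set.range y', Set.finite_range _, ?_, (h.cl_iff y').mp h3⟩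
    rintro _ ⟨i, rfl⟩
    obtain ⟨j, hj⟩ := h2 i
    exact ⟨j, (h.injB hj).symm⟩
  · intro h1 n x hx
    choose x' hx' using fun j => (h.rB _).mp (hx j)
    obtain ⟨t, ht, h2, h3⟩ := h1 _ (Set.finite_range x')
    obtain ⟨m, y, -, rfl⟩ := ht.fin_param
    refine ⟨m, fun j => iB (y j), fun j => (h.rB _).mpr ⟨_, rfl⟩, fun i => ?_,
      (h.cl_iff y).mpr h3⟩
    obtain ⟨j, hj⟩ := h2 ⟨i, rfl⟩
    exact ⟨j, (hx' i).symm.trans (congrArg iB hj.symm)⟩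

theorem Pres.ext_iff (h : Pres Np Pp Bp c p R S iN iP iB) : ExtM Np Pp Bp c p R ↔ S.Ext := by
  constructor
  · intro h1 n O D a hD hO ha
    obtain ⟨e, b1, b2, b3⟩ := h1 n O D.R (fun q => iN (D.c q.1 q.2)) (fun i => iP (D.p i))
      (fun i => iB (a i)) (fun _ => (h.rN _).mpr ⟨_, rfl⟩) (fun _ => (h.rP _).mpr ⟨_, rfl⟩)
      (fun _ => (h.rB _).mpr ⟨_, rfl⟩)
      (fun x y z n1 n2 n3 h4 => hD x y z n1 n2 n3 (by simpa only [h.injN.eq_iff] using h4)) hO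
      ((h.emb_iff _ a).mpr ha)
    choose e' he' using fun j => (h.rB _).mp (b1 j)
    obtain rfl : e = fun j => iB (e' j) := funext fun j => (he' j).symm
    exact ⟨e', fun i => h.injB (b2 i), (h.emb_iff D e').mp b3⟩
  · intro h1 n O RD cD pD a b1 b2 b3 hD hO ha
    choose c' hc' using fun q => (h.rN _).mp (b1 q)
    choose p' hp' using fun q => (h.rP _).mp (b2 q)
    choose a' ha' using fun q => (h.rB _).mp (b3 q)
    obtain rfl : cD = fun j => iN (c' j) := funext fun j => (hc' j).symm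
    obtain rfl : pD = fun j => iP (p' j) := funext fun j => (hp' j).symm
    obtain rfl : a = fun j => iB (a' j) := funext fun j => (ha' j).symm
    let D : Sys N P (Fin n) := ⟨fun i j => c' (i, j), p', RD⟩
    obtain ⟨e, e1, e2⟩ := h1 n O D a'
      (fun x y z n1 n2 n3 h4 => hD x y z n1 n2 n3 (by simpa only [h.injN.eq_iff] using h4)) hO
      ((h.emb_iff (D.comap Subtype.val) a').mp ha)
    exact ⟨fun i => iB (e i), fun _ => (h.rB _).mpr ⟨_, rfl⟩, fun i => congrArg iB (e1 i),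
      (h.emb_iff D e).mpr e2⟩

theorem Pres.good_iff (h : Pres Np Pp Bp c p R S iN iP iB) :
    (AxM Bp c R ∧ LocM Bp R ∧ ExtM Np Pp Bp c p R) ↔ Good S := by
  rw [h.ax_iff, h.loc_iff, h.ext_iff]
  exact ⟨fun ⟨a, b, c⟩ => ⟨a, b, c⟩, fun h => ⟨h.ax, h.loc, h.ext⟩⟩

end Pool.Agent.P.MP_032f6a_lc
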