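import Pool.Agent.P.MP_032f6a_lc.LogicBasic
import Pool.Agent.P.MP_032f6a_lc.LogicPres

/-!
The sentence: the expanded language, the relativization of the given sentence, and the
definability of the remaining conditions.
-/

open FirstOrder Cardinal FirstOrder.Language

namespace Pool.Agent.P.MP_032f6a_lc

inductive XF : ℕ → Type
  | c : XF 2
  | p : XF 1

inductive XR : ℕ → Type
  | N : XR 1
  | U : XR 1
  | R : XR 3

def X : FirstOrder.Language.{0, 0} := ⟨XF, XR⟩

abbrev LX (L : FirstOrder.Language.{0, 0}) : FirstOrder.Language.{0, 0} := L.sum X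

variable {L : FirstOrder.Language.{0, 0}}

instance (n : ℕ) : Countable (XF n) :=
  Function.Injective.countable (f := fun _ => ()) (by rintro ⟨⟩ ⟨⟩ _ <;> rfl)

instance (n : ℕ) : Countable (XR n) :=
  Function.Injective.countable
    (f := fun r : XR n => match n, r with | _, .N => 0 | _, .U => 1 | _, .R => (2 : ℕ))
    (by rintro ⟨⟩ ⟨⟩ h <;> first | rfl | exact absurd h (by simp))

theorem countable_LX [Countable L.Symbols] : Countable (LX L).Symbols := by
  have h1 : ∀ n, Countable ((LX L).Functions n) := fun n =>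
    have := countable_fun (L := L) n
    inferInstanceAs (Countable (L.Functions n ⊕ XF n))
  have h2 : ∀ n, Countable ((LX L).Relations n) := fun n =>
    have := countable_rel (L := L) n
    inferInstanceAs (Countable (L.Relations n ⊕ XR n))
  exact inferInstanceAs (Countable ((Σ n, (LX L).Functions n) ⊕ Σ n, (LX L).Relations n))

def sN (L : FirstOrder.Language.{0, 0}) : (LX L).Relations 1 := Sum.inr XR.N
def sP (L : FirstOrder.Language.{0, 0}) : (LX L).Relations 1 := Sum.inr XR.U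
def sR (L : FirstOrder.Language.{0, 0}) : (LX L).Relations 3 := Sum.inr XR.R
def sc (L : FirstOrder.Language.{0, 0}) : (LX L).Functions 2 := Sum.inr XF.c
def sp (L : FirstOrder.Language.{0, 0}) : (LX L).Functions 1 := Sum.inr XF.p

section
variable (L) {M : Type} [(LX L).Structure M]

def Np (x : M) : Prop := Structure.RelMap (sN L) ![x]
def Pp (x : M) : Prop := Structure.RelMap (sP L) ![x]
def Bp (x : M) : Prop := ¬ Np L x ∧ ¬ Pp L x
def Rr (x y z : M) : Prop := Structure.RelMap (sR L) ![x, y, z]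
def cc (x y : M) : M := Structure.funMap (sc L) ![x, y]
def pp (x : M) : M := Structure.funMap (sp L) ![x]
end

def fL {M : Type} [(LX L).Structure M] {n : ℕ} (f : L.Functions n) (v : Fin n → M) : M :=
  Structure.funMap (L := LX L) (Sum.inl f) v

def rL {M : Type} [(LX L).Structure M] {n : ℕ} (r : L.Relations n) (v : Fin n → M) : Prop :=
  Structure.RelMap (L := LX L) (Sum.inl r) v

section atoms
variable {α : Type} {g h k : ∀ (M : Type) [(LX L).Structure M], (α → M) → M}

theorem Trm.cc (hg : Trm (LX L) g) (hh : Trm (LX L) h) :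
    Trm (LX L) fun M _ v => cc L (g M v) (h M v) := by
  obtain ⟨t, ht⟩ := hg
  obtain ⟨u, hu⟩ := hh
  refine ⟨.func (sc L) ![t, u], fun M _ v => ?_⟩
  simp only [Term.realize, MP_032f6a_lc.cc, ← ht, ← hu]
  congr 1
  funext i
  fin_cases i <;> rfl

theorem Trm.pp (hg : Trm (LX L) g) : Trm (LX L) fun M _ v => pp L (g M v) := by
  obtain ⟨t, ht⟩ := hg
  refine ⟨.func (sp L) ![t], fun M _ v => ?_⟩
  simp only [Term.realize, MP_032f6a_lc.pp, ← ht]
  congr 1
  funext i
  fin_cases i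
  rfl

theorem Dfn.un (r : (LX L).Relations 1) (hg : Trm (LX L) g) :
    Dfn (LX L) fun M _ v => Structure.RelMap r ![g M v] := by
  refine (Dfn.rel r (g := fun _ => g) fun _ => hg).congr fun M _ v => iff_of_eq ?_
  congr 1
  funext i
  fin_cases i
  rfl

theorem Dfn.Np (hg : Trm (LX L) g) : Dfn (LX L) fun M _ v => Np L (g M v) := Dfn.un _ hg

theorem Dfn.Pp (hg : Trm (LX L) g) : Dfn (LX L) fun M _ v => Pp L (g M v) := Dfn.un _ hg

theorem Dfn.Bp (hg : Trm (LX L) g) : Dfn (LX L) fun M _ v => Bp L (g M v) :=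
  (Dfn.Np hg).not.and (Dfn.Pp hg).not

theorem Dfn.Rr (hg : Trm (LX L) g) (hh : Trm (LX L) h) (hk : Trm (LX L) k) :
    Dfn (LX L) fun M _ v => Rr L (g M v) (h M v) (k M v) := by
  refine (Dfn.rel (sR L) (g := ![g, h, k]) fun i => ?_).congr fun M _ v => iff_of_eq ?_
  · fin_cases i
    exacts [hg, hh, hk]
  · unfold MP_032f6a_lc.Rr
    congr 1
    funext i
    fin_cases i <;> rfl

theorem Dfn.clM {I : Type} [Countable I]
    {y : ∀ (M : Type) [(LX L).Structure M], (α → M) → I → M}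
    (hy : ∀ i, Trm (LX L) fun M _ v => y M v i) :
    Dfn (LX L) fun M _ v => ClM (MP_032f6a_lc.Rr L) (y M v) := by
  have hs : ∀ i, Trm (LX L) fun M _ (u : Option α → M) => y M (fun a => u (some a)) i := by
    intro i
    obtain ⟨t, ht⟩ := hy i
    exact ⟨t.relabel some, fun M _ v => by rw [Term.realize_relabel, ht]; rfl⟩
  exact .iAll fun i => .iAll fun j => .all1
    ((Dfn.Rr (hs i) (hs j) (.var none)).imp (.iEx fun l => .eq (.var none) (hs l)))

theorem Dfn.embM {I : Type} [Countable I]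
    {cD : ∀ (M : Type) [(LX L).Structure M], (α → M) → I → I → M}
    {pD e : ∀ (M : Type) [(LX L).Structure M], (α → M) → I → M} (RD : I → I → I → Prop)
    (hc : ∀ i j, Trm (LX L) fun M _ v => cD M v i j) (hp : ∀ i, Trm (LX L) fun M _ v => pD M v i)
    (he : ∀ i, Trm (LX L) fun M _ v => e M v i) :
    Dfn (LX L) fun M _ v => EmbM (MP_032f6a_lc.cc L) (MP_032f6a_lc.pp L) (MP_032f6a_lc.Rr L)
      (cD M v) (pD M v) RD (e M v) :=
  (Dfn.iAll fun i => .iAll fun j => (Dfn.eq (he i) (he j)).imp (.const _)).and <|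
    (Dfn.clM he).and <|
    (Dfn.iAll fun i => .iAll fun j => .eq ((he i).cc (he j)) (hc i j)).and <|
    (Dfn.iAll fun i => .eq (he i).pp (hp i)).and <|
    .iAll fun i => .iAll fun j => .iAll fun l => (Dfn.Rr (he i) (he j) (he l)).iff (.const _)

end atoms

structure Spec (L : FirstOrder.Language.{0, 0}) (M : Type) [(LX L).Structure M] : Prop where
  disj : ∀ x : M, Np L x → ¬ Pp L x
  neN : ∃ x : M, Np L x
  infP : ∀ n : ℕ, ∃ v : Fin n → M, (∀ i j, v i = v j → i = j) ∧ ∀ i, Pp L (v i)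
  funN : ∀ (n : ℕ) (f : L.Functions n) (v : Fin n → M), (∀ i, Np L (v i)) → Np L (fL f v)
  funO : ∀ (n : ℕ) (f : L.Functions n) (v : Fin n → M), ¬ (∀ i, Np L (v i)) →
    ∀ i : Fin n, i.1 = 0 → fL f v = v i
  relO : ∀ (n : ℕ) (r : L.Relations n) (v : Fin n → M), rL r v → ∀ i, Np L (v i)
  cB : ∀ x y : M, Bp L x → Bp L y → Np L (cc L x y)
  cO : ∀ x y : M, ¬ (Bp L x ∧ Bp L y) → cc L x y = x
  pB : ∀ x : M, Bp L x → Pp L (pp L x)
  pO : ∀ x : M, ¬ Bp L x → pp L x = x
  RO : ∀ x y z : M, Rr L x y z → Bp L x ∧ Bp L y ∧ Bp L z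
  ax : AxM (M := M) (Bp L) (cc L) (Rr L)
  loc : LocM (M := M) (Bp L) (Rr L)
  ext : ExtM (M := M) (Np L) (Pp L) (Bp L) (cc L) (pp L) (Rr L)

theorem dfn_ax : Dfn (LX L) fun M _ (_ : Empty → M) => AxM (M := M) (Bp L) (cc L) (Rr L) := by
  refine .all1 (.all1 (.all1 ?_))
  refine (Dfn.Bp (.var _)).imp ((Dfn.Bp (.var _)).imp ((Dfn.Bp (.var _)).imp ?_))
  refine (Dfn.eq (.var _) (.var _)).not.imp ((Dfn.eq (.var _) (.var _)).not.imp
    ((Dfn.eq (.var _) (.var _)).not.imp ?_))
  refine ((Dfn.eq ((Trm.var _).cc (.var _)) ((Trm.var _).cc (.var _))).not.or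
    (.eq ((Trm.var _).cc (.var _)) ((Trm.var _).cc (.var _)))).imp ?_
  have r := fun a b c : Option (Option (Option Empty)) =>
    Dfn.Rr (L := L) (.var a) (.var b) (.var c)
  exact (r _ _ _).or ((r _ _ _).or ((r _ _ _).or ((r _ _ _).or ((r _ _ _).or (r _ _ _)))))

theorem dfn_loc : Dfn (LX L) fun M _ (_ : Empty → M) => LocM (M := M) (Bp L) (Rr L) := by
  refine .iAll fun n => .allF ((Dfn.iAll fun i => .Bp (.var _)).imp (.iEx fun m => .exF ?_))
  exact (Dfn.iAll fun i => .Bp (.var _)).and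
    ((Dfn.iAll fun i => .iEx fun j => .eq (.var _) (.var _)).and (.clM fun i => .var _))

theorem dfn_ext : Dfn (LX L) fun M _ (_ : Empty → M) =>
    ExtM (M := M) (Np L) (Pp L) (Bp L) (cc L) (pp L) (Rr L) := by
  refine .iAll fun n => .iAll fun O => .iAll fun RD => .allF (.allF (.allF ?_))
  refine (Dfn.iAll fun i => .Np (.var _)).imp ((Dfn.iAll fun i => .Pp (.var _)).imp
    ((Dfn.iAll fun i => .Bp (.var _)).imp ?_))
  refine (Dfn.iAll fun x => .iAll fun y => .iAll fun z => (Dfn.const _).imp ((Dfn.const _).imp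
    ((Dfn.const _).imp (((Dfn.eq (.var _) (.var _)).not.or (.eq (.var _) (.var _))).imp
      (.const _))))).imp ((Dfn.const _).imp ?_)
  refine (Dfn.embM _ (fun i j => .var _) (fun i => .var _) fun i => .var _).imp (.exF ?_)
  exact (Dfn.iAll fun i => .Bp (.var _)).and ((Dfn.iAll fun i => .eq (.var _) (.var _)).and
    (.embM _ (fun i j => .var _) (fun i => .var _) fun i => .var _))

theorem dfn_spec [Countable L.Symbols] : Dfn (LX L) fun M _ (_ : Empty → M) => Spec L M := by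
  have c1 := countable_fun (L := L)
  have c2 := countable_rel (L := L)
  have hf : ∀ {α : Type} (n : ℕ) (f : L.Functions n),
      Trm (LX L) fun M _ (u : α ⊕ Fin n → M) => fL f fun b => u (.inr b) :=
    fun n f => Trm.func (L := LX L) (Sum.inl f) fun i => .var (Sum.inr i)
  have h1 : Dfn (LX L) fun M _ (_ : Empty → M) => ∀ x : M, Np L x → ¬ Pp L x :=
    .all1 ((Dfn.Np (.var _)).imp (Dfn.Pp (.var _)).not)
  have h2 : Dfn (LX L) fun M _ (_ : Empty → M) => ∃ x : M, Np L x := .ex1 (.Np (.var _))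
  have h3 : Dfn (LX L) fun M _ (_ : Empty → M) => ∀ n : ℕ, ∃ v : Fin n → M,
      (∀ i j, v i = v j → i = j) ∧ ∀ i, Pp L (v i) :=
    .iAll fun n => .exF ((Dfn.iAll fun i => .iAll fun j =>
      (Dfn.eq (.var _) (.var _)).imp (.const _)).and (.iAll fun i => .Pp (.var _)))
  have h4 : Dfn (LX L) fun M _ (_ : Empty → M) => ∀ (n : ℕ) (f : L.Functions n) (v : Fin n → M),
      (∀ i, Np L (v i)) → Np L (fL f v) :=
    .iAll fun n => .iAll fun f => .allF ((Dfn.iAll fun i => .Np (.var _)).imp (.Np (hf n f)))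
  have h5 : Dfn (LX L) fun M _ (_ : Empty → M) => ∀ (n : ℕ) (f : L.Functions n) (v : Fin n → M),
      ¬ (∀ i, Np L (v i)) → ∀ i : Fin n, i.1 = 0 → fL f v = v i :=
    .iAll fun n => .iAll fun f => .allF ((Dfn.iAll fun i => .Np (.var _)).not.imp
      (.iAll fun i => (Dfn.const _).imp (.eq (hf n f) (.var _))))
  have h6 : Dfn (LX L) fun M _ (_ : Empty → M) => ∀ (n : ℕ) (r : L.Relations n) (v : Fin n → M),
      rL r v → ∀ i, Np L (v i) :=
    .iAll fun n => .iAll fun r => .allF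
      ((Dfn.rel (L := LX L) (Sum.inl r) fun i => .var (Sum.inr i)).imp (.iAll fun i => .Np (.var _)))
  have h7 : Dfn (LX L) fun M _ (_ : Empty → M) =>
      ∀ x y : M, Bp L x → Bp L y → Np L (cc L x y) :=
    .all1 (.all1 ((Dfn.Bp (.var _)).imp ((Dfn.Bp (.var _)).imp (.Np ((Trm.var _).cc (.var _))))))
  have h8 : Dfn (LX L) fun M _ (_ : Empty → M) =>
      ∀ x y : M, ¬ (Bp L x ∧ Bp L y) → cc L x y = x :=
    .all1 (.all1 (((Dfn.Bp (.var _)).and (.Bp (.var _))).not.imp
      (.eq ((Trm.var _).cc (.var _)) (.var _))))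
  have h9 : Dfn (LX L) fun M _ (_ : Empty → M) => ∀ x : M, Bp L x → Pp L (pp L x) :=
    .all1 ((Dfn.Bp (.var _)).imp (.Pp (Trm.var _).pp))
  have h10 : Dfn (LX L) fun M _ (_ : Empty → M) => ∀ x : M, ¬ Bp L x → pp L x = x :=
    .all1 ((Dfn.Bp (.var _)).not.imp (.eq (Trm.var _).pp (.var _)))
  have h11 : Dfn (LX L) fun M _ (_ : Empty → M) =>
      ∀ x y z : M, Rr L x y z → Bp L x ∧ Bp L y ∧ Bp L z :=
    .all1 (.all1 (.all1 ((Dfn.Rr (.var _) (.var _) (.var _)).imp
      ((Dfn.Bp (.var _)).and ((Dfn.Bp (.var _)).and (.Bp (.var _)))))))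
  refine (h1.and (h2.and (h3.and (h4.and (h5.and (h6.and (h7.and (h8.and (h9.and (h10.and
    (h11.and (dfn_ax.and (dfn_loc.and dfn_ext))))))))))))).congr fun M _ _ => ?_
  exact ⟨fun ⟨a1, a2, a3, a4, a5, a6, a7, a8, a9, a10, a11, a12, a13, a14⟩ =>
      ⟨a1, a2, a3, a4, a5, a6, a7, a8, a9, a10, a11, a12, a13, a14⟩,
    fun ⟨a1, a2, a3, a4, a5, a6, a7, a8, a9, a10, a11, a12, a13, a14⟩ =>
      ⟨a1, a2, a3, a4, a5, a6, a7, a8, a9, a10, a11, a12, a13, a14⟩⟩

/-! ### Relativization -/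

def relT {α : Type} : L.Term α → (LX L).Term α
  | .var a => .var a
  | .func f ts => .func (Sum.inl f) fun i => relT (ts i)

def relz : {n : ℕ} → Fml L n → Fml (LX L) n
  | _, .eq t u => .eq (relT t) (relT u)
  | _, .rel r ts => .rel (Sum.inl r) fun i => relT (ts i)
  | _, .neg φ => .neg (relz φ)
  | _, .conj f => .conj fun i => relz (f i)
  | n, .all φ => .all (.neg ((Fml.rel (sN L) fun _ => .var (Fin.last n)).and2 (.neg (relz φ))))

structure Sub (L : FirstOrder.Language.{0, 0}) {M N : Type} [(LX L).Structure M] [L.Structure N]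
    (iN : N → M) : Prop where
  inj : Function.Injective iN
  rN : ∀ x, Np L x ↔ ∃ a, iN a = x
  hf : ∀ (n : ℕ) (f : L.Functions n) (w : Fin n → N),
    fL f (fun i => iN (w i)) = iN (Structure.funMap f w)
  hr : ∀ (n : ℕ) (r : L.Relations n) (w : Fin n → N),
    rL r (fun i => iN (w i)) ↔ Structure.RelMap r w

theorem Sub.sat {M N : Type} [(LX L).Structure M] [L.Structure N] {iN : N → M} (h : Sub L iN)
    {n : ℕ} (φ : Fml L n) (w : Fin n → N) : (relz φ).Sat (fun i => iN (w i)) ↔ φ.Sat w := by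
  have ht : ∀ {m : ℕ} (t : L.Term (Fin m)) (w : Fin m → N),
      (relT t).realize (fun i => iN (w i)) = iN (t.realize w) := by
    intro m t w
    induction t with
    | var a => rfl
    | func f ts ih =>
      simp only [relT, Term.realize, ih]
      exact h.hf _ f _
  induction φ with
  | eq t u => simp only [relz, Fml.Sat, ht, h.inj.eq_iff]
  | rel r ts =>
    simp only [relz, Fml.Sat, ht]
    exact h.hr _ r _
  | neg φ ih => exact not_congr (ih w)
  | conj f ih => exact forall_congr' fun i => ih i w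
  | @all m φ ih =>
    have hs : ∀ a : N, (Fin.snoc (fun i => iN (w i)) (iN a) : Fin (m + 1) → M) =
        fun i => iN ((Fin.snoc w a : Fin (m + 1) → N) i) :=
      fun a => (Fin.comp_snoc iN w a).symm
    have hN : ∀ x : M, (Structure.RelMap (sN L) fun _ : Fin 1 => x) ↔ Np L x := by
      intro x
      unfold Np
      refine iff_of_eq (congrArg _ ?_)
      funext i
      fin_cases i
      rfl
    simp only [relz, Fml.Sat, Fml.sat_and2, Term.realize, Fin.snoc_last, hN, h.rN, not_and,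
      not_not]
    refine ⟨fun h1 a => ?_, ?_⟩
    · have := h1 (iN a) ⟨a, rfl⟩
      rw [hs] at this
      exact (ih _).mp this
    · rintro h1 _ ⟨a, rfl⟩
      rw [hs]
      exact (ih _).mpr (h1 a)

theorem exists_sentence [Countable L.Symbols] (φ : Fml L 0) : ∃ ψ : Fml (LX L) 0,
    ∀ (M : Type) [(LX L).Structure M], ψ.Sat (Fin.elim0 : Fin 0 → M) ↔
      (relz φ).Sat (Fin.elim0 : Fin 0 → M) ∧ Spec L M := by
  obtain ⟨θ, hθ⟩ := dfn_spec (L := L) 0 Empty.elim
  exact ⟨(relz φ).and2 θ, fun M _ => by rw [Fml.sat_and2, hθ]⟩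

end Pool.Agent.P.MP_032f6a_lc
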