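import Mathlib

/-!
Logic-free part: coloured systems with a finitary dependence relation.
-/

open Cardinal

namespace Pool.Agent.P.MP_032f6a_lc

def Dep {I : Type} (R : I → I → I → Prop) (x y z : I) : Prop :=
  R x y z ∨ R y x z ∨ R x z y ∨ R z x y ∨ R y z x ∨ R z y x

def Ax {I N : Type} (c : I → I → N) (R : I → I → I → Prop) : Prop :=
  ∀ x y z, x ≠ y → x ≠ z → y ≠ z → (c y x ≠ c z x ∨ c x y = c x z) → Dep R x y z

def Cl {I : Type} (R : I → I → I → Prop) (A : Set I) : Prop :=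
  ∀ x ∈ A, ∀ y ∈ A, ∀ z, R x y z → z ∈ A

structure Sys (N P B : Type) where
  c : B → B → N
  p : B → P
  R : B → B → B → Prop

variable {N P B B' : Type}

def Sys.comap {I : Type} (S : Sys N P B) (e : I → B) : Sys N P I :=
  ⟨fun i j => S.c (e i) (e j), fun i => S.p (e i), fun i j l => S.R (e i) (e j) (e l)⟩

structure Emb {I : Type} (D : Sys N P I) (S : Sys N P B) (e : I → B) : Prop where
  inj : Function.Injective e
  cl : Cl S.R (Set.range e)
  c : ∀ i j, S.c (e i) (e j) = D.c i j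
  p : ∀ i, S.p (e i) = D.p i
  R : ∀ i j l, S.R (e i) (e j) (e l) ↔ D.R i j l

def Sys.Ext (S : Sys N P B) : Prop :=
  ∀ (n : ℕ) (O : Set (Fin n)) (D : Sys N P (Fin n)) (a : O → B),
    Ax D.c D.R → Cl D.R O → Emb (D.comap (Subtype.val : O → Fin n)) S a →
      ∃ e : Fin n → B, (∀ i : O, e i = a i) ∧ Emb D S e

def Sys.LocFin (S : Sys N P B) : Prop :=
  ∀ s : Set B, s.Finite → ∃ t : Set B, t.Finite ∧ s ⊆ t ∧ Cl S.R t

structure Good (S : Sys N P B) : Prop where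
  ax : Ax S.c S.R
  loc : S.LocFin
  ext : S.Ext

/-! ### The cardinality bound -/

theorem exists_notMem_of_lt {A C : Set B} (h : #C < #A) : ∃ x ∈ A, x ∉ C := by
  by_contra hn
  push Not at hn
  exact absurd (mk_le_mk_of_subset hn) (not_le.mpr h)

theorem countable_lt {A C : Set B} (hC : C.Countable) (hA : ℵ₁ ≤ #A) : #C < #A :=
  lt_of_lt_of_le (lt_of_le_of_lt (le_aleph0_iff_set_countable.mpr hC) aleph0_lt_aleph_one) hA

theorem biUnion_le {A : Set B} (hA : #A ≤ ℵ₁) (h : B → Set B) (hh : ∀ x, #(h x) ≤ ℵ₁) :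
    #(⋃ x ∈ A, h x) ≤ ℵ₁ := by
  refine (mk_biUnion_le h A).trans ?_
  refine mul_le_of_le aleph0_lt_aleph_one.le hA ?_
  exact ciSup_le' fun x => hh x

theorem free_pair {Q : Set B} (hQ : ℵ₁ < #Q) (h : B → Set B) (hc : ∀ x, (h x).Countable) :
    ∃ x ∈ Q, ∃ x' ∈ Q, x ≠ x' ∧ x ∉ h x' ∧ x' ∉ h x := by
  obtain ⟨Q1, hQ1, hcard⟩ := le_mk_iff_exists_subset.mp hQ.le
  have h1 : #(Q1 ∪ ⋃ x ∈ Q1, h x : Set B) < #Q := by
    refine lt_of_le_of_lt ((mk_union_le _ _).trans ?_) hQ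
    refine add_le_of_le aleph0_lt_aleph_one.le hcard.le ?_
    exact biUnion_le hcard.le h fun x =>
      (le_aleph0_iff_set_countable.mpr (hc x)).trans aleph0_lt_aleph_one.le
  obtain ⟨x', hx'Q, hx'⟩ := exists_notMem_of_lt h1
  obtain ⟨x, hxQ, hx⟩ := exists_notMem_of_lt (countable_lt (hc x') hcard.ge)
  refine ⟨x, hQ1 hxQ, x', hx'Q, ?_, hx, ?_⟩
  · rintro rfl
    exact hx' (Or.inl hxQ)
  · intro hh
    exact hx' (Or.inr (Set.mem_biUnion hxQ hh))

theorem card_le (c : B → B → N) (R : B → B → B → Prop) (hax : Ax c R)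
    (hfin : ∀ x y, {z | R x y z}.Finite) : #B ≤ max #N ℵ₁ := by
  by_contra hn
  have hlt : max #N ℵ₁ < #B := not_le.mp hn
  obtain ⟨L, hL⟩ := le_mk_iff_exists_set.mp ((le_max_right _ _).trans hlt.le)
  have hLinf : L.Infinite := by
    rw [← Set.infinite_coe_iff, Cardinal.infinite_iff, hL]
    exact aleph0_lt_aleph_one.le
  let u : ℕ → B := fun k => (hLinf.natEmbedding L k : B)
  have huL : ∀ k, u k ∈ L := fun k => (hLinf.natEmbedding L k).2
  have huinj : Function.Injective u :=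
    Subtype.val_injective.comp (hLinf.natEmbedding L).injective
  let F : B → B → Set B := fun x y => {z | R x y z} ∪ {z | R y x z}
  have hF : ∀ x y, (F x y).Finite := fun x y => (hfin x y).union (hfin y x)
  have hdep : ∀ x y z, Dep R x y z → z ∈ F x y ∨ y ∈ F x z ∨ x ∈ F y z := by
    intro x y z h
    rcases h with h | h | h | h | h | h
    · exact Or.inl (Or.inl h)
    · exact Or.inl (Or.inr h)
    · exact Or.inr (Or.inl (Or.inl h))
    · exact Or.inr (Or.inl (Or.inr h))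
    · exact Or.inr (Or.inr (Or.inl h))
    · exact Or.inr (Or.inr (Or.inr h))
  let L' : Set B := L ∪ ⋃ y ∈ L, ⋃ z ∈ L, F y z
  have hL' : #L' ≤ ℵ₁ := by
    refine (mk_union_le _ _).trans (add_le_of_le aleph0_lt_aleph_one.le hL.le ?_)
    refine biUnion_le hL.le _ fun y => biUnion_le hL.le _ fun z => ?_
    exact ((hF y z).lt_aleph0.le).trans aleph0_lt_aleph_one.le
  have hrho : ∀ x : B, ∃ r : N, x ∉ L' → {k | c (u k) x ≠ r}.Finite := by
    intro x
    have hc : (Set.range u ∪ ⋃ k, F x (u k)).Countable :=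
      (Set.countable_range u).union (Set.countable_iUnion fun k => (hF _ _).countable)
    obtain ⟨z, hzL, hz⟩ := exists_notMem_of_lt (countable_lt hc hL.ge)
    refine ⟨c z x, fun hx => ?_⟩
    refine ((hF x z).preimage huinj.injOn).subset ?_
    intro k hk
    have h1 : x ≠ u k := by
      rintro rfl
      exact hx (Or.inl (huL k))
    have h2 : x ≠ z := by
      rintro rfl
      exact hx (Or.inl hzL)
    have h3 : u k ≠ z := by
      rintro rfl
      exact hz (Or.inl ⟨k, rfl⟩)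
    rcases hdep _ _ _ (hax x (u k) z h1 h2 h3 (Or.inl hk)) with h | h | h
    · exact absurd (Or.inr (Set.mem_iUnion.mpr ⟨k, h⟩)) hz
    · exact h
    · exact absurd (Or.inr (Set.mem_biUnion (huL k) (Set.mem_biUnion hzL h))) hx
  choose rho hrho using hrho
  have hfib : ∃ r : N, ℵ₁ < #(rho ⁻¹' {r} \ L' : Set B) := by
    by_contra hno
    push Not at hno
    have : #B ≤ #N * ℵ₁ := by
      refine mk_le_mk_mul_of_mk_preimage_le rho fun r => ?_
      refine (mk_le_mk_of_subset (Set.subset_sdiff_union _ L')).trans ?_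
      exact (mk_union_le _ _).trans (add_le_of_le aleph0_lt_aleph_one.le (hno r) hL')
    refine hn (this.trans ?_)
    exact mul_le_of_le (aleph0_lt_aleph_one.le.trans (le_max_right _ _)) (le_max_left _ _)
      (le_max_right _ _)
  obtain ⟨r, hr⟩ := hfib
  obtain ⟨x, hx, x', hx', hne, h1, h2⟩ := free_pair hr (fun x => ⋃ k, F (u k) x)
    fun x => Set.countable_iUnion fun k => (hF _ _).countable
  have hfin3 : ({k | c (u k) x ≠ rho x} ∪ {k | c (u k) x' ≠ rho x'} ∪ u ⁻¹' F x x').Finite :=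
    ((hrho x hx.2).union (hrho x' hx'.2)).union ((hF x x').preimage huinj.injOn)
  obtain ⟨k, hk⟩ := hfin3.exists_notMem
  simp only [Set.mem_union, Set.mem_ofPred_eq, not_or, not_not, Set.mem_preimage] at hk
  have e1 : rho x = r := hx.1
  have e2 : rho x' = r := hx'.1
  have n1 : u k ≠ x := by
    rintro h
    exact hx.2 (Or.inl (h ▸ huL k))
  have n2 : u k ≠ x' := by
    rintro h
    exact hx'.2 (Or.inl (h ▸ huL k))
  rcases hdep _ _ _ (hax (u k) x x' n1 n2 hne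
    (Or.inr (by rw [hk.1.1, hk.1.2, e1, e2]))) with h | h | h
  · exact h2 (Set.mem_iUnion.mpr ⟨k, h⟩)
  · exact h1 (Set.mem_iUnion.mpr ⟨k, h⟩)
  · exact hk.2 h

theorem Good.fin {S : Sys N P B} (h : Good S) (x y : B) : {z | S.R x y z}.Finite := by
  obtain ⟨t, ht, hs, hcl⟩ := h.loc {x, y} (Set.toFinite _)
  exact ht.subset fun z hz => hcl x (hs (by simp)) y (hs (by simp)) z hz

theorem Good.card_le {S : Sys N P B} (h : Good S) : #B ≤ max #N ℵ₁ :=
  MP_032f6a_lc.card_le S.c S.R h.ax h.fin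

theorem Good.surj [Nonempty N] {S : Sys N P B} (h : Good S) : Function.Surjective S.p := by
  intro q
  obtain ⟨r⟩ := ‹Nonempty N›
  obtain ⟨e, -, he⟩ := h.ext 1 ∅ ⟨fun _ _ => r, fun _ => q, fun _ _ _ => False⟩
    (fun i => i.2.elim) (fun x y _ hxy => absurd (Subsingleton.elim x y) hxy)
    (fun _ hx => hx.elim)
    ⟨fun i => i.2.elim, fun _ ⟨i, _⟩ => i.2.elim, fun i => i.2.elim, fun i => i.2.elim,
      fun i => i.2.elim⟩
  exact ⟨e 0, he.p 0⟩

/-! ### Uniqueness of countable good systems over fixed colours -/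

structure PI (S : Sys N P B) (S' : Sys N P B') (s : Set (B × B')) : Prop where
  fin : s.Finite
  inj : ∀ p ∈ s, ∀ q ∈ s, p.1 = q.1 ↔ p.2 = q.2
  c : ∀ p ∈ s, ∀ q ∈ s, S'.c p.2 q.2 = S.c p.1 q.1
  p : ∀ p ∈ s, S'.p p.2 = S.p p.1
  R : ∀ p ∈ s, ∀ q ∈ s, ∀ r ∈ s, S'.R p.2 q.2 r.2 ↔ S.R p.1 q.1 r.1
  cl1 : Cl S.R (Prod.fst '' s)
  cl2 : Cl S'.R (Prod.snd '' s)

theorem Ax.comap {I : Type} {S : Sys N P B} (h : Ax S.c S.R) {e : I → B}
    (he : Function.Injective e) : Ax (S.comap e).c (S.comap e).R :=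
  fun x y z h1 h2 h3 h4 => h (e x) (e y) (e z) (he.ne h1) (he.ne h2) (he.ne h3) h4

theorem PI.swap {S : Sys N P B} {S' : Sys N P B'} {s : Set (B × B')} (h : PI S S' s) :
    PI S' S (Prod.swap '' s) where
  fin := h.fin.image _
  inj := by
    rintro _ ⟨p, hp, rfl⟩ _ ⟨q, hq, rfl⟩
    exact (h.inj p hp q hq).symm
  c := by
    rintro _ ⟨p, hp, rfl⟩ _ ⟨q, hq, rfl⟩
    exact (h.c p hp q hq).symm
  p := by
    rintro _ ⟨p, hp, rfl⟩
    exact (h.p p hp).symm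
  R := by
    rintro _ ⟨p, hp, rfl⟩ _ ⟨q, hq, rfl⟩ _ ⟨r, hr, rfl⟩
    exact (h.R p hp q hq r hr).symm
  cl1 := by
    rw [Set.image_image]
    exact h.cl2
  cl2 := by
    rw [Set.image_image]
    exact h.cl1

theorem PI.forth {S : Sys N P B} {S' : Sys N P B'} (hS : Good S) (hS' : Good S')
    {s : Set (B × B')} (h : PI S S' s) (b : B) :
    ∃ t, PI S S' t ∧ s ⊆ t ∧ b ∈ Prod.fst '' t := by
  obtain ⟨C, hC, hsub, hcl⟩ := hS.loc (insert b (Prod.fst '' s)) ((h.fin.image _).insert b)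
  obtain ⟨n, x, hx, hrange⟩ := hC.fin_param
  let O : Set (Fin n) := {i | x i ∈ Prod.fst '' s}
  have ha : ∀ i : O, ∃ y, (x i, y) ∈ s := by
    rintro ⟨i, ⟨p, hp, hi⟩⟩
    exact ⟨p.2, by simpa [← hi] using hp⟩
  choose a ha using ha
  have hidx : ∀ p ∈ s, ∃ i : O, x i = p.1 ∧ a i = p.2 := by
    intro p hp
    have : p.1 ∈ Set.range x := hrange ▸ hsub (Or.inr ⟨p, hp, rfl⟩)
    obtain ⟨i, hi⟩ := this
    have hiO : i ∈ O := ⟨p, hp, hi.symm⟩
    exact ⟨⟨i, hiO⟩, hi, (h.inj _ (ha ⟨i, hiO⟩) p hp).mp hi⟩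
  have hra : Set.range a = Prod.snd '' s := by
    ext y
    constructor
    · rintro ⟨i, rfl⟩
      exact ⟨_, ha i, rfl⟩
    · rintro ⟨p, hp, rfl⟩
      obtain ⟨i, -, hi⟩ := hidx p hp
      exact ⟨i, hi⟩
  obtain ⟨e, hea, he⟩ := hS'.ext n O (S.comap x) a (hS.ax.comap hx)
    (fun i hi j hj l hl => h.cl1 _ hi _ hj _ hl)
    ⟨fun i j hij => Subtype.ext (hx ((h.inj _ (ha i) _ (ha j)).mpr hij)), hra ▸ h.cl2,
      fun i j => h.c _ (ha i) _ (ha j), fun i => h.p _ (ha i),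
      fun i j l => h.R _ (ha i) _ (ha j) _ (ha l)⟩
  refine ⟨Set.range fun i => (x i, e i), ⟨Set.finite_range _, ?_, ?_, ?_, ?_, ?_, ?_⟩, ?_, ?_⟩
  · rintro _ ⟨i, rfl⟩ _ ⟨j, rfl⟩
    exact hx.eq_iff.trans he.inj.eq_iff.symm
  · rintro _ ⟨i, rfl⟩ _ ⟨j, rfl⟩
    exact he.c i j
  · rintro _ ⟨i, rfl⟩
    exact he.p i
  · rintro _ ⟨i, rfl⟩ _ ⟨j, rfl⟩ _ ⟨l, rfl⟩
    exact he.R i j l
  · rw [← Set.range_comp]
    exact hrange.symm ▸ hcl
  · rw [← Set.range_comp]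
    exact he.cl
  · intro p hp
    obtain ⟨i, h1, h2⟩ := hidx p hp
    exact ⟨i, Prod.ext h1 ((hea i).trans h2)⟩
  · have : b ∈ Set.range x := hrange ▸ hsub (Or.inl rfl)
    obtain ⟨i, hi⟩ := this
    exact ⟨_, ⟨i, rfl⟩, hi⟩

theorem PI.back {S : Sys N P B} {S' : Sys N P B'} (hS : Good S) (hS' : Good S')
    {s : Set (B × B')} (h : PI S S' s) (b : B') :
    ∃ t, PI S S' t ∧ s ⊆ t ∧ b ∈ Prod.snd '' t := by
  obtain ⟨t, ht, hsub, hb⟩ := h.swap.forth hS' hS b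
  refine ⟨Prod.swap '' t, ht.swap, fun p hp => ⟨p.swap, hsub ⟨p, hp, rfl⟩, rfl⟩, ?_⟩
  rw [Set.image_image]
  exact hb

theorem unique [Countable B] [Countable B'] {S : Sys N P B} {S' : Sys N P B'} (hS : Good S)
    (hS' : Good S') : ∃ g : B ≃ B', (∀ x y, S'.c (g x) (g y) = S.c x y) ∧
      (∀ x, S'.p (g x) = S.p x) ∧ ∀ x y z, S'.R (g x) (g y) (g z) ↔ S.R x y z := by
  obtain ⟨en, hen⟩ := exists_surjective_nat (Option (B ⊕ B'))
  have step : ∀ (k : ℕ) (s : {s // PI S S' s}), ∃ t : {s // PI S S' s}, s.1 ⊆ t.1 ∧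
      (∀ b, en k = some (Sum.inl b) → b ∈ Prod.fst '' t.1) ∧
      (∀ b, en k = some (Sum.inr b) → b ∈ Prod.snd '' t.1) := by
    intro k s
    rcases hk : en k with _ | b | b
    · exact ⟨s, subset_rfl, by simp, by simp⟩
    · obtain ⟨t, ht, h1, h2⟩ := s.2.forth hS hS' b
      exact ⟨⟨t, ht⟩, h1, by rintro _ ⟨⟩; exact h2, by simp⟩
    · obtain ⟨t, ht, h1, h2⟩ := s.2.back hS hS' b
      exact ⟨⟨t, ht⟩, h1, by simp, by rintro _ ⟨⟩; exact h2⟩
  choose f hf1 hf2 hf3 using step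
  have h0 : PI S S' ∅ := ⟨Set.finite_empty, by simp, by simp, by simp, by simp,
    by simp [Cl], by simp [Cl]⟩
  let q : ℕ → {s // PI S S' s} := fun k => Nat.rec ⟨∅, h0⟩ f k
  have hmono : Monotone fun k => (q k).1 := monotone_nat_of_le_succ fun k => hf1 k (q k)
  let u : Set (B × B') := ⋃ k, (q k).1
  have h3 : ∀ p ∈ u, ∀ r ∈ u, ∀ t ∈ u, ∃ k, p ∈ (q k).1 ∧ r ∈ (q k).1 ∧ t ∈ (q k).1 := by
    intro p hp r hr t ht
    obtain ⟨i, hi⟩ := Set.mem_iUnion.mp hp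
    obtain ⟨j, hj⟩ := Set.mem_iUnion.mp hr
    obtain ⟨l, hl⟩ := Set.mem_iUnion.mp ht
    exact ⟨max i (max j l), hmono (le_max_left _ _) hi,
      hmono ((le_max_left _ _).trans (le_max_right _ _)) hj,
      hmono ((le_max_right _ _).trans (le_max_right _ _)) hl⟩
  have hinj : ∀ p ∈ u, ∀ r ∈ u, p.1 = r.1 ↔ p.2 = r.2 := by
    intro p hp r hr
    obtain ⟨k, h1, h2, -⟩ := h3 p hp r hr r hr
    exact (q k).2.inj p h1 r h2
  have hg : ∀ b, ∃ b', (b, b') ∈ u := by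
    intro b
    obtain ⟨k, hk⟩ := hen (some (Sum.inl b))
    obtain ⟨p, hp, rfl⟩ := hf2 k (q k) b hk
    exact ⟨p.2, Set.mem_iUnion.mpr ⟨k + 1, hp⟩⟩
  choose g hg using hg
  have hbij : Function.Bijective g := by
    refine ⟨fun x y hxy => (hinj _ (hg x) _ (hg y)).mpr hxy, fun b' => ?_⟩
    obtain ⟨k, hk⟩ := hen (some (Sum.inr b'))
    obtain ⟨p, hp, rfl⟩ := hf3 k (q k) b' hk
    exact ⟨p.1, (hinj _ (hg p.1) p (Set.mem_iUnion.mpr ⟨k + 1, hp⟩)).mp rfl⟩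
  refine ⟨Equiv.ofBijective g hbij, fun x y => ?_, fun x => ?_, fun x y z => ?_⟩
  · obtain ⟨k, h1, h2, -⟩ := h3 _ (hg x) _ (hg y) _ (hg y)
    exact (q k).2.c _ h1 _ h2
  · obtain ⟨k, h1, -, -⟩ := h3 _ (hg x) _ (hg x) _ (hg x)
    exact (q k).2.p _ h1
  · obtain ⟨k, h1, h2, h4⟩ := h3 _ (hg x) _ (hg y) _ (hg z)
    exact (q k).2.R _ h1 _ h2 _ h4

/-- Transport along bijections of the colour sets. -/
def Sys.map {N' P' : Type} (S : Sys N P B) (f : N → N') (σ : P → P') : Sys N' P' B :=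
  ⟨fun x y => f (S.c x y), fun x => σ (S.p x), S.R⟩

theorem Ax.map {I N' : Type} {c : I → I → N} {R : I → I → I → Prop} (h : Ax c R) {f : N → N'}
    (hf : Function.Injective f) : Ax (fun x y => f (c x y)) R := by
  intro x y z h1 h2 h3 h4
  exact h x y z h1 h2 h3 (h4.imp (fun h5 h6 => h5 (congrArg f h6)) fun h5 => hf h5)

theorem Good.map {N' P' : Type} {S : Sys N P B} (h : Good S) (f : N ≃ N') (σ : P ≃ P') :
    Good (S.map f σ) where
  ax := h.ax.map f.injective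
  loc := h.loc
  ext := by
    intro n O D a hD hO ha
    obtain ⟨e, h1, h2⟩ := h.ext n O (D.map f.symm σ.symm) a (hD.map f.symm.injective) hO
      ⟨ha.inj, ha.cl, fun i j => f.eq_symm_apply.mpr (ha.c i j),
        fun i => σ.eq_symm_apply.mpr (ha.p i), ha.R⟩
    exact ⟨e, h1, h2.inj, h2.cl, fun i j => f.eq_symm_apply.mp (h2.c i j),
      fun i => σ.eq_symm_apply.mp (h2.p i), h2.R⟩

theorem unique_over {N' P' : Type} [Countable B] [Countable B'] {S : Sys N P B}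
    {S' : Sys N' P' B'} (hS : Good S) (hS' : Good S') (f : N ≃ N') (σ : P ≃ P') :
    ∃ g : B ≃ B', (∀ x y, S'.c (g x) (g y) = f (S.c x y)) ∧
      (∀ x, S'.p (g x) = σ (S.p x)) ∧ ∀ x y z, S'.R (g x) (g y) (g z) ↔ S.R x y z :=
  unique (hS.map f σ) hS'

end Pool.Agent.P.MP_032f6a_lc
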