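import Pool.Agent.P.MP_032f6a_lc.LogicPres
import Pool.Agent.P.MP_032f6a_lc.SysExist
import Pool.Agent.P.MP_032f6a_lc.Gadget

/-!
Towers: a colour sort, a generic bipartite colouring, and dense linear orders; agreement sets and
initial segments are bounded by coloured systems.
-/

set_option autoImplicit false

open Cardinal

namespace Pool.Agent.P.MP_032f6a_lc.Uf

structure Tw (I M : Type) where
  O : Option (Option I) → M → Prop
  U : M → Prop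
  lt : M → M → Prop
  R : M → M → M → Prop
  col : M → M → M
  c : M → M → M
  p : M → M
  q : M → M
  r : M → M

variable {I M M' : Type} [LinearOrder I]

def Tw.X (T : Tw I M) (x : M) : Prop := T.O (some none) x ∧ T.U x

def Tw.Z (T : Tw I M) (x : M) : Prop := T.O (some none) x ∧ ¬ T.U x

def Tw.Bq (T : Tw I M) (u v x : M) : Prop := T.q x = u ∧ T.r x = v ∧ ¬ T.q x = x

def Tw.Col (T : Tw I M) (i : I) (x : M) : Prop :=
  T.O none x ∨ T.X x ∨ ∃ k, k < i ∧ T.O (some (some k)) x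

def Tw.Key (T : Tw I M) (u v : M) : Prop :=
  (u = v ∧ (T.X u ∨ ∃ i, T.O (some (some i)) u)) ∨ (T.Z u ∧ T.Z v)

def Tw.Cs (T : Tw I M) (u v w : M) : Prop :=
  (∃ i, T.O (some (some i)) u ∧ T.Col i w) ∨ (T.X u ∧ T.X w) ∨
    (T.Z u ∧ ((u = v ∧ T.Z w) ∨ (¬ u = v ∧ T.O none w)))

def Tw.Ps (T : Tw I M) (u v w : M) : Prop :=
  T.lt w u ∨ (T.X u ∧ T.Z w) ∨ (T.Z u ∧ T.X w ∧ T.col w u = T.col w v)

def Tw.Rb (T : Tw I M) (u v x y z : M) : Prop := T.R x y z ∧ T.Bq u v z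

/-- The axioms on the base sorts. -/
structure Tw.Base (T : Tw I M) : Prop where
  disj : ∀ i j x, T.O i x → T.O j x → i = j
  UO : ∀ x, T.U x → T.O (some none) x
  inf : ∀ n : ℕ, ∃ v : Fin n → M, (∀ i j, v i = v j → i = j) ∧ ∀ i, T.O none (v i)
  ne : ∀ i, ∃ x, T.O (some (some i)) x
  ltO : ∀ x y, T.lt x y → ∃ i, T.O (some (some i)) x ∧ T.O (some (some i)) y
  irr : ∀ x, ¬ T.lt x x
  tr : ∀ x y z, T.lt x y → T.lt y z → T.lt x z
  tot : ∀ i x y, T.O (some (some i)) x → T.O (some (some i)) y → T.lt x y ∨ x = y ∨ T.lt y x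
  dense : ∀ x y, T.lt x y → ∃ z, T.lt x z ∧ T.lt z y
  nom : ∀ i x, T.O (some (some i)) x → (∃ y, T.lt x y) ∧ ∃ y, T.lt y x
  colN : ∀ x z, T.X x → T.Z z → T.O none (T.col x z)
  colO : ∀ x z, ¬ (T.X x ∧ T.Z z) → T.col x z = x
  t1 : ∀ (n : ℕ) (a cs : Fin n → M), (∀ i, T.O none (cs i)) → (∀ i j, a i = a j → i = j) →
    ∃ x, T.X x ∧ ∀ i, ¬ x = a i ∧ (T.Z (a i) → T.col x (a i) = cs i)
  t2 : ∀ (n : ℕ) (a cs : Fin n → M), (∀ i, T.O none (cs i)) → (∀ i j, a i = a j → i = j) →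
    ∃ z, T.Z z ∧ ∀ i, ¬ z = a i ∧ (T.X (a i) → T.col (a i) z = cs i)

structure Tw.Ok (T : Tw I M) : Prop extends T.Base where
  fix : ∀ x, T.q x = x ↔ ∃ j, T.O j x
  qK : ∀ x, ¬ T.q x = x → T.Key (T.q x) (T.r x)
  rO : ∀ x, T.q x = x → T.r x = x
  cB : ∀ u v x y, T.Bq u v x → T.Bq u v y → T.Cs u v (T.c x y)
  cO : ∀ x y, ¬ (∃ u v, T.Bq u v x ∧ T.Bq u v y) → T.c x y = x
  pB : ∀ u v x, T.Bq u v x → T.Ps u v (T.p x)
  pO : ∀ x, T.q x = x → T.p x = x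
  RO : ∀ x y z, T.R x y z → ∃ u v, T.Bq u v x ∧ T.Bq u v y ∧ T.Bq u v z
  good : ∀ u v, T.Key u v → AxM (T.Bq u v) T.c (T.Rb u v) ∧ LocM (T.Bq u v) (T.Rb u v) ∧
    ExtM (T.Cs u v) (T.Ps u v) (T.Bq u v) T.c T.p (T.Rb u v)

def KK (T : Tw I M) (T' : Tw I M') (E : M → M' → Prop)
    (p q : {x // T.O (some none) x} × {x // T'.O (some none) x}) : Prop :=
  (p.1 = q.1 ↔ p.2 = q.2) ∧ (T.U p.1.1 ↔ T'.U p.2.1) ∧ (T.U q.1.1 ↔ T'.U q.2.1) ∧
    (T.U p.1.1 → ¬ T.U q.1.1 → E (T.col p.1.1 q.1.1) (T'.col p.2.1 q.2.1))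

omit [LinearOrder I] in
theorem KK.swap {T : Tw I M} {T' : Tw I M'} {E : M → M' → Prop} {p q} (h : KK T T' E p q) :
    KK T' T (fun a b => E b a) p.swap q.swap :=
  ⟨h.1.symm, h.2.1.symm, h.2.2.1.symm, fun a b => h.2.2.2 (h.2.1.2 a) fun c => b (h.2.2.1.1 c)⟩

namespace Tw.Base

variable {T : Tw I M} {T' : Tw I M'}

omit [LinearOrder I]

theorem infinite (h : T.Base) : Infinite {x // T.O none x} := by
  refine not_finite_iff_infinite.mp fun hfin => ?_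
  obtain ⟨v, h1, h2⟩ := h.inf (Nat.card {x // T.O none x} + 1)
  have := Nat.card_le_card_of_injective (fun i => (⟨v i, h2 i⟩ : {x // T.O none x}))
    fun i j e => h1 i j (congrArg Subtype.val e)
  simp at this

@[reducible] noncomputable def lo (h : T.Base) (i : I) :
    LinearOrder {x // T.O (some (some i)) x} :=
  haveI : IsStrictTotalOrder {x // T.O (some (some i)) x} fun x y => T.lt x.1 y.1 :=
    { irrefl := fun x => h.irr x.1
      trans := fun x y z => h.tr x.1 y.1 z.1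
      trichotomous := fun x y a b => by
        rcases h.tot i _ _ x.2 y.2 with e | e | e
        exacts [absurd e a, Subtype.ext e, absurd e b] }
  open Classical in linearOrderOfSTO fun x y => T.lt x.1 y.1

theorem ltL (h : T.Base) {i : I} {x y : M} (hy : T.O (some (some i)) y) (e : T.lt x y) :
    T.O (some (some i)) x := by
  obtain ⟨k, a, b⟩ := h.ltO _ _ e
  exact h.disj _ _ _ b hy ▸ a

theorem ltR (h : T.Base) {i : I} {x y : M} (hx : T.O (some (some i)) x) (e : T.lt x y) :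
    T.O (some (some i)) y := by
  obtain ⟨k, a, b⟩ := h.ltO _ _ e
  exact h.disj _ _ _ a hx ▸ b

theorem ord_iso [Countable M] [Countable M'] (h : T.Base) (h' : T'.Base) (i : I) :
    ∃ e : {x // T.O (some (some i)) x} ≃ {x // T'.O (some (some i)) x},
      ∀ x y, T'.lt (e x).1 (e y).1 ↔ T.lt x.1 y.1 := by
  have key : ∀ {M : Type} {T : Tw I M} (h : T.Base), letI := h.lo i
      DenselyOrdered {x // T.O (some (some i)) x} ∧ NoMinOrder {x // T.O (some (some i)) x} ∧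
        NoMaxOrder {x // T.O (some (some i)) x} ∧ Nonempty {x // T.O (some (some i)) x} := by
    intro M T h
    let _ := h.lo i
    refine ⟨⟨fun x y e => ?_⟩, ⟨fun x => ?_⟩, ⟨fun x => ?_⟩, ?_⟩
    · obtain ⟨z, a, b⟩ := h.dense _ _ e
      exact ⟨⟨z, h.ltR x.2 a⟩, a, b⟩
    · obtain ⟨z, a⟩ := (h.nom i _ x.2).2
      exact ⟨⟨z, h.ltL x.2 a⟩, a⟩
    · obtain ⟨z, a⟩ := (h.nom i _ x.2).1
      exact ⟨⟨z, h.ltR x.2 a⟩, a⟩
    · exact (h.ne i).elim fun x hx => ⟨⟨x, hx⟩⟩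
  let _ := h.lo i
  let _ := h'.lo i
  obtain ⟨a1, a2, a3, a4⟩ := key h
  obtain ⟨b1, b2, b3, b4⟩ := key h'
  obtain ⟨e⟩ := Order.iso_of_countable_dense {x // T.O (some (some i)) x}
    {x // T'.O (some (some i)) x}
  exact ⟨e.toEquiv, fun x y => e.lt_iff_lt⟩

theorem forth (h : T.Base) (h' : T'.Base) {E : M → M' → Prop}
    (hE : ∀ n, T.O none n → ∃ n', T'.O none n' ∧ E n n')
    (s : Set ({x // T.O (some none) x} × {x // T'.O (some none) x})) (hs : s.Finite)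
    (hK : ∀ p ∈ s, ∀ q ∈ s, KK T T' E p q) (a : {x // T.O (some none) x}) :
    ∃ a', ∀ p ∈ insert (a, a') s, ∀ q ∈ insert (a, a') s, KK T T' E p q := by
  by_cases ha : ∃ a', (a, a') ∈ s
  · obtain ⟨a', ha⟩ := ha
    exact ⟨a', by rwa [Set.insert_eq_of_mem ha]⟩
  obtain ⟨n, x, hx, rfl⟩ := hs.fin_param
  have k : ∀ i j, KK T T' E (x i) (x j) := fun i j => hK _ ⟨i, rfl⟩ _ ⟨j, rfl⟩
  have inj : ∀ i j, (x i).2.1 = (x j).2.1 → i = j := fun i j e =>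
    hx (Prod.ext ((k i j).1.2 (Subtype.ext e)) (Subtype.ext e))
  have na : ∀ i, ¬ a = (x i).1 := fun i e => ha ⟨(x i).2, i, Prod.ext e.symm rfl⟩
  have i2 := h'.infinite
  obtain ⟨d, hd⟩ := Classical.arbitrary {x // T'.O none x}
  by_cases hU : T.U a.1
  · have : ∀ i, ∃ c, T'.O none c ∧ (¬ T.U (x i).1.1 → E (T.col a.1 (x i).1.1) c) := by
      intro i
      by_cases g : T.U (x i).1.1
      · exact ⟨d, hd, fun e => absurd g e⟩
      · obtain ⟨c, c1, c2⟩ := hE _ (h.colN _ _ ⟨a.2, hU⟩ ⟨(x i).1.2, g⟩)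
        exact ⟨c, c1, fun _ => c2⟩
    choose cs c1 c2 using this
    obtain ⟨y, y1, y2⟩ := h'.t1 n _ cs c1 inj
    refine ⟨⟨y, y1.1⟩, ?_⟩
    rintro _ (rfl | ⟨i, rfl⟩) _ (rfl | ⟨j, rfl⟩)
    · exact ⟨iff_of_true rfl rfl, iff_of_true hU y1.2, iff_of_true hU y1.2, fun _ b => absurd hU b⟩
    · refine ⟨iff_of_false (na j) fun e => (y2 j).1 (congrArg Subtype.val e), iff_of_true hU y1.2,
        (k j j).2.1, fun _ b => ?_⟩
      exact ((y2 j).2 ⟨(x j).2.2, fun e => b ((k j j).2.1.2 e)⟩).symm ▸ c2 j b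
    · exact ⟨iff_of_false (fun e => na i e.symm) fun e => (y2 i).1 (congrArg Subtype.val e).symm,
        (k i i).2.1, iff_of_true hU y1.2, fun _ b => absurd hU b⟩
    · exact k i j
  · have : ∀ i, ∃ c, T'.O none c ∧ (T.U (x i).1.1 → E (T.col (x i).1.1 a.1) c) := by
      intro i
      by_cases g : T.U (x i).1.1
      · obtain ⟨c, c1, c2⟩ := hE _ (h.colN _ _ ⟨(x i).1.2, g⟩ ⟨a.2, hU⟩)
        exact ⟨c, c1, fun _ => c2⟩
      · exact ⟨d, hd, fun e => absurd e g⟩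
    choose cs c1 c2 using this
    obtain ⟨y, y1, y2⟩ := h'.t2 n _ cs c1 inj
    refine ⟨⟨y, y1.1⟩, ?_⟩
    rintro _ (rfl | ⟨i, rfl⟩) _ (rfl | ⟨j, rfl⟩)
    · exact ⟨iff_of_true rfl rfl, iff_of_false hU y1.2, iff_of_false hU y1.2, fun b => absurd b hU⟩
    · exact ⟨iff_of_false (na j) fun e => (y2 j).1 (congrArg Subtype.val e), iff_of_false hU y1.2,
        (k j j).2.1, fun b => absurd b hU⟩
    · refine ⟨iff_of_false (fun e => na i e.symm) fun e => (y2 i).1 (congrArg Subtype.val e).symm,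
        (k i i).2.1, iff_of_false hU y1.2, fun b _ => ?_⟩
      exact ((y2 i).2 ⟨(x i).2.2, (k i i).2.1.1 b⟩).symm ▸ c2 i b
    · exact k i j

theorem gad_iso [Countable M] [Countable M'] (h : T.Base) (h' : T'.Base)
    (σ : {x // T.O none x} ≃ {x // T'.O none x}) :
    ∃ e : {x // T.O (some none) x} ≃ {x // T'.O (some none) x}, (∀ x, T'.U (e x).1 ↔ T.U x.1) ∧
      ∀ x y, T.U x.1 → ¬ T.U y.1 → ∃ g, (σ ⟨T.col x.1 y.1, g⟩).1 = T'.col (e x).1 (e y).1 := by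
  obtain ⟨e, he⟩ := baf (KK T T' fun n n' => ∃ g, (σ ⟨n, g⟩).1 = n') (fun _ _ k => k.1)
    (h.forth h' fun n g => ⟨_, (σ ⟨n, g⟩).2, g, rfl⟩) fun s hs hK a' => by
      obtain ⟨a, ha⟩ := h'.forth h (E := fun n' n => ∃ g, (σ ⟨n, g⟩).1 = n')
        (fun n g => ⟨_, (σ.symm ⟨n, g⟩).2, (σ.symm ⟨n, g⟩).2, by simp⟩) (Prod.swap '' s) (hs.image _)
        (by rintro _ ⟨p, hp, rfl⟩ _ ⟨q, hq, rfl⟩; exact (hK p hp q hq).swap) a'
      have m : ∀ p ∈ insert (a, a') s, p.swap ∈ insert (a', a) (Prod.swap '' s) := by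
        rintro p (rfl | hp)
        exacts [Or.inl rfl, Or.inr ⟨p, hp, rfl⟩]
      exact ⟨a, fun p hp q hq => (ha _ (m p hp) _ (m q hq)).swap⟩
  exact ⟨e, fun x => (he x x).2.1.symm, fun x y => (he x y).2.2.2⟩

theorem Ps_O (h : T.Base) {u v w : M} (e : T.Ps u v w) : ∃ j, T.O j w := by
  rcases e with e | e | e
  · obtain ⟨i, a, -⟩ := h.ltO _ _ e
    exact ⟨_, a⟩
  · exact ⟨_, e.2.1⟩
  · exact ⟨_, e.2.1.1⟩

theorem Key_O {u v : M} (e : T.Key u v) : (∃ j, T.O j u) ∧ ∃ j, T.O j v := by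
  rcases e with ⟨rfl, e | ⟨i, e⟩⟩ | e
  exacts [⟨⟨_, e.1⟩, _, e.1⟩, ⟨⟨_, e⟩, _, e⟩, ⟨⟨_, e.1.1⟩, _, e.2.1⟩]

end Tw.Base

theorem glue {X X' A A' : Type} (q : X → A) (q' : X' → A') (G : A ≃ A')
    (e : ∀ a, {x // q x = a} ≃ {x // q' x = G a}) :
    ∃ H : X ≃ X', ∀ a (x : {x // q x = a}), H x.1 = (e a x).1 :=
  ⟨(Equiv.sigmaFiberEquiv q).symm.trans ((G.sigmaCongr e).trans (Equiv.sigmaFiberEquiv q')),
    by rintro _ ⟨x, rfl⟩; rfl⟩

/-- Gluing along two families of pairwise disjoint predicates. -/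
theorem glue' {A : Type} (P : A → M → Prop) (P' : A → M' → Prop)
    (h : ∀ x, ∃! a, P a x) (h' : ∀ x, ∃! a, P' a x)
    (e : ∀ a, {x // P a x} ≃ {x // P' a x}) :
    ∃ H : M ≃ M', ∀ a (x : {x // P a x}), H x.1 = (e a x).1 := by
  choose f f1 f2 using h
  choose g g1 g2 using h'
  obtain ⟨H, hH⟩ := glue f g (Equiv.refl A) fun a =>
    (Equiv.subtypeEquivRight fun x => ⟨fun e => e ▸ f1 x, fun e => (f2 x a e).symm⟩).trans
      ((e a).trans (Equiv.subtypeEquivRight fun x => ⟨fun e => (g2 x a e).symm, fun (e : g x = a) => e ▸ g1 x⟩))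
  exact ⟨H, fun a x => hH a ⟨x.1, (f2 _ a x.2).symm⟩⟩

theorem patch {J : Type} [Nonempty M'] (O : J → M → Prop) (d : ∀ i j x, O i x → O j x → i = j)
    (t : ∀ j, {x // O j x} → M') : ∃ g : M → M', ∀ j x (hx : O j x), g x = t j ⟨x, hx⟩ := by
  classical
  refine ⟨fun x => if h : ∃ j, O j x then t h.choose ⟨x, h.choose_spec⟩ else Classical.arbitrary _,
    fun j x hx => ?_⟩
  have h : ∃ j, O j x := ⟨j, hx⟩
  have k : ∀ i (hi : O i x), t i ⟨x, hi⟩ = t j ⟨x, hx⟩ := by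
    intro i hi
    obtain rfl := d _ _ _ hi hx
    rfl
  exact (dif_pos h).trans (k _ _)

namespace Tw.Ok

variable {T : Tw I M} {T' : Tw I M'}

theorem Cs_O {u v w : M} (e : T.Cs u v w) : ∃ j, T.O j w := by
  rcases e with ⟨i, -, e | e | ⟨k, -, e⟩⟩ | e | ⟨-, e | e⟩
  exacts [⟨_, e⟩, ⟨_, e.1⟩, ⟨_, e⟩, ⟨_, e.2.1⟩, ⟨_, e.2.1⟩, ⟨_, e.2⟩]

def sys (h : T.Ok) (u v : M) : Sys {x // T.Cs u v x} {x // T.Ps u v x} {x // T.Bq u v x} :=
  ⟨fun x y => ⟨T.c x.1 y.1, h.cB u v _ _ x.2 y.2⟩, fun x => ⟨T.p x.1, h.pB u v _ x.2⟩,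
    fun x y z => T.R x.1 y.1 z.1⟩

theorem sys_good (h : T.Ok) {u v : M} (hb : T.Key u v) : Good (h.sys u v) := by
  have hP : Pres (T.Cs u v) (T.Ps u v) (T.Bq u v) T.c T.p (T.Rb u v) (h.sys u v) Subtype.val
      Subtype.val Subtype.val :=
    ⟨Subtype.val_injective, Subtype.val_injective, Subtype.val_injective,
      fun x => ⟨fun hx => ⟨⟨x, hx⟩, rfl⟩, fun ⟨a, ha⟩ => ha ▸ a.2⟩,
      fun x => ⟨fun hx => ⟨⟨x, hx⟩, rfl⟩, fun ⟨a, ha⟩ => ha ▸ a.2⟩,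
      fun x => ⟨fun hx => ⟨⟨x, hx⟩, rfl⟩, fun ⟨a, ha⟩ => ha ▸ a.2⟩,
      fun _ _ => rfl, fun _ => rfl, fun _ _ z => and_iff_left z.2, fun _ _ _ hR => hR.2⟩
  exact hP.good_iff.mp (h.good u v hb)

theorem Bq_K (h : T.Ok) {u v x : M} (e : T.Bq u v x) : T.Key u v :=
  e.1 ▸ e.2.1 ▸ h.qK x e.2.2

theorem not_O (h : T.Ok) {u v x : M} (e : T.Bq u v x) (j : Option (Option I)) : ¬ T.O j x :=
  fun g => e.2.2 ((h.fix x).2 ⟨j, g⟩)

theorem iso [Countable M] [Countable M'] (h : T.Ok) (h' : T'.Ok)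
    (σ : {x // T.O none x} ≃ {x // T'.O none x}) :
    ∃ F : M ≃ M', (∀ x : {x // T.O none x}, F x.1 = (σ x).1) ∧
      (∀ j x, T'.O j (F x) ↔ T.O j x) ∧ (∀ x, T'.U (F x) ↔ T.U x) ∧
      (∀ x y, T'.lt (F x) (F y) ↔ T.lt x y) ∧
      (∀ x y z, T'.R (F x) (F y) (F z) ↔ T.R x y z) ∧
      (∀ x y, F (T.col x y) = T'.col (F x) (F y)) ∧ (∀ x y, F (T.c x y) = T'.c (F x) (F y)) ∧
      (∀ x, F (T.p x) = T'.p (F x)) ∧ (∀ x, F (T.q x) = T'.q (F x)) ∧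
      ∀ x, F (T.r x) = T'.r (F x) := by
  choose t ht using h.toBase.ord_iso h'.toBase
  obtain ⟨t0, t1, t2⟩ := h.toBase.gad_iso h'.toBase σ
  let τ : ∀ j, {x // T.O j x} ≃ {x // T'.O j x} := fun j => match j with
    | none => σ
    | some none => t0
    | some (some i) => t i
  have i1 := h.toBase.infinite
  have i2 := h'.toBase.infinite
  have n1 : Nonempty M := ⟨(Classical.arbitrary {x // T.O none x}).1⟩
  have n2 : Nonempty M' := ⟨(Classical.arbitrary {x // T'.O none x}).1⟩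
  obtain ⟨g, hg⟩ := patch T.O h.disj fun j x => (τ j x).1
  obtain ⟨g', hg'⟩ := patch T'.O h'.disj fun j x => ((τ j).symm x).1
  have gO : ∀ j x, T.O j x → T'.O j (g x) := fun j x hx => hg j x hx ▸ (τ j ⟨x, hx⟩).2
  have gO' : ∀ j x, T'.O j x → T.O j (g' x) := fun j x hx => hg' j x hx ▸ ((τ j).symm ⟨x, hx⟩).2
  have gg : ∀ x, (∃ j, T.O j x) → g' (g x) = x := fun x ⟨j, hx⟩ => by
    rw [hg j x hx, hg' j _ (τ j ⟨x, hx⟩).2]
    simp
  have gg' : ∀ x, (∃ j, T'.O j x) → g (g' x) = x := fun x ⟨j, hx⟩ => by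
    rw [hg' j x hx, hg j _ ((τ j).symm ⟨x, hx⟩).2]
    simp
  have pO : ∀ x, (∃ j, T.O j x) → ∀ j, T'.O j (g x) ↔ T.O j x := fun x ⟨k, hk⟩ j =>
    ⟨fun a => h'.disj _ _ _ (gO _ _ hk) a ▸ hk, gO _ _⟩
  have pE : ∀ x y, (∃ j, T.O j x) → (∃ j, T.O j y) → (g x = g y ↔ x = y) := fun x y a b =>
    ⟨fun e => by rw [← gg x a, e, gg y b], congrArg g⟩
  have pU : ∀ x, (∃ j, T.O j x) → (T'.U (g x) ↔ T.U x) := fun x a => by
    by_cases k : T.O (some none) x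
    · rw [hg _ x k]
      exact t1 _
    · exact iff_of_false (fun e => k ((pO x a _).1 (h'.UO _ e))) fun e => k (h.UO _ e)
  have pX : ∀ x, (∃ j, T.O j x) → (T'.X (g x) ↔ T.X x) := fun x a => and_congr (pO x a _) (pU x a)
  have pZ : ∀ x, (∃ j, T.O j x) → (T'.Z (g x) ↔ T.Z x) := fun x a =>
    and_congr (pO x a _) (pU x a).not
  have pL : ∀ x y, (∃ j, T.O j x) → (∃ j, T.O j y) → (T'.lt (g x) (g y) ↔ T.lt x y) := by
    intro x y a b
    by_cases k : ∃ i, T.O (some (some i)) x ∧ T.O (some (some i)) y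
    · obtain ⟨i, hx, hy⟩ := k
      rw [hg _ x hx, hg _ y hy]
      exact ht i _ _
    · exact iff_of_false (fun e => k (by simpa only [pO x a, pO y b] using h'.ltO _ _ e))
        fun e => k (h.ltO _ _ e)
  have pc : ∀ x y, (∃ j, T.O j x) → (∃ j, T.O j y) → T'.col (g x) (g y) = g (T.col x y) := by
    intro x y a b
    by_cases k : T.X x ∧ T.Z y
    · obtain ⟨e, he⟩ := t2 ⟨x, k.1.1⟩ ⟨y, k.2.1⟩ k.1.2 k.2.2
      rw [hg _ x k.1.1, hg _ y k.2.1, hg _ _ e]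
      exact he.symm
    · rw [h.colO _ _ k, h'.colO _ _ (by rwa [pX x a, pZ y b])]
  have bc : ∀ x y, (∃ j, T.O j x) → ∃ j, T.O j (T.col x y) := by
    intro x y a
    by_cases k : T.X x ∧ T.Z y
    · exact ⟨_, h.colN _ _ k.1 k.2⟩
    · rwa [h.colO _ _ k]
  have pK : ∀ u v, (∃ j, T.O j u) → (∃ j, T.O j v) → (T'.Key (g u) (g v) ↔ T.Key u v) :=
    fun u v a b => by simp only [Tw.Key, pE u v a b, pX u a, pO u a, pZ u a, pZ v b]
  have mk : ∀ (Q : M → Prop) (Q' : M' → Prop), (∀ x, Q x → ∃ j, T.O j x) →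
      (∀ x, Q' x → ∃ j, T'.O j x) → (∀ x, (∃ j, T.O j x) → (Q' (g x) ↔ Q x)) →
      ∃ f : {x // Q x} ≃ {x // Q' x}, ∀ x, (f x).1 = g x.1 := fun Q Q' a b c =>
    ⟨⟨fun x => ⟨g x.1, (c _ (a _ x.2)).2 x.2⟩,
      fun x => ⟨g' x.1, (c _ ((b _ x.2).imp fun j => gO' j _)).1 ((gg' _ (b _ x.2)).symm ▸ x.2)⟩,
      fun x => Subtype.ext (gg _ (a _ x.2)), fun x => Subtype.ext (gg' _ (b _ x.2))⟩, fun _ => rfl⟩
  have key : ∀ b : {b : M × M // T.Key b.1 b.2},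
      ∃ e : {x // T.Bq b.1.1 b.1.2 x} ≃ {x // T'.Bq (g b.1.1) (g b.1.2) x},
      (∀ x y, T'.c (e x).1 (e y).1 = g (T.c x.1 y.1)) ∧ (∀ x, T'.p (e x).1 = g (T.p x.1)) ∧
        ∀ x y z, T'.R (e x).1 (e y).1 (e z).1 ↔ T.R x.1 y.1 z.1 := by
    rintro ⟨⟨u, v⟩, hb⟩
    obtain ⟨a, b⟩ := Tw.Base.Key_O hb
    obtain ⟨f, hf⟩ := mk (T.Cs u v) (T'.Cs (g u) (g v)) (fun _ => Cs_O) (fun _ => Cs_O) fun x c => by
      simp only [Tw.Cs, Tw.Col, pE u v a b, pX u a, pO u a, pZ u a, pX x c, pO x c, pZ x c]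
    obtain ⟨s, hs⟩ := mk (T.Ps u v) (T'.Ps (g u) (g v)) (fun _ => h.toBase.Ps_O)
      (fun _ => h'.toBase.Ps_O) fun x c => by
        simp only [Tw.Ps, pL x u c a, pX u a, pZ u a, pX x c, pZ x c, pc x u c a, pc x v c b,
          pE _ _ (bc x u c) (bc x v c)]
    obtain ⟨e, e1, e2, e3⟩ := unique_over (h.sys_good hb) (h'.sys_good ((pK u v a b).2 hb)) f s
    exact ⟨e, fun x y => (congrArg Subtype.val (e1 x y)).trans (hf _),
      fun x => (congrArg Subtype.val (e2 x)).trans (hs _), e3⟩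
  choose e e1 e2 e3 using key
  obtain ⟨F, hF⟩ := glue' (A := Option (Option I) ⊕ {b : M × M // T.Key b.1 b.2})
    (fun a => match a with | .inl j => T.O j | .inr b => T.Bq b.1.1 b.1.2)
    (fun a => match a with | .inl j => T'.O j | .inr b => T'.Bq (g b.1.1) (g b.1.2))
    (fun x => by
      by_cases hx : T.q x = x
      · obtain ⟨j, hj⟩ := (h.fix x).1 hx
        refine ⟨.inl j, hj, ?_⟩
        rintro (k | b) hk
        · rw [h.disj _ _ _ hk hj]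
        · exact absurd hj (h.not_O hk j)
      · have hb : T.Bq (T.q x) (T.r x) x := ⟨rfl, rfl, hx⟩
        refine ⟨.inr ⟨(_, _), h.Bq_K hb⟩, hb, ?_⟩
        rintro (k | b) hk
        · exact absurd hk (h.not_O hb k)
        · exact congrArg _ (Subtype.ext (Prod.ext hk.1.symm hk.2.1.symm)))
    (fun x => by
      by_cases hx : T'.q x = x
      · obtain ⟨j, hj⟩ := (h'.fix x).1 hx
        refine ⟨.inl j, hj, ?_⟩
        rintro (k | b) hk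
        · rw [h'.disj _ _ _ hk hj]
        · exact absurd hj (h'.not_O hk j)
      · have hb : T'.Bq (T'.q x) (T'.r x) x := ⟨rfl, rfl, hx⟩
        obtain ⟨a, b⟩ := Tw.Base.Key_O (h'.Bq_K hb)
        refine ⟨.inr ⟨(g' (T'.q x), g' (T'.r x)), (pK _ _ (a.imp fun j => gO' j _)
          (b.imp fun j => gO' j _)).1 (by rw [gg' _ a, gg' _ b]; exact h'.Bq_K hb)⟩, ?_, ?_⟩
        · change T'.Bq (g (g' _)) (g (g' _)) x
          rw [gg' _ a, gg' _ b]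
          exact hb
        · rintro (k | ⟨⟨u, v⟩, hk'⟩) hk
          · exact absurd hk (h'.not_O hb k)
          · refine congrArg _ (Subtype.ext (Prod.ext ?_ ?_))
            · change u = g' (T'.q x)
              rw [hk.1, gg _ (Tw.Base.Key_O hk').1]
            · change v = g' (T'.r x)
              rw [hk.2.1, gg _ (Tw.Base.Key_O hk').2])
    (fun a => match a with | .inl j => τ j | .inr b => e b)
  have F1 : ∀ x, (∃ j, T.O j x) → F x = g x := fun x ⟨j, hx⟩ =>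
    (hF (.inl j) ⟨x, hx⟩).trans (hg j x hx).symm
  have F2 : ∀ u v x (hx : T.Bq u v x), F x = (e ⟨(u, v), h.Bq_K hx⟩ ⟨x, hx⟩).1 :=
    fun u v x hx => hF (.inr ⟨(u, v), h.Bq_K hx⟩) ⟨x, hx⟩
  have hq : ∀ x, F (T.q x) = T'.q (F x) ∧ F (T.r x) = T'.r (F x) := by
    intro x
    by_cases hx : T.q x = x
    · have hj := (h.fix x).1 hx
      have := (h'.fix _).2 (hj.imp fun j => gO j _)
      rw [hx, h.rO x hx, F1 x hj, this, h'.rO _ this]
      exact ⟨rfl, rfl⟩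
    · have hb : T.Bq (T.q x) (T.r x) x := ⟨rfl, rfl, hx⟩
      obtain ⟨a, b⟩ := Tw.Base.Key_O (h.Bq_K hb)
      rw [F1 _ a, F1 _ b, F2 _ _ _ hb]
      exact ⟨(e ⟨(_, _), h.Bq_K hb⟩ ⟨x, hb⟩).2.1.symm, (e ⟨(_, _), h.Bq_K hb⟩ ⟨x, hb⟩).2.2.1.symm⟩
  have hB : ∀ u v x, T'.Bq (F u) (F v) (F x) ↔ T.Bq u v x := fun u v x => by
    simp only [Tw.Bq, ← (hq x).1, ← (hq x).2, F.injective.eq_iff]
  have hb : ∀ x, (∃ j, T'.O j (F x)) → ∃ j, T.O j x := fun x a =>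
    (h.fix x).1 (F.injective ((hq x).1.trans ((h'.fix _).2 a)))
  have hO : ∀ j x, T'.O j (F x) ↔ T.O j x := fun j x =>
    ⟨fun a => (pO x (hb x ⟨j, a⟩) j).1 (F1 x (hb x ⟨j, a⟩) ▸ a), fun a => F1 x ⟨j, a⟩ ▸ gO _ _ a⟩
  have hU : ∀ x, T'.U (F x) ↔ T.U x := fun x =>
    ⟨fun a => (pU x (hb x ⟨_, h'.UO _ a⟩)).1 (F1 x (hb x ⟨_, h'.UO _ a⟩) ▸ a),
      fun a => F1 x ⟨_, h.UO _ a⟩ ▸ (pU x ⟨_, h.UO _ a⟩).2 a⟩
  refine ⟨F, fun x => hF (.inl none) x, hO, hU, fun x y => ?_, fun x y z => ?_, fun x y => ?_,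
    fun x y => ?_, fun x => ?_, fun x => (hq x).1, fun x => (hq x).2⟩
  · by_cases k : ∃ i, T.O (some (some i)) x ∧ T.O (some (some i)) y
    · obtain ⟨i, a, b⟩ := k
      rw [F1 _ ⟨_, a⟩, F1 _ ⟨_, b⟩]
      exact pL _ _ ⟨_, a⟩ ⟨_, b⟩
    · exact iff_of_false (fun a => k (by simpa only [hO] using h'.ltO _ _ a)) fun a => k (h.ltO _ _ a)
  · by_cases k : ∃ u v, T.Bq u v x ∧ T.Bq u v y ∧ T.Bq u v z
    · obtain ⟨u, v, a1, a2, a3⟩ := k
      rw [F2 _ _ _ a1, F2 _ _ _ a2, F2 _ _ _ a3]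
      exact e3 _ _ _ _
    · refine iff_of_false (fun a => k ?_) fun a => k (h.RO _ _ _ a)
      obtain ⟨u, v, hb⟩ := h'.RO _ _ _ a
      obtain ⟨u, rfl⟩ := F.surjective u
      obtain ⟨v, rfl⟩ := F.surjective v
      exact ⟨u, v, by simpa only [hB] using hb⟩
  · by_cases k : T.X x ∧ T.Z y
    · rw [F1 _ ⟨_, k.1.1⟩, F1 _ ⟨_, k.2.1⟩, F1 _ ⟨_, h.colN _ _ k.1 k.2⟩]
      exact (pc _ _ ⟨_, k.1.1⟩ ⟨_, k.2.1⟩).symm
    · rw [h.colO _ _ k, h'.colO _ _ (by simpa only [Tw.X, Tw.Z, hO, hU] using k)]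
  · by_cases k : ∃ u v, T.Bq u v x ∧ T.Bq u v y
    · obtain ⟨u, v, a1, a2⟩ := k
      rw [F1 _ (Cs_O (h.cB u v x y a1 a2)), F2 _ _ _ a1, F2 _ _ _ a2]
      exact (e1 ⟨(u, v), h.Bq_K a1⟩ ⟨x, a1⟩ ⟨y, a2⟩).symm
    · rw [h.cO _ _ k, h'.cO]
      rintro ⟨u, v, hb⟩
      obtain ⟨u, rfl⟩ := F.surjective u
      obtain ⟨v, rfl⟩ := F.surjective v
      exact k ⟨u, v, by simpa only [hB] using hb⟩
  · by_cases hx : T.q x = x
    · rw [h.pO x hx, h'.pO _ (by rw [← (hq x).1, hx])]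
    · have hb : T.Bq (T.q x) (T.r x) x := ⟨rfl, rfl, hx⟩
      rw [F1 _ (h.toBase.Ps_O (h.pB _ _ _ hb)), F2 _ _ _ hb]
      exact (e2 ⟨(_, _), h.Bq_K hb⟩ ⟨x, hb⟩).symm

end Tw.Ok

end Pool.Agent.P.MP_032f6a_lc.Uf
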