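import Pool.Agent.P.MP_032f6a_lc.Tower

/-!
Size bound for towers and existence of large towers.
-/

set_option autoImplicit false

open Cardinal

namespace Pool.Agent.P.MP_032f6a_lc.Uf

variable {I M : Type} [LinearOrder I]

theorem un_le {ι : Type} (f : ι → Set M) {l : Cardinal.{0}} (h0 : ℵ₀ ≤ l) (h1 : #ι ≤ l)
    (h2 : ∀ i, #(f i) ≤ l) : #(⋃ i, f i) ≤ l :=
  (mk_iUnion_le f).trans (mul_le_of_le h0 h1 (ciSup_le' h2))

theorem Tw.Ok.key_le {T : Tw I M} (h : T.Ok) {u v : M} (hk : T.Key u v) {l : Cardinal.{0}}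
    (l1 : ℵ₁ ≤ l) {C P : Set M} (hC : ∀ x, T.Cs u v x → x ∈ C) (hP : ∀ x ∈ P, T.Ps u v x)
    (l2 : #C ≤ l) : #{x // T.Bq u v x} ≤ l ∧ #P ≤ l := by
  have i1 := h.toBase.infinite
  obtain ⟨d, hd⟩ := Classical.arbitrary {x // T.O none x}
  have : Nonempty {x // T.Cs u v x} := by
    rcases hk with ⟨rfl, a | ⟨i, a⟩⟩ | a
    · exact ⟨⟨u, Or.inr (Or.inl ⟨a, a⟩)⟩⟩
    · exact ⟨⟨d, Or.inl ⟨i, a, Or.inl hd⟩⟩⟩
    · by_cases e : u = v
      · exact ⟨⟨u, Or.inr (Or.inr ⟨a.1, Or.inl ⟨e, a.1⟩⟩)⟩⟩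
      · exact ⟨⟨d, Or.inr (Or.inr ⟨a.1, Or.inr ⟨e, hd⟩⟩)⟩⟩
  have h1 := (h.sys_good hk).card_le.trans
    (max_le ((mk_le_mk_of_subset (s := {x | T.Cs u v x}) hC).trans l2) l1)
  exact ⟨h1, (mk_le_mk_of_subset (t := {x | T.Ps u v x}) hP).trans
    ((mk_le_of_surjective (h.sys_good hk).surj).trans h1)⟩

theorem Tw.Ok.card_le [WellFoundedLT I] [Countable I] {T : Tw I M} (h : T.Ok)
    (k0 : Cardinal.{0}) (κ : I → Cardinal.{0}) (l : Cardinal.{0}) (h0 : ℵ₀ ≤ k0)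
    (hN : #{x | T.O none x} ≤ k0) (k2 : ∀ i, Order.succ k0 ≤ κ i)
    (k3 : ∀ i k, k < i → Order.succ (κ k) ≤ κ i) (l2 : Order.succ k0 ≤ l)
    (l3 : ∀ i, Order.succ (κ i) ≤ l) : #M ≤ l := by
  have s1 : ℵ₁ ≤ Order.succ k0 := succ_aleph0 ▸ Order.succ_le_succ h0
  have s0 : ℵ₀ ≤ Order.succ k0 := aleph0_lt_aleph_one.le.trans s1
  have nO : ∀ {u : M} {i : I}, T.O (some none) u → ¬ T.O (some (some i)) u :=
    fun a b => by simpa using h.disj _ _ _ a b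
  have hX : #{x | T.X x} ≤ Order.succ k0 := by
    obtain ⟨z, hz, -⟩ := h.t2 0 Fin.elim0 Fin.elim0 (fun i => i.elim0) fun i => i.elim0
    by_cases c : #{x | T.Z x} ≤ Order.succ k0
    · refine (h.key_le (Or.inr ⟨hz, hz⟩) s1 ?_ (fun x hx => Or.inr (Or.inr ⟨hz, hx, rfl⟩)) c).2
      rintro x (⟨i, a, -⟩ | a | ⟨-, a | a⟩)
      exacts [absurd a (nO hz.1), absurd a.1.2 hz.2, a.2, absurd rfl a.1]
    · obtain ⟨Y, hY, hc⟩ := le_mk_iff_exists_subset.1 (not_le.1 c).le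
      have : {x | T.X x} ⊆ ⋃ y : Y, ⋃ y' : {y' : Y // ¬ y.1 = y'.1},
          {x | T.X x ∧ T.col x y.1 = T.col x y'.1.1} := by
        intro x hx
        by_contra hn
        have inj : Function.Injective fun y : Y =>
            (⟨T.col x y.1, h.colN _ _ hx (hY y.2)⟩ : {x | T.O none x}) := fun y y' e => by
          by_contra ne
          exact hn (Set.mem_iUnion.2 ⟨y, Set.mem_iUnion.2
            ⟨⟨y', fun g => ne (Subtype.ext g)⟩, hx, congrArg Subtype.val e⟩⟩)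
        exact absurd (hc.ge.trans ((mk_le_of_injective inj).trans hN)) (not_le.2 (Order.lt_succ _))
      refine (mk_le_mk_of_subset this).trans (un_le _ s0 hc.le fun y =>
        un_le _ s0 ((mk_subtype_le _).trans hc.le) fun y' => ?_)
      refine (h.key_le (Or.inr ⟨hY y.2, hY y'.1.2⟩) s1 ?_
        (fun x hx => Or.inr (Or.inr ⟨hY y.2, hx⟩)) (hN.trans (Order.le_succ _))).2
      rintro x (⟨i, a, -⟩ | a | ⟨-, a | a⟩)
      exacts [absurd a (nO (hY y.2).1), absurd a.1.2 (hY y.2).2, absurd a.1 y'.2, a.2]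
  have hZ : #{x | T.Z x} ≤ Order.succ k0 := by
    obtain ⟨x, hx, -⟩ := h.t1 0 Fin.elim0 Fin.elim0 (fun i => i.elim0) fun i => i.elim0
    refine (h.key_le (Or.inl ⟨rfl, Or.inl hx⟩) s1 ?_ (fun z hz => Or.inr (Or.inl ⟨hx, hz⟩)) hX).2
    rintro z (⟨i, a, -⟩ | a | a)
    exacts [absurd a (nO hx.1), a.2, absurd hx.2 a.1.2]
  have k1 : ∀ i, ℵ₀ ≤ κ i := fun i => s0.trans (k2 i)
  have hO : ∀ i, #{x | T.O (some (some i)) x} ≤ Order.succ (κ i) := by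
    intro i
    induction i using WellFoundedLT.induction with
    | ind i ih =>
    have hB : ∀ b, T.O (some (some i)) b → #{x | T.lt x b} ≤ κ i := by
      intro b hb
      refine (h.key_le (C := ({x | T.O none x} ∪ {x | T.X x}) ∪
        ⋃ k : Set.Iio i, {x | T.O (some (some k.1)) x}) (Or.inl ⟨rfl, Or.inr ⟨i, hb⟩⟩)
        (s1.trans (k2 i)) ?_ (fun x hx => Or.inl hx) ?_).2
      · rintro x (⟨j, a, b⟩ | a | a)
        · obtain rfl : j = i := by simpa using h.disj _ _ _ a hb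
          rcases b with b | b | ⟨k, b, c⟩
          exacts [Or.inl (Or.inl b), Or.inl (Or.inr b), Or.inr (Set.mem_iUnion.2 ⟨⟨k, b⟩, c⟩)]
        · exact absurd hb (nO a.1.1)
        · exact absurd hb (nO a.1.1)
      · refine (mk_union_le _ _).trans (add_le_of_le (k1 i) ((mk_union_le _ _).trans (add_le_of_le
          (k1 i) (hN.trans ((Order.le_succ _).trans (k2 i))) (hX.trans (k2 i)))) ?_)
        exact un_le _ (k1 i) (mk_le_aleph0.trans (k1 i)) fun k => (ih k.1 k.2).trans (k3 i k.1 k.2)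
    by_contra hn
    have hn : Order.succ (κ i) < #{x | T.O (some (some i)) x} := not_le.1 hn
    obtain ⟨Y, hY, hc⟩ := le_mk_iff_exists_subset.1 hn.le
    have s0 : ℵ₀ ≤ Order.succ (κ i) := (k1 i).trans (Order.le_succ _)
    have h1 : #(Y ∪ ⋃ y : Y, {x | T.lt x y.1} : Set M) < #{x | T.O (some (some i)) x} := by
      refine lt_of_le_of_lt ((mk_union_le _ _).trans (add_le_of_le s0 hc.le ?_)) hn
      exact un_le _ s0 hc.le fun y => (hB y.1 (hY y.2)).trans (Order.le_succ _)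
    obtain ⟨x, hx, hx'⟩ := exists_notMem_of_lt h1
    have h2 : Y ⊆ {y | T.lt y x} := fun y hy => by
      rcases h.tot i _ _ (hY hy) hx with a | a | a
      · exact a
      · exact absurd (Or.inl (a ▸ hy)) hx'
      · exact absurd (Or.inr (Set.mem_iUnion.2 ⟨⟨y, hy⟩, a⟩)) hx'
    exact absurd (hc.ge.trans ((mk_le_mk_of_subset h2).trans (hB x hx))) (not_le.2 (Order.lt_succ _))
  have l1 : ℵ₀ ≤ l := s0.trans l2
  have hA : #(⋃ j, {x | T.O j x}) ≤ l := by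
    refine un_le _ l1 (mk_le_aleph0.trans l1) ?_
    rintro (_ | _ | i)
    · exact hN.trans ((Order.le_succ _).trans l2)
    · have : {x | T.O (some none) x} ⊆ {x | T.X x} ∪ {x | T.Z x} := fun x hx =>
        (em (T.U x)).imp (fun a => ⟨hx, a⟩) fun a => ⟨hx, a⟩
      exact (mk_le_mk_of_subset this).trans ((mk_union_le _ _).trans
        (add_le_of_le l1 (hX.trans l2) (hZ.trans l2)))
    · exact (hO i).trans (l3 i)
  have : (Set.univ : Set M) ⊆ (⋃ j, {x | T.O j x}) ∪ ⋃ u : (⋃ j, {x | T.O j x}),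
      ⋃ v : (⋃ j, {x | T.O j x}), {x | T.Bq u.1 v.1 x} := by
    intro x _
    by_cases hx : T.q x = x
    · exact Or.inl (Set.mem_iUnion.2 ((h.fix x).1 hx))
    · obtain ⟨a, b⟩ := Tw.Base.Key_O (h.qK x hx)
      exact Or.inr (Set.mem_iUnion.2 ⟨⟨_, Set.mem_iUnion.2 a⟩,
        Set.mem_iUnion.2 ⟨⟨_, Set.mem_iUnion.2 b⟩, rfl, rfl, hx⟩⟩)
  rw [← mk_univ]
  refine (mk_le_mk_of_subset this).trans ((mk_union_le _ _).trans (add_le_of_le l1 hA ?_))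
  refine un_le _ l1 hA fun u => un_le _ l1 hA fun v => ?_
  by_cases k : T.Key u.1 v.1
  · exact (h.key_le (P := ∅) k (s1.trans l2) (fun x hx => Set.mem_iUnion.2 (Tw.Ok.Cs_O hx))
      (fun _ => False.elim) hA).1
  · have : {x | T.Bq u.1 v.1 x} = ∅ := Set.eq_empty_of_forall_notMem fun x hx => k (h.Bq_K hx)
    simp [this]

section layer

variable {A : Type} (T : Tw I A) {B : {b : A × A // T.Key b.1 b.2} → Type}
  (S : ∀ b : {b : A × A // T.Key b.1 b.2},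
    Sys {x // T.Cs b.1.1 b.1.2 x} {x // T.Ps b.1.1 b.1.2 x} (B b))

open Classical in
noncomputable def tw : Tw I (A ⊕ Σ b, B b) where
  O j u := ∃ x, u = .inl x ∧ T.O j x
  U u := ∃ x, u = .inl x ∧ T.U x
  lt u v := ∃ x y, u = .inl x ∧ v = .inl y ∧ T.lt x y
  R u v w := ∃ b x y z, u = .inr ⟨b, x⟩ ∧ v = .inr ⟨b, y⟩ ∧ w = .inr ⟨b, z⟩ ∧ (S b).R x y z
  col u v := match u, v with
    | .inl x, .inl y => .inl (T.col x y)
    | _, _ => u
  c u v := match u, v with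
    | .inr x, .inr y => if h : y.1 = x.1 then .inl ((S x.1).c x.2 (h ▸ y.2)).1 else u
    | _, _ => u
  p u := match u with
    | .inl x => .inl x
    | .inr x => .inl ((S x.1).p x.2).1
  q u := match u with
    | .inl x => .inl x
    | .inr x => .inl x.1.1.1
  r u := match u with
    | .inl x => .inl x
    | .inr x => .inl x.1.1.2

theorem tw_O (j : Option (Option I)) (x : A) : (tw T S).O j (.inl x) ↔ T.O j x :=
  ⟨fun ⟨_, e, h⟩ => Sum.inl_injective e ▸ h, fun h => ⟨x, rfl, h⟩⟩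

theorem tw_U (x : A) : (tw T S).U (.inl x) ↔ T.U x :=
  ⟨fun ⟨_, e, h⟩ => Sum.inl_injective e ▸ h, fun h => ⟨x, rfl, h⟩⟩

theorem tw_lt (x y : A) : (tw T S).lt (.inl x) (.inl y) ↔ T.lt x y :=
  ⟨fun ⟨_, _, e, e', h⟩ => Sum.inl_injective e ▸ Sum.inl_injective e' ▸ h,
    fun h => ⟨x, y, rfl, rfl, h⟩⟩

theorem tw_col (x y : A) : (tw T S).col (.inl x) (.inl y) = .inl (T.col x y) := rfl

theorem tw_Bq (u v w : A ⊕ Σ b, B b) :
    (tw T S).Bq u v w ↔ ∃ b x, u = .inl b.1.1 ∧ v = .inl b.1.2 ∧ w = .inr ⟨b, x⟩ := by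
  constructor
  · rintro ⟨h1, h2, h3⟩
    rcases w with x | ⟨b, x⟩
    · exact absurd rfl h3
    · exact ⟨b, x, h1.symm, h2.symm, rfl⟩
  · rintro ⟨b, x, rfl, rfl, rfl⟩
    exact ⟨rfl, rfl, Sum.inl_ne_inr⟩

theorem tw_c (b : {b : A × A // T.Key b.1 b.2}) (x y : B b) :
    (tw T S).c (.inr ⟨b, x⟩) (.inr ⟨b, y⟩) = .inl ((S b).c x y).1 := dif_pos rfl

theorem tw_R (b : {b : A × A // T.Key b.1 b.2}) (x y z : B b)
    (h : (tw T S).R (.inr ⟨b, x⟩) (.inr ⟨b, y⟩) (.inr ⟨b, z⟩)) : (S b).R x y z := by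
  obtain ⟨b', x', y', z', h1, h2, h3, a⟩ := h
  cases h1
  cases h2
  cases h3
  exact a

theorem tw_ok (h : T.Base) (ht : ∀ x, ∃ j, T.O j x) (hS : ∀ b, Good (S b)) : (tw T S).Ok := by
  have hX : ∀ x, (tw T S).X (.inl x) ↔ T.X x := fun x => and_congr (tw_O T S _ x) (tw_U T S x)
  have hZ : ∀ x, (tw T S).Z (.inl x) ↔ T.Z x := fun x => and_congr (tw_O T S _ x) (tw_U T S x).not
  have hK : ∀ u v, (tw T S).Key (.inl u) (.inl v) ↔ T.Key u v := fun u v =>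
    or_congr (and_congr Sum.inl_injective.eq_iff (or_congr (hX u) (exists_congr fun _ => tw_O T S _ u)))
      (and_congr (hZ u) (hZ v))
  have hC : ∀ u v x, (tw T S).Cs (.inl u) (.inl v) (.inl x) ↔ T.Cs u v x := fun u v x => by
    simp only [Tw.Cs, Tw.Col, hX, hZ, tw_O, Sum.inl.injEq]
  have hP : ∀ u v x, (tw T S).Ps (.inl u) (.inl v) (.inl x) ↔ T.Ps u v x := fun u v x => by
    simp only [Tw.Ps, hX, hZ, tw_lt, tw_col, Sum.inl.injEq]
  have io : ∀ {u}, (∃ j, (tw T S).O j u) → ∃ x, u = .inl x := fun ⟨_, x, e, _⟩ => ⟨x, e⟩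
  have tt : ∀ (P Q : A → Prop) (f : A → A → A), (∀ (n : ℕ) (a cs : Fin n → A),
      (∀ i, T.O none (cs i)) → (∀ i j, a i = a j → i = j) →
        ∃ x, P x ∧ ∀ i, ¬ x = a i ∧ (Q (a i) → f x (a i) = cs i)) →
      ∀ (n : ℕ) (a cs : Fin n → A ⊕ Σ b, B b), (∀ i, (tw T S).O none (cs i)) →
        (∀ i j, a i = a j → i = j) → ∃ x, P x ∧ ∀ i, ¬ .inl x = a i ∧
          ∀ y, a i = .inl y → Q y → .inl (f x y) = cs i := by
    intro P Q f hf n a cs h1 h2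
    choose cs' c1 c2 using h1
    obtain ⟨m, k, k1, k2⟩ := (Set.toFinite {i | ∃ y, a i = .inl y}).fin_param
    have : ∀ j, ∃ y, a (k j) = .inl y := fun j => (k2 ▸ ⟨j, rfl⟩ : k j ∈ {i | ∃ y, a i = .inl y})
    choose a' ha' using this
    obtain ⟨x, x1, x2⟩ := hf m a' (fun j => cs' (k j)) (fun j => c2 _) fun i j e =>
      k1 (h2 _ _ (by rw [ha', ha', e]))
    refine ⟨x, x1, fun i => ⟨fun e => ?_, fun y e hy => ?_⟩⟩
    · obtain ⟨j, rfl⟩ : i ∈ Set.range k := k2 ▸ ⟨x, e.symm⟩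
      exact (x2 j).1 (Sum.inl_injective (e.trans (ha' j)))
    · obtain ⟨j, rfl⟩ : i ∈ Set.range k := k2 ▸ ⟨y, e⟩
      obtain rfl : a' j = y := Sum.inl_injective ((ha' j).symm.trans e)
      rw [(x2 j).2 hy, c1]
  have base : (tw T S).Base := by
    refine ⟨?_, ?_, fun n => ?_, fun i => ?_, ?_, ?_, ?_, ?_, ?_, ?_, ?_, ?_,
      fun n a cs h1 h2 => ?_, fun n a cs h1 h2 => ?_⟩
    · rintro i j _ ⟨x, rfl, a⟩ b
      exact h.disj _ _ _ a ((tw_O T S _ _).1 b)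
    · rintro _ ⟨x, rfl, a⟩
      exact ⟨x, rfl, h.UO x a⟩
    · obtain ⟨v, v1, v2⟩ := h.inf n
      exact ⟨fun i => .inl (v i), fun i j e => v1 i j (Sum.inl_injective e), fun i => ⟨_, rfl, v2 i⟩⟩
    · obtain ⟨x, hx⟩ := h.ne i
      exact ⟨.inl x, x, rfl, hx⟩
    · rintro _ _ ⟨x, y, rfl, rfl, a⟩
      simpa only [tw_O] using h.ltO x y a
    · rintro _ ⟨x, y, rfl, e, a⟩
      cases e
      exact h.irr _ a
    · rintro _ _ _ ⟨x, y, rfl, rfl, a⟩ ⟨_, z, e, rfl, b⟩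
      cases e
      exact ⟨x, z, rfl, rfl, h.tr _ _ _ a b⟩
    · rintro i _ _ ⟨x, rfl, hx⟩ ⟨y, rfl, hy⟩
      simpa only [tw_lt, Sum.inl.injEq] using h.tot i x y hx hy
    · rintro _ _ ⟨x, y, rfl, rfl, a⟩
      obtain ⟨z, b, c⟩ := h.dense x y a
      exact ⟨.inl z, ⟨_, _, rfl, rfl, b⟩, _, _, rfl, rfl, c⟩
    · rintro i _ ⟨x, rfl, hx⟩
      obtain ⟨⟨y, a⟩, z, b⟩ := h.nom i x hx
      exact ⟨⟨.inl y, _, _, rfl, rfl, a⟩, .inl z, _, _, rfl, rfl, b⟩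
    · intro u v a b
      obtain ⟨x, rfl⟩ := io ⟨_, a.1⟩
      obtain ⟨y, rfl⟩ := io ⟨_, b.1⟩
      exact ⟨_, rfl, h.colN _ _ ((hX _).1 a) ((hZ _).1 b)⟩
    · rintro (x | x) (y | y) a <;> try rfl
      rw [tw_col, h.colO _ _ (by rwa [← hX, ← hZ])]
    · obtain ⟨x, x1, x2⟩ := tt T.X T.Z T.col h.t1 n a cs h1 h2
      refine ⟨.inl x, (hX _).2 x1, fun i => ⟨(x2 i).1, fun b => ?_⟩⟩
      obtain ⟨y, e⟩ := io ⟨_, b.1⟩
      rw [e] at b ⊢
      exact (x2 i).2 y e ((hZ _).1 b)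
    · obtain ⟨x, x1, x2⟩ := tt T.Z T.X (fun z x => T.col x z) h.t2 n a cs h1 h2
      refine ⟨.inl x, (hZ _).2 x1, fun i => ⟨(x2 i).1, fun b => ?_⟩⟩
      obtain ⟨y, e⟩ := io ⟨_, b.1⟩
      rw [e] at b ⊢
      exact (x2 i).2 y e ((hX _).1 b)
  have mB : ∀ b x, (tw T S).Bq (.inl b.1.1) (.inl b.1.2) (.inr ⟨b, x⟩) :=
    fun b x => (tw_Bq T S _ _ _).2 ⟨b, x, rfl, rfl, rfl⟩
  have eB : ∀ {b : {b : A × A // T.Key b.1 b.2}} {w}, (tw T S).Bq (.inl b.1.1) (.inl b.1.2) w →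
      ∃ x, w = .inr ⟨b, x⟩ := by
    intro b w hw
    obtain ⟨b', y, e1, e2, rfl⟩ := (tw_Bq T S _ _ _).1 hw
    obtain rfl : b = b' := Subtype.ext (Prod.ext (Sum.inl_injective e1) (Sum.inl_injective e2))
    exact ⟨y, rfl⟩
  refine ⟨base, ?_, ?_, ?_, ?_, ?_, ?_, ?_, ?_, ?_⟩
  · rintro (x | x)
    · exact iff_of_true rfl ((ht x).imp fun j a => ⟨x, rfl, a⟩)
    · exact iff_of_false Sum.inl_ne_inr fun ⟨_, _, h, _⟩ => Sum.inr_ne_inl h
  · rintro (x | x) h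
    · exact absurd rfl h
    · exact (hK _ _).2 x.1.2
  · rintro (x | x) h
    · rfl
    · exact absurd h Sum.inl_ne_inr
  · intro u v w w' hw hw'
    obtain ⟨b, x, rfl, rfl, rfl⟩ := (tw_Bq T S _ _ _).1 hw
    obtain ⟨y, rfl⟩ := eB hw'
    rw [tw_c, hC]
    exact ((S b).c x y).2
  · rintro (x | ⟨b, x⟩) (y | ⟨b', y⟩) h <;> try rfl
    refine dif_neg fun e : b' = b => h ?_
    subst e
    exact ⟨_, _, mB _ _, mB _ _⟩
  · intro u v w hw
    obtain ⟨b, x, rfl, rfl, rfl⟩ := (tw_Bq T S _ _ _).1 hw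
    exact (hP _ _ _).2 ((S b).p x).2
  · rintro (x | x) h
    · rfl
    · exact absurd h Sum.inl_ne_inr
  · rintro _ _ _ ⟨b, x, y, z, rfl, rfl, rfl, -⟩
    exact ⟨_, _, mB _ _, mB _ _, mB _ _⟩
  · intro u v hk
    obtain ⟨u, rfl⟩ := io (Tw.Base.Key_O hk).1
    obtain ⟨v, rfl⟩ := io (Tw.Base.Key_O hk).2
    let b : {b : A × A // T.Key b.1 b.2} := ⟨(u, v), (hK _ _).1 hk⟩
    have hPr : Pres ((tw T S).Cs (.inl u) (.inl v)) ((tw T S).Ps (.inl u) (.inl v))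
        ((tw T S).Bq (.inl u) (.inl v)) (tw T S).c (tw T S).p ((tw T S).Rb (.inl u) (.inl v))
        (S b) (fun x => .inl x.1) (fun x => .inl x.1) fun x => .inr ⟨b, x⟩ := by
      refine ⟨Sum.inl_injective.comp Subtype.val_injective,
        Sum.inl_injective.comp Subtype.val_injective, fun x y e => ?_, fun w => ⟨fun a => ?_, ?_⟩,
        fun w => ⟨fun a => ?_, ?_⟩, fun w => ⟨fun a => ?_, ?_⟩, tw_c T S b, fun _ => rfl,
        fun x y z => ⟨fun a => tw_R T S b x y z a.1, fun a => ⟨⟨_, x, y, z, rfl, rfl, rfl, a⟩, mB b z⟩⟩, fun _ _ _ a => a.2⟩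
      · simpa using e
      · obtain ⟨x, rfl⟩ := io (Tw.Ok.Cs_O a)
        exact ⟨⟨x, (hC _ _ _).1 a⟩, rfl⟩
      · rintro ⟨x, rfl⟩
        exact (hC _ _ _).2 x.2
      · obtain ⟨x, rfl⟩ := io (base.Ps_O a)
        exact ⟨⟨x, (hP _ _ _).1 a⟩, rfl⟩
      · rintro ⟨x, rfl⟩
        exact (hP _ _ _).2 x.2
      · obtain ⟨x, rfl⟩ := eB (b := b) a
        exact ⟨x, rfl⟩
      · rintro ⟨x, rfl⟩
        exact mB b x
    exact hPr.good_iff.2 (hS _)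

end layer

section build

variable {N X Z : Type} {W : I → Type} [∀ i, LinearOrder (W i)] (col : X → Z → N)

abbrev Bs (N X Z : Type) (W : I → Type) : Type := N ⊕ (X ⊕ Z) ⊕ Σ i, W i × ℚ

def lev : Bs N X Z W → Option (Option I)
  | .inl _ => none
  | .inr (.inl _) => some none
  | .inr (.inr a) => some (some a.1)

def bs : Tw I (Bs N X Z W) where
  O j x := lev x = j
  U u := ∃ x, u = .inr (.inl (.inl x))
  lt x y := ∃ (i : I) (a b : W i × ℚ), x = .inr (.inr ⟨i, a⟩) ∧ y = .inr (.inr ⟨i, b⟩) ∧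
    (a.1 < b.1 ∨ a.1 = b.1 ∧ a.2 < b.2)
  R _ _ _ := False
  col u v := match u, v with
    | .inr (.inl (.inl x)), .inr (.inl (.inr z)) => .inl (col x z)
    | _, _ => u
  c u _ := u
  p u := u
  q u := u
  r u := u

omit [LinearOrder I]

theorem bs_lt {i : I} {a b : W i × ℚ} : (bs col).lt (.inr (.inr ⟨i, a⟩)) (.inr (.inr ⟨i, b⟩)) ↔
    (a.1 < b.1 ∨ a.1 = b.1 ∧ a.2 < b.2) := by
  refine ⟨?_, fun h => ⟨i, a, b, rfl, rfl, h⟩⟩
  rintro ⟨k, c, d, h1, h2, h⟩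
  cases h1
  cases h2
  exact h

theorem bs_N {x : Bs N X Z W} : (bs col).O none x ↔ ∃ a, x = .inl a := by
  rcases x with x | x | x <;> simp [bs, lev]

theorem bs_X {x : Bs N X Z W} : (bs col).X x ↔ ∃ a, x = .inr (.inl (.inl a)) :=
  ⟨fun h => h.2, by rintro ⟨a, rfl⟩; exact ⟨rfl, a, rfl⟩⟩

theorem bs_Z {x : Bs N X Z W} : (bs col).Z x ↔ ∃ a, x = .inr (.inl (.inr a)) := by
  rcases x with x | (x | x) | x <;> simp [bs, lev, Tw.Z]

theorem bs_O {i : I} {x : Bs N X Z W} (h : (bs col).O (some (some i)) x) :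
    ∃ a, x = .inr (.inr ⟨i, a⟩) := by
  rcases x with x | x | ⟨k, a⟩ <;> cases h
  exact ⟨a, rfl⟩

theorem bs_base [Infinite N] [∀ i, Nonempty (W i)]
    (t1 : ∀ (s : Set Z) (c : Z → N) (t : Set X), s.Finite → t.Finite →
      ∃ x, x ∉ t ∧ ∀ z ∈ s, col x z = c z)
    (t2 : ∀ (s : Set X) (c : X → N) (t : Set Z), s.Finite → t.Finite →
      ∃ z, z ∉ t ∧ ∀ x ∈ s, col x z = c x) : (bs (W := W) col).Base := by
  have fin : ∀ {n : ℕ} {Y : Type} (a : Fin n → Bs N X Z W) (f : Y → Bs N X Z W),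
      Function.Injective f → {y | ∃ i, a i = f y}.Finite := fun a f hf =>
    Set.Finite.preimage (f := f) hf.injOn (Set.finite_range a)
  have cc : ∀ {n : ℕ} {Y : Type} (a cs : Fin n → Bs N X Z W) (f : Y → Bs N X Z W),
      (∀ i, (bs col).O none (cs i)) → (∀ i j, a i = a j → i = j) →
      ∃ c : Y → N, ∀ i y, a i = f y → .inl (c y) = cs i := by
    intro n Y a cs f h1 h2
    have : ∀ y, ∃ c : N, ∀ i, a i = f y → .inl c = cs i := by
      intro y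
      by_cases k : ∃ i, a i = f y
      · obtain ⟨i, hi⟩ := k
        obtain ⟨c, hc⟩ := (bs_N col).1 (h1 i)
        exact ⟨c, fun j hj => h2 i j (hi.trans hj.symm) ▸ hc.symm⟩
      · exact ⟨Classical.arbitrary N, fun i hi => absurd ⟨i, hi⟩ k⟩
    choose c hc using this
    exact ⟨c, fun i y => hc y i⟩
  have iX : Function.Injective fun x : X => (.inr (.inl (.inl x)) : Bs N X Z W) :=
    fun _ _ e => by simpa using e
  have iZ : Function.Injective fun x : Z => (.inr (.inl (.inr x)) : Bs N X Z W) :=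
    fun _ _ e => by simpa using e
  refine ⟨fun i j x a b => a.symm.trans b, ?_, fun n => ?_, fun i => ?_, ?_, ?_, ?_, ?_, ?_, ?_, ?_, ?_,
    fun n a cs h1 h2 => ?_, fun n a cs h1 h2 => ?_⟩
  · rintro _ ⟨x, rfl⟩
    rfl
  · refine ⟨fun i => .inl (Infinite.natEmbedding N i), fun i j e => ?_, fun i => rfl⟩
    exact Fin.ext ((Infinite.natEmbedding N).injective (by simpa using e))
  · exact ⟨.inr (.inr ⟨i, Classical.arbitrary _, 0⟩), rfl⟩
  · rintro _ _ ⟨i, a, b, rfl, rfl, -⟩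
    exact ⟨i, rfl, rfl⟩
  · rintro _ ⟨i, a, b, rfl, e, h⟩
    cases e
    simp at h
  · rintro _ _ _ ⟨i, a, b, rfl, rfl, h⟩ ⟨k, c, d, e, rfl, h'⟩
    cases e
    refine (bs_lt col).2 ?_
    rcases h with h | ⟨h, g⟩ <;> rcases h' with h' | ⟨h', g'⟩
    exacts [Or.inl (h.trans h'), Or.inl (h' ▸ h), Or.inl (h ▸ h'), Or.inr ⟨h.trans h', g.trans g'⟩]
  · intro i x y hx hy
    obtain ⟨⟨a, r⟩, rfl⟩ := bs_O col hx
    obtain ⟨⟨b, s⟩, rfl⟩ := bs_O col hy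
    rw [bs_lt, bs_lt]
    rcases lt_trichotomy a b with h | rfl | h
    · exact Or.inl (Or.inl h)
    · rcases lt_trichotomy r s with g | rfl | g
      exacts [Or.inl (Or.inr ⟨rfl, g⟩), Or.inr (Or.inl rfl), Or.inr (Or.inr (Or.inr ⟨rfl, g⟩))]
    · exact Or.inr (Or.inr (Or.inl h))
  · rintro _ _ ⟨i, a, b, rfl, rfl, h | ⟨h, g⟩⟩
    · exact ⟨.inr (.inr ⟨i, a.1, a.2 + 1⟩), (bs_lt col).2 (Or.inr ⟨rfl, by simp⟩),
        (bs_lt col).2 (Or.inl h)⟩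
    · obtain ⟨r, r1, r2⟩ := exists_between g
      exact ⟨.inr (.inr ⟨i, a.1, r⟩), (bs_lt col).2 (Or.inr ⟨rfl, r1⟩), (bs_lt col).2 (Or.inr ⟨h, r2⟩)⟩
  · intro i x hx
    obtain ⟨a, rfl⟩ := bs_O col hx
    exact ⟨⟨.inr (.inr ⟨i, a.1, a.2 + 1⟩), (bs_lt col).2 (Or.inr ⟨rfl, by simp⟩)⟩,
      .inr (.inr ⟨i, a.1, a.2 - 1⟩), (bs_lt col).2 (Or.inr ⟨rfl, by simp⟩)⟩
  · intro x z a b
    obtain ⟨x, rfl⟩ := (bs_X col).1 a
    obtain ⟨z, rfl⟩ := (bs_Z col).1 b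
    rfl
  · rintro (x | (x | x) | x) (z | (z | z) | z) h <;> try rfl
    exact absurd ⟨(bs_X col).2 ⟨_, rfl⟩, (bs_Z col).2 ⟨_, rfl⟩⟩ h
  · obtain ⟨c, hc⟩ := cc a cs (fun z : Z => .inr (.inl (.inr z))) h1 h2
    obtain ⟨x, x1, x2⟩ := t1 _ c _ (fin a _ iZ) (fin a _ iX)
    refine ⟨_, (bs_X col).2 ⟨x, rfl⟩, fun i => ⟨fun e => x1 ⟨i, e.symm⟩, fun b => ?_⟩⟩
    obtain ⟨z, e⟩ := (bs_Z col).1 b
    rw [e, ← hc i z e, ← x2 z ⟨i, e⟩]
    rfl
  · obtain ⟨c, hc⟩ := cc a cs (fun z : X => .inr (.inl (.inl z))) h1 h2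
    obtain ⟨x, x1, x2⟩ := t2 _ c _ (fin a _ iX) (fin a _ iZ)
    refine ⟨_, (bs_Z col).2 ⟨x, rfl⟩, fun i => ⟨fun e => x1 ⟨i, e.symm⟩, fun b => ?_⟩⟩
    obtain ⟨z, e⟩ := (bs_X col).1 b
    rw [e, ← hc i z e, ← x2 z ⟨i, e⟩]
    rfl

end build

/-- A tower over a colour set of size `k0` with large sorts. -/
theorem exists_tw (k0 : Cardinal.{0}) (κ : I → Cardinal.{0}) (h0 : ℵ₀ ≤ k0) (k1 : ∀ i, ℵ₀ ≤ κ i)
    (k2 : ∀ i μ, Order.succ k0 ≤ μ → (∀ k, k < i → Order.succ (κ k) ≤ μ) → κ i ≤ μ) :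
    ∃ (M : Type) (T : Tw I M), T.Ok ∧ #{x // T.O none x} = k0 ∧ Order.succ k0 ≤ #M ∧
      ∀ i, Order.succ (κ i) ≤ #M := by
  let W : I → Type := fun i => (Order.succ (κ i)).ord.ToType
  have hW : ∀ i, #(W i) = Order.succ (κ i) := fun i => mk_ord_toType _
  obtain ⟨N, rfl⟩ : ∃ N : Type, #N = k0 := ⟨_, mk_out k0⟩
  have i1 : Infinite N := infinite_iff.2 h0
  have i2 : ∀ i, Nonempty (W i) := fun i =>
    mk_ne_zero_iff.1 (by rw [hW]; exact succ_ne_zero _)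
  obtain ⟨X, Z, col, hX, hZ, t1, t2, hA⟩ := exists_gadget N
  have hb := bs_base (W := W) col t1 t2
  have s0 : ℵ₀ ≤ Order.succ #N := h0.trans (Order.le_succ _)
  have lo : ∀ {Y : Type} (f : Y → Bs N X Z W) (P : Bs N X Z W → Prop), Function.Injective f →
      (∀ y, P (f y)) → #Y ≤ #{x // P x} := fun f P hf hP =>
    mk_le_of_injective (f := fun y => ⟨f y, hP y⟩) fun _ _ e => hf (congrArg Subtype.val e)
  have up : ∀ {Y : Type} (f : Y → Bs N X Z W) (P : Bs N X Z W → Prop),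
      (∀ x, P x → ∃ y, f y = x) → #{x // P x} ≤ #Y := fun f P hP =>
    (mk_le_mk_of_subset (s := {x | P x}) (t := Set.range f) hP).trans mk_range_le
  have iX : Function.Injective fun x : X => (.inr (.inl (.inl x)) : Bs N X Z W) :=
    fun _ _ e => by simpa using e
  have iZ : Function.Injective fun x : Z => (.inr (.inl (.inr x)) : Bs N X Z W) :=
    fun _ _ e => by simpa using e
  have nl : ∀ {u w : Bs N X Z W}, (bs col).O (some none) u → ¬ (bs col).lt w u := fun a b => by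
    obtain ⟨i, -, c⟩ := hb.ltO _ _ b
    simpa using hb.disj _ _ _ a c
  have key : ∀ u v : Bs N X Z W, (bs col).Key u v → ∃ μ, ℵ₀ ≤ μ ∧
      #{x // (bs col).Ps u v x} ≤ μ ∧ μ ≤ #{x // (bs col).Cs u v x} := by
    rintro u v (⟨rfl, hu | ⟨i, hu⟩⟩ | ⟨hu, hv⟩)
    · refine ⟨_, s0, (up (fun z : Z => .inr (.inl (.inr z))) _ ?_).trans hZ.le,
        hX.ge.trans (lo _ _ iX fun x => Or.inr (Or.inl ⟨hu, (bs_X col).2 ⟨x, rfl⟩⟩))⟩
      rintro x (a | a | a)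
      exacts [absurd a (nl hu.1), ((bs_Z col).1 a.2).imp fun _ => Eq.symm, absurd hu.2 a.1.2]
    · obtain ⟨a, rfl⟩ := bs_O col hu
      refine ⟨κ i, k1 i, (up (fun w : Set.Iic a.1 × ℚ => .inr (.inr ⟨i, w.1.1, w.2⟩)) _ ?_).trans ?_,
        k2 i _ (hX.ge.trans (lo _ _ iX fun x => Or.inl ⟨i, hu, Or.inr (Or.inl ((bs_X col).2 ⟨x, rfl⟩))⟩))
          fun k hk => (hW k).ge.trans (lo (fun w => .inr (.inr ⟨k, w, 0⟩)) _ (fun _ _ e => by simpa using e)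
            fun w => Or.inl ⟨i, hu, Or.inr (Or.inr ⟨k, hk, rfl⟩)⟩)⟩
      · rintro x (⟨k, c, d, rfl, e, h⟩ | a | a)
        · cases e
          exact ⟨(⟨c.1, h.elim le_of_lt fun h => h.1.le⟩, c.2), rfl⟩
        · cases a.1.1
        · cases a.1.1
      · rw [mk_prod, lift_id, lift_id]
        refine mul_le_of_le (k1 i) ?_ (mk_le_aleph0.trans (k1 i))
        rw [← Set.Iio_insert]
        refine mk_insert_le.trans (add_le_of_le (k1 i) ?_ (one_le_aleph0.trans (k1 i)))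
        exact Order.lt_succ_iff.1 ((mk_Iio_lt a.1 (by simp [W])).trans_eq (hW i))
    · by_cases e : u = v
      · refine ⟨_, s0, (up (fun z : X => .inr (.inl (.inl z))) _ ?_).trans hX.le,
          hZ.ge.trans (lo _ _ iZ fun x => Or.inr (Or.inr ⟨hu, Or.inl ⟨e, (bs_Z col).2 ⟨x, rfl⟩⟩⟩))⟩
        rintro x (a | a | a)
        exacts [absurd a (nl hu.1), absurd a.1.2 hu.2, ((bs_X col).1 a.2.1).imp fun _ => Eq.symm]
      · obtain ⟨z, rfl⟩ := (bs_Z col).1 hu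
        obtain ⟨z', rfl⟩ := (bs_Z col).1 hv
        refine ⟨_, h0, (up (fun x : {x // col x z = col x z'} => .inr (.inl (.inl x.1))) _ ?_).trans
          (hA z z' fun g => e (g ▸ rfl)),
          lo Sum.inl _ Sum.inl_injective fun x => Or.inr (Or.inr ⟨hu, Or.inr ⟨e, rfl⟩⟩)⟩
        rintro x (a | a | a)
        · exact absurd a (nl hu.1)
        · exact absurd a.1.2 hu.2
        · obtain ⟨x, rfl⟩ := (bs_X col).1 a.2.1
          exact ⟨⟨x, Sum.inl_injective a.2.2⟩, rfl⟩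
  have key' : ∀ b : {b : Bs N X Z W × Bs N X Z W // (bs col).Key b.1 b.2}, ∃ (B : Type)
      (S : Sys {x // (bs col).Cs b.1.1 b.1.2 x} {x // (bs col).Ps b.1.1 b.1.2 x} B), Good S := by
    intro b
    obtain ⟨μ, a1, a2, a3⟩ := key _ _ b.2
    have := infinite_iff.2 (a1.trans a3)
    obtain ⟨B, S, hS, -⟩ := exists_good _ _ (a2.trans a3)
    exact ⟨B, S, hS⟩
  choose B S hS using key'
  refine ⟨_, tw (bs col) S, tw_ok _ S hb (fun x => ⟨_, rfl⟩) hS, ?_, ?_, fun i => ?_⟩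
  · refine (mk_congr (Equiv.ofBijective (fun n : N => (⟨.inl (.inl n), _, rfl, rfl⟩ :
      {x // (tw (bs col) S).O none x}))
        ⟨fun x y e => by simpa using congrArg Subtype.val e, ?_⟩)).symm
    rintro ⟨_, x, rfl, h⟩
    obtain ⟨x, rfl⟩ := (bs_N col).1 h
    exact ⟨x, rfl⟩
  · exact hX.ge.trans (mk_le_of_injective (Sum.inl_injective.comp iX))
  · refine (hW i).ge.trans (mk_le_of_injective (f := fun w => .inl (.inr (.inr ⟨i, w, 0⟩))) ?_)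
    intro x y e
    simpa using e

end Pool.Agent.P.MP_032f6a_lc.Uf
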