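import Pool.Agent.P.MP_032f6a_lc.LogicBasic
import Pool.Agent.P.MP_032f6a_lc.TowerCard

/-!
The sentence describing towers, and the uniform characterization theorem.
-/

set_option autoImplicit false

open FirstOrder Cardinal FirstOrder.Language

namespace Pool.Agent.P.MP_032f6a_lc.Uf

inductive YF : ℕ → Type
  | c : YF 2
  | col : YF 2
  | p : YF 1
  | q : YF 1
  | r : YF 1

inductive YR (I : Type) : ℕ → Type
  | O (j : Option (Option I)) : YR I 1
  | U : YR I 1
  | lt : YR I 2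
  | R : YR I 3

def Y (I : Type) : FirstOrder.Language.{0, 0} := ⟨YF, YR I⟩

variable {I : Type}

theorem countable_Y [Countable I] : Countable (Y I).Symbols := by
  have h1 : ∀ n, Countable ((Y I).Functions n) := fun n =>
    Function.Injective.countable
      (f := fun s : YF n => match n, s with
        | _, .c => 0 | _, .p => 1 | _, .q => (2 : ℕ) | _, .col => 3 | _, .r => 4)
      (by rintro ⟨⟩ ⟨⟩ h <;> first | rfl | exact absurd h (by simp))
  have h2 : ∀ n, Countable ((Y I).Relations n) := fun n =>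
    Function.Injective.countable
      (f := fun r : YR I n => match n, r with
        | _, .O j => some j | _, .U => none | _, .lt => none | _, .R => none)
      (by rintro ⟨⟩ ⟨⟩ h <;> first | rfl | exact congrArg _ (Option.some.inj h) | cases h)
  exact inferInstanceAs (Countable ((Σ n, (Y I).Functions n) ⊕ Σ n, (Y I).Relations n))

def tow (I M : Type) [(Y I).Structure M] : Tw I M where
  O j x := Structure.RelMap (L := Y I) (YR.O j) ![x]
  U x := Structure.RelMap (L := Y I) YR.U ![x]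
  lt x y := Structure.RelMap (L := Y I) YR.lt ![x, y]
  R x y z := Structure.RelMap (L := Y I) YR.R ![x, y, z]
  c x y := Structure.funMap (L := Y I) YF.c ![x, y]
  col x y := Structure.funMap (L := Y I) YF.col ![x, y]
  r x := Structure.funMap (L := Y I) YF.r ![x]
  p x := Structure.funMap (L := Y I) YF.p ![x]
  q x := Structure.funMap (L := Y I) YF.q ![x]

@[reducible] def str {M : Type} (T : Tw I M) : (Y I).Structure M where
  funMap {n} f v := match n, f, v with
    | _, YF.c, v => T.c (v 0) (v 1)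
    | _, YF.col, v => T.col (v 0) (v 1)
    | _, YF.r, v => T.r (v 0)
    | _, YF.p, v => T.p (v 0)
    | _, YF.q, v => T.q (v 0)
  RelMap {n} r v := match n, r, v with
    | _, YR.O j, v => T.O j (v 0)
    | _, YR.U, v => T.U (v 0)
    | _, YR.lt, v => T.lt (v 0) (v 1)
    | _, YR.R, v => T.R (v 0) (v 1) (v 2)

theorem tow_str {M : Type} (T : Tw I M) : @tow I M (str T) = T := rfl

section atoms
variable {α : Type} {g h k b d : ∀ (M : Type) [(Y I).Structure M], (α → M) → M}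

theorem tbi (f : (Y I).Functions 2) (hg : Trm (Y I) g) (hh : Trm (Y I) h) :
    Trm (Y I) fun M _ v => Structure.funMap f ![g M v, h M v] := by
  obtain ⟨t, ht⟩ := hg
  obtain ⟨u, hu⟩ := hh
  refine ⟨.func f ![t, u], fun M _ v => ?_⟩
  simp only [Term.realize, ← ht, ← hu]
  congr 1
  funext i
  fin_cases i <;> rfl

theorem tun (f : (Y I).Functions 1) (hg : Trm (Y I) g) :
    Trm (Y I) fun M _ v => Structure.funMap f ![g M v] := by
  obtain ⟨t, ht⟩ := hg
  refine ⟨.func f ![t], fun M _ v => ?_⟩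
  simp only [Term.realize, ← ht]
  congr 1
  funext i
  fin_cases i
  rfl

theorem tc (hg : Trm (Y I) g) (hh : Trm (Y I) h) :
    Trm (Y I) fun M _ v => (tow I M).c (g M v) (h M v) := tbi YF.c hg hh

theorem tcol (hg : Trm (Y I) g) (hh : Trm (Y I) h) :
    Trm (Y I) fun M _ v => (tow I M).col (g M v) (h M v) := tbi YF.col hg hh

theorem tp (hg : Trm (Y I) g) : Trm (Y I) fun M _ v => (tow I M).p (g M v) := tun YF.p hg

theorem tq (hg : Trm (Y I) g) : Trm (Y I) fun M _ v => (tow I M).q (g M v) := tun YF.q hg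

theorem tr (hg : Trm (Y I) g) : Trm (Y I) fun M _ v => (tow I M).r (g M v) := tun YF.r hg

theorem dun (r : (Y I).Relations 1) (hg : Trm (Y I) g) :
    Dfn (Y I) fun M _ v => Structure.RelMap r ![g M v] := by
  refine (Dfn.rel r (g := fun _ => g) fun _ => hg).congr fun M _ v => iff_of_eq ?_
  congr 1
  funext i
  fin_cases i
  rfl

theorem dO (j : Option (Option I)) (hg : Trm (Y I) g) :
    Dfn (Y I) fun M _ v => (tow I M).O j (g M v) := dun (YR.O j) hg

theorem dU (hg : Trm (Y I) g) : Dfn (Y I) fun M _ v => (tow I M).U (g M v) := dun YR.U hg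

theorem dX (hg : Trm (Y I) g) : Dfn (Y I) fun M _ v => (tow I M).X (g M v) :=
  (dO _ hg).and (dU hg)

theorem dZ (hg : Trm (Y I) g) : Dfn (Y I) fun M _ v => (tow I M).Z (g M v) :=
  (dO _ hg).and (dU hg).not

theorem dlt (hg : Trm (Y I) g) (hh : Trm (Y I) h) :
    Dfn (Y I) fun M _ v => (tow I M).lt (g M v) (h M v) := by
  refine (Dfn.rel (L := Y I) YR.lt (g := ![g, h]) fun i => ?_).congr fun M _ v => iff_of_eq ?_
  · fin_cases i
    exacts [hg, hh]
  · unfold tow
    congr 1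
    funext i
    fin_cases i <;> rfl

theorem dR (hg : Trm (Y I) g) (hh : Trm (Y I) h) (hk : Trm (Y I) k) :
    Dfn (Y I) fun M _ v => (tow I M).R (g M v) (h M v) (k M v) := by
  refine (Dfn.rel (L := Y I) YR.R (g := ![g, h, k]) fun i => ?_).congr fun M _ v => iff_of_eq ?_
  · fin_cases i
    exacts [hg, hh, hk]
  · unfold tow
    congr 1
    funext i
    fin_cases i <;> rfl

theorem dB (hb : Trm (Y I) b) (hd : Trm (Y I) d) (hg : Trm (Y I) g) :
    Dfn (Y I) fun M _ v => (tow I M).Bq (b M v) (d M v) (g M v) :=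
  (Dfn.eq (tq hg) hb).and ((Dfn.eq (tr hg) hd).and (Dfn.eq (tq hg) hg).not)

theorem dRb (hb : Trm (Y I) b) (hd : Trm (Y I) d) (hg : Trm (Y I) g) (hh : Trm (Y I) h)
    (hk : Trm (Y I) k) :
    Dfn (Y I) fun M _ v => (tow I M).Rb (b M v) (d M v) (g M v) (h M v) (k M v) :=
  (dR hg hh hk).and (dB hb hd hk)

theorem dKey [Countable I] (hb : Trm (Y I) b) (hd : Trm (Y I) d) :
    Dfn (Y I) fun M _ v => (tow I M).Key (b M v) (d M v) :=
  ((Dfn.eq hb hd).and ((dX hb).or (.iEx fun _ => dO _ hb))).or ((dZ hb).and (dZ hd))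

theorem dCs [LinearOrder I] [Countable I] (hb : Trm (Y I) b) (hd : Trm (Y I) d)
    (hg : Trm (Y I) g) : Dfn (Y I) fun M _ v => (tow I M).Cs (b M v) (d M v) (g M v) :=
  (Dfn.iEx fun _ => (dO _ hb).and ((dO none hg).or ((dX hg).or
    (.iEx fun k => (Dfn.const _).and (dO (some (some k)) hg))))).or (((dX hb).and (dX hg)).or
      ((dZ hb).and (((Dfn.eq hb hd).and (dZ hg)).or ((Dfn.eq hb hd).not.and (dO none hg)))))

theorem dPs (hb : Trm (Y I) b) (hd : Trm (Y I) d) (hg : Trm (Y I) g) :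
    Dfn (Y I) fun M _ v => (tow I M).Ps (b M v) (d M v) (g M v) :=
  (dlt hg hb).or (((dX hb).and (dZ hg)).or
    ((dZ hb).and ((dX hg).and (.eq (tcol hg hb) (tcol hg hd)))))

theorem tsh (hg : Trm (Y I) g) :
    Trm (Y I) fun M _ (u : Option α → M) => g M fun a => u (some a) := by
  obtain ⟨t, ht⟩ := hg
  exact ⟨t.relabel some, fun M _ v => by rw [Term.realize_relabel, ht]; rfl⟩

theorem dcl {J : Type} [Countable J] {y : ∀ (M : Type) [(Y I).Structure M], (α → M) → J → M}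
    (hb : Trm (Y I) b) (hd : Trm (Y I) d) (hy : ∀ i, Trm (Y I) fun M _ v => y M v i) :
    Dfn (Y I) fun M _ v => ClM ((tow I M).Rb (b M v) (d M v)) (y M v) :=
  .iAll fun i => .iAll fun j => .all1
    ((dRb (tsh hb) (tsh hd) (tsh (hy i)) (tsh (hy j)) (.var none)).imp
      (.iEx fun l => .eq (.var none) (tsh (hy l))))

theorem demb {J : Type} [Countable J]
    {cD : ∀ (M : Type) [(Y I).Structure M], (α → M) → J → J → M}
    {pD e : ∀ (M : Type) [(Y I).Structure M], (α → M) → J → M} (RD : J → J → J → Prop)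
    (hb : Trm (Y I) b) (hd : Trm (Y I) d)
    (hc : ∀ i j, Trm (Y I) fun M _ v => cD M v i j) (hp : ∀ i, Trm (Y I) fun M _ v => pD M v i)
    (he : ∀ i, Trm (Y I) fun M _ v => e M v i) :
    Dfn (Y I) fun M _ v => EmbM (tow I M).c (tow I M).p ((tow I M).Rb (b M v) (d M v))
      (cD M v) (pD M v) RD (e M v) :=
  (Dfn.iAll fun i => .iAll fun j => (Dfn.eq (he i) (he j)).imp (.const _)).and <|
    (dcl hb hd he).and <|
    (Dfn.iAll fun i => .iAll fun j => .eq (tc (he i) (he j)) (hc i j)).and <|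
    (Dfn.iAll fun i => .eq (tp (he i)) (hp i)).and <|
    .iAll fun i => .iAll fun j => .iAll fun l => (dRb hb hd (he i) (he j) (he l)).iff (.const _)

end atoms

theorem dax : Dfn (Y I) fun M _ (v : Bool → M) =>
    AxM ((tow I M).Bq (v true) (v false)) (tow I M).c ((tow I M).Rb (v true) (v false)) := by
  refine .all1 (.all1 (.all1 ?_))
  refine (dB (.var _) (.var _) (.var _)).imp ((dB (.var _) (.var _) (.var _)).imp
    ((dB (.var _) (.var _) (.var _)).imp ?_))
  refine (Dfn.eq (.var _) (.var _)).not.imp ((Dfn.eq (.var _) (.var _)).not.imp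
    ((Dfn.eq (.var _) (.var _)).not.imp ?_))
  refine ((Dfn.eq (tc (.var _) (.var _)) (tc (.var _) (.var _))).not.or
    (.eq (tc (.var _) (.var _)) (tc (.var _) (.var _)))).imp ?_
  have r := fun d e a b c : Option (Option (Option Bool)) =>
    dRb (I := I) (.var d) (.var e) (.var a) (.var b) (.var c)
  exact (r _ _ _ _ _).or ((r _ _ _ _ _).or ((r _ _ _ _ _).or ((r _ _ _ _ _).or
    ((r _ _ _ _ _).or (r _ _ _ _ _)))))

theorem dloc : Dfn (Y I) fun M _ (v : Bool → M) =>
    LocM ((tow I M).Bq (v true) (v false)) ((tow I M).Rb (v true) (v false)) := by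
  refine .iAll fun n => .allF ((Dfn.iAll fun i => dB (.var _) (.var _) (.var _)).imp
    (.iEx fun m => .exF ?_))
  exact (Dfn.iAll fun i => dB (.var _) (.var _) (.var _)).and
    ((Dfn.iAll fun i => .iEx fun j => .eq (.var _) (.var _)).and
      (dcl (.var _) (.var _) fun i => .var _))

theorem dbase [Countable I] : Dfn (Y I) fun M _ (_ : Empty → M) => (tow I M).Base := by
  have h1 : Dfn (Y I) fun M _ (_ : Empty → M) =>
      ∀ i j x, (tow I M).O i x → (tow I M).O j x → i = j :=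
    .iAll fun i => .iAll fun j => .all1 ((dO _ (.var _)).imp ((dO _ (.var _)).imp (.const _)))
  have h2 : Dfn (Y I) fun M _ (_ : Empty → M) => ∀ x, (tow I M).U x → (tow I M).O (some none) x :=
    .all1 ((dU (.var _)).imp (dO _ (.var _)))
  have h4 : Dfn (Y I) fun M _ (_ : Empty → M) => ∀ n : ℕ, ∃ v : Fin n → M,
      (∀ i j, v i = v j → i = j) ∧ ∀ i, (tow I M).O none (v i) :=
    .iAll fun n => .exF ((Dfn.iAll fun i => .iAll fun j =>
      (Dfn.eq (.var _) (.var _)).imp (.const _)).and (.iAll fun i => dO _ (.var _)))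
  have h5 : Dfn (Y I) fun M _ (_ : Empty → M) => ∀ i, ∃ x, (tow I M).O (some (some i)) x :=
    .iAll fun i => .ex1 (dO _ (.var _))
  have h6 : Dfn (Y I) fun M _ (_ : Empty → M) => ∀ x y, (tow I M).lt x y →
      ∃ i, (tow I M).O (some (some i)) x ∧ (tow I M).O (some (some i)) y :=
    .all1 (.all1 ((dlt (.var _) (.var _)).imp (.iEx fun i => (dO _ (.var _)).and (dO _ (.var _)))))
  have h7 : Dfn (Y I) fun M _ (_ : Empty → M) => ∀ x, ¬ (tow I M).lt x x :=
    .all1 (dlt (.var _) (.var _)).not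
  have h8 : Dfn (Y I) fun M _ (_ : Empty → M) =>
      ∀ x y z, (tow I M).lt x y → (tow I M).lt y z → (tow I M).lt x z :=
    .all1 (.all1 (.all1 ((dlt (.var _) (.var _)).imp ((dlt (.var _) (.var _)).imp
      (dlt (.var _) (.var _))))))
  have h9 : Dfn (Y I) fun M _ (_ : Empty → M) => ∀ i x y, (tow I M).O (some (some i)) x →
      (tow I M).O (some (some i)) y → (tow I M).lt x y ∨ x = y ∨ (tow I M).lt y x :=
    .iAll fun i => .all1 (.all1 ((dO _ (.var _)).imp ((dO _ (.var _)).imp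
      ((dlt (.var _) (.var _)).or ((Dfn.eq (.var _) (.var _)).or (dlt (.var _) (.var _)))))))
  have h10 : Dfn (Y I) fun M _ (_ : Empty → M) =>
      ∀ x y, (tow I M).lt x y → ∃ z, (tow I M).lt x z ∧ (tow I M).lt z y :=
    .all1 (.all1 ((dlt (.var _) (.var _)).imp
      (.ex1 ((dlt (.var _) (.var _)).and (dlt (.var _) (.var _))))))
  have h11 : Dfn (Y I) fun M _ (_ : Empty → M) => ∀ i x, (tow I M).O (some (some i)) x →
      (∃ y, (tow I M).lt x y) ∧ ∃ y, (tow I M).lt y x :=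
    .iAll fun i => .all1 ((dO _ (.var _)).imp
      ((Dfn.ex1 (dlt (.var _) (.var _))).and (.ex1 (dlt (.var _) (.var _)))))
  have h12 : Dfn (Y I) fun M _ (_ : Empty → M) => ∀ x z, (tow I M).X x → (tow I M).Z z →
      (tow I M).O none ((tow I M).col x z) :=
    .all1 (.all1 ((dX (.var _)).imp ((dZ (.var _)).imp (dO _ (tcol (.var _) (.var _))))))
  have h13 : Dfn (Y I) fun M _ (_ : Empty → M) => ∀ x z, ¬ ((tow I M).X x ∧ (tow I M).Z z) →
      (tow I M).col x z = x :=
    .all1 (.all1 (((dX (.var _)).and (dZ (.var _))).not.imp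
      (.eq (tcol (.var _) (.var _)) (.var _))))
  have h14 : Dfn (Y I) fun M _ (_ : Empty → M) => ∀ (n : ℕ) (a cs : Fin n → M),
      (∀ i, (tow I M).O none (cs i)) → (∀ i j, a i = a j → i = j) → ∃ x, (tow I M).X x ∧
        ∀ i, ¬ x = a i ∧ ((tow I M).Z (a i) → (tow I M).col x (a i) = cs i) :=
    .iAll fun n => .allF (.allF ((Dfn.iAll fun i => dO _ (.var _)).imp ((Dfn.iAll fun i =>
      .iAll fun j => (Dfn.eq (.var _) (.var _)).imp (.const _)).imp (.ex1 ((dX (.var _)).and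
        (.iAll fun i => (Dfn.eq (.var _) (.var _)).not.and ((dZ (.var _)).imp
          (.eq (tcol (.var _) (.var _)) (.var _)))))))))
  have h15 : Dfn (Y I) fun M _ (_ : Empty → M) => ∀ (n : ℕ) (a cs : Fin n → M),
      (∀ i, (tow I M).O none (cs i)) → (∀ i j, a i = a j → i = j) → ∃ z, (tow I M).Z z ∧
        ∀ i, ¬ z = a i ∧ ((tow I M).X (a i) → (tow I M).col (a i) z = cs i) :=
    .iAll fun n => .allF (.allF ((Dfn.iAll fun i => dO _ (.var _)).imp ((Dfn.iAll fun i =>
      .iAll fun j => (Dfn.eq (.var _) (.var _)).imp (.const _)).imp (.ex1 ((dZ (.var _)).and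
        (.iAll fun i => (Dfn.eq (.var _) (.var _)).not.and ((dX (.var _)).imp
          (.eq (tcol (.var _) (.var _)) (.var _)))))))))
  refine (h1.and (h2.and (h4.and (h5.and (h6.and (h7.and (h8.and (h9.and (h10.and
    (h11.and (h12.and (h13.and (h14.and h15))))))))))))).congr fun M _ _ => ?_
  exact ⟨fun ⟨a1, a2, a3, a4, a5, a6, a7, a8, a9, a10, a11, a12, a13, a14⟩ =>
      ⟨a1, a2, a3, a4, a5, a6, a7, a8, a9, a10, a11, a12, a13, a14⟩,
    fun ⟨a1, a2, a3, a4, a5, a6, a7, a8, a9, a10, a11, a12, a13, a14⟩ =>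
      ⟨a1, a2, a3, a4, a5, a6, a7, a8, a9, a10, a11, a12, a13, a14⟩⟩

variable [LinearOrder I] [Countable I]

theorem dext : Dfn (Y I) fun M _ (v : Bool → M) =>
    ExtM ((tow I M).Cs (v true) (v false)) ((tow I M).Ps (v true) (v false))
      ((tow I M).Bq (v true) (v false)) (tow I M).c (tow I M).p ((tow I M).Rb (v true) (v false)) := by
  refine .iAll fun n => .iAll fun O => .iAll fun RD => .allF (.allF (.allF ?_))
  refine (Dfn.iAll fun i => dCs (.var _) (.var _) (.var _)).imp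
    ((Dfn.iAll fun i => dPs (.var _) (.var _) (.var _)).imp
    ((Dfn.iAll fun i => dB (.var _) (.var _) (.var _)).imp ?_))
  refine (Dfn.iAll fun x => .iAll fun y => .iAll fun z => (Dfn.const _).imp ((Dfn.const _).imp
    ((Dfn.const _).imp (((Dfn.eq (.var _) (.var _)).not.or (.eq (.var _) (.var _))).imp
      (.const _))))).imp ((Dfn.const _).imp ?_)
  refine (demb _ (.var _) (.var _) (fun i j => .var _) (fun i => .var _) fun i => .var _).imp
    (.exF ?_)
  exact (Dfn.iAll fun i => dB (.var _) (.var _) (.var _)).and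
    ((Dfn.iAll fun i => .eq (.var _) (.var _)).and
    (demb _ (.var _) (.var _) (fun i j => .var _) (fun i => .var _) fun i => .var _))

theorem dok : Dfn (Y I) fun M _ (_ : Empty → M) => (tow I M).Ok := by
  have h2 : Dfn (Y I) fun M _ (_ : Empty → M) => ∀ x, (tow I M).q x = x ↔ ∃ j, (tow I M).O j x :=
    .all1 ((Dfn.eq (tq (.var _)) (.var _)).iff (.iEx fun j => dO _ (.var _)))
  have h3 : Dfn (Y I) fun M _ (_ : Empty → M) =>
      ∀ x, ¬ (tow I M).q x = x → (tow I M).Key ((tow I M).q x) ((tow I M).r x) :=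
    .all1 ((Dfn.eq (tq (.var _)) (.var _)).not.imp (dKey (tq (.var _)) (tr (.var _))))
  have h4 : Dfn (Y I) fun M _ (_ : Empty → M) => ∀ x, (tow I M).q x = x → (tow I M).r x = x :=
    .all1 ((Dfn.eq (tq (.var _)) (.var _)).imp (.eq (tr (.var _)) (.var _)))
  have h12 : Dfn (Y I) fun M _ (_ : Empty → M) => ∀ u v x y,
      (tow I M).Bq u v x → (tow I M).Bq u v y → (tow I M).Cs u v ((tow I M).c x y) :=
    .all1 (.all1 (.all1 (.all1 ((dB (.var _) (.var _) (.var _)).imp
      ((dB (.var _) (.var _) (.var _)).imp (dCs (.var _) (.var _) (tc (.var _) (.var _))))))))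
  have h13 : Dfn (Y I) fun M _ (_ : Empty → M) => ∀ x y,
      ¬ (∃ u v, (tow I M).Bq u v x ∧ (tow I M).Bq u v y) → (tow I M).c x y = x :=
    .all1 (.all1 ((Dfn.ex1 (.ex1 ((dB (.var _) (.var _) (.var _)).and
      (dB (.var _) (.var _) (.var _))))).not.imp (.eq (tc (.var _) (.var _)) (.var _))))
  have h14 : Dfn (Y I) fun M _ (_ : Empty → M) =>
      ∀ u v x, (tow I M).Bq u v x → (tow I M).Ps u v ((tow I M).p x) :=
    .all1 (.all1 (.all1 ((dB (.var _) (.var _) (.var _)).imp (dPs (.var _) (.var _) (tp (.var _))))))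
  have h15 : Dfn (Y I) fun M _ (_ : Empty → M) => ∀ x, (tow I M).q x = x → (tow I M).p x = x :=
    .all1 ((Dfn.eq (tq (.var _)) (.var _)).imp (.eq (tp (.var _)) (.var _)))
  have h16 : Dfn (Y I) fun M _ (_ : Empty → M) => ∀ x y z, (tow I M).R x y z →
      ∃ u v, (tow I M).Bq u v x ∧ (tow I M).Bq u v y ∧ (tow I M).Bq u v z :=
    .all1 (.all1 (.all1 ((dR (.var _) (.var _) (.var _)).imp (.ex1 (.ex1
      ((dB (.var _) (.var _) (.var _)).and ((dB (.var _) (.var _) (.var _)).and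
        (dB (.var _) (.var _) (.var _)))))))))
  have h17 : Dfn (Y I) fun M _ (_ : Empty → M) => ∀ u v, (tow I M).Key u v →
      AxM ((tow I M).Bq u v) (tow I M).c ((tow I M).Rb u v) ∧
      LocM ((tow I M).Bq u v) ((tow I M).Rb u v) ∧
      ExtM ((tow I M).Cs u v) ((tow I M).Ps u v) ((tow I M).Bq u v) (tow I M).c (tow I M).p
        ((tow I M).Rb u v) :=
    .all1 (.all1 ((dKey (.var _) (.var _)).imp ((dax.and (dloc.and dext)).comp
      fun b => (cond b (some none) none : Option (Option Empty)))))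
  refine (dbase.and (h2.and (h3.and (h4.and (h12.and (h13.and (h14.and (h15.and
    (h16.and h17))))))))).congr fun M _ _ => ?_
  exact ⟨fun ⟨a1, a2, a3, a4, a5, a6, a7, a8, a9, a10⟩ => ⟨a1, a2, a3, a4, a5, a6, a7, a8, a9, a10⟩,
    fun ⟨a1, a2, a3, a4, a5, a6, a7, a8, a9, a10⟩ => ⟨a1, a2, a3, a4, a5, a6, a7, a8, a9, a10⟩⟩

theorem aleph_le {ξ γ : Ordinal.{0}} {μ : Cardinal.{0}} (h0 : aleph ξ ≤ μ)
    (h1 : ∀ β, β < γ → Order.succ (aleph (ξ + β)) ≤ μ) : aleph (ξ + γ) ≤ μ := by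
  by_contra hn
  obtain ⟨η, rfl⟩ := mem_range_aleph_iff.2 ((aleph0_le_aleph ξ).trans h0)
  obtain ⟨β, rfl⟩ := exists_add_of_le (aleph_le_aleph.1 h0)
  have := (add_lt_add_iff_left ξ).1 (aleph_lt_aleph.1 (not_le.1 hn))
  exact absurd (h1 β this) (not_le.2 (Order.lt_succ _))

theorem uniform' (α : Ordinal.{0}) (hα : α.card ≤ ℵ₀) :
    ∃ (L : FirstOrder.Language.{0, 0}) (_ : Countable L.Symbols) (ψ : Fml L 0) (N : L.Relations 1),
      IsComplete ψ ∧ (∀ A : Model ψ, Countable A.M → A.Homogeneous N) ∧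
      ∀ ξ : Ordinal.{0},
        (∀ A : Model ψ, #(A.ext N) ≤ aleph ξ → #A.M ≤ aleph (ξ + 1 + α)) ∧
        ∃ A : Model ψ, #(A.ext N) = aleph ξ ∧ #A.M = aleph (ξ + 1 + α) := by
  have hI : Countable α.ToType := mk_le_aleph0_iff.1 (by rwa [mk_toType])
  have hL := countable_Y (I := α.ToType)
  obtain ⟨ψ, hψ⟩ := dok (I := α.ToType) 0 Empty.elim
  let ρ : α.ToType → Ordinal.{0} := Ordinal.typein (α := α.ToType) (· < ·)
  have r1 : ∀ i, ρ i < α := fun i => Ordinal.typein_lt_self i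
  have r2 : ∀ i k, ρ k < ρ i ↔ k < i := fun i k => Ordinal.typein_lt_typein _
  have r3 : ∀ β, β < α → ∃ i, ρ i = β := fun β hβ =>
    Ordinal.typein_surj _ (by rwa [Ordinal.type_toType])
  have sa : ∀ ξ β γ : Ordinal.{0}, β < γ → Order.succ (aleph (ξ + β)) ≤ aleph (ξ + γ) :=
    fun ξ β γ h => Order.succ_le_of_lt (aleph_lt_aleph.2 ((add_lt_add_iff_left ξ).2 h))
  have hiso : ∀ A B : Model ψ, Countable A.M → Countable B.M →
      ∀ σ : {x // (tow α.ToType A.M).O none x} ≃ {x // (tow α.ToType B.M).O none x},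
        ∃ g : (Y α.ToType).Equiv A.M B.M, ∀ x : {x // (tow α.ToType A.M).O none x}, g x.1 = (σ x).1 := by
    intro A B c1 c2 σ
    obtain ⟨F, f1, f2, f8, f3, f4, f9, f5, f6, f7, f10⟩ := ((hψ _ _).1 A.sat).iso ((hψ _ _).1 B.sat) σ
    have v1 : ∀ {M : Type} (v : Fin 1 → M), v = ![v 0] := fun v => by
      funext i
      fin_cases i
      rfl
    have v2 : ∀ {M : Type} (v : Fin 2 → M), v = ![v 0, v 1] := fun v => by
      funext i
      fin_cases i <;> rfl
    have v3 : ∀ {M : Type} (v : Fin 3 → M), v = ![v 0, v 1, v 2] := fun v => by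
      funext i
      fin_cases i <;> rfl
    refine ⟨⟨F, ?_, ?_⟩, f1⟩
    · rintro n ⟨⟩ v
      · rw [v2 v, v2 (_ ∘ _)]
        exact f5 _ _
      · rw [v2 v, v2 (_ ∘ _)]
        exact f9 _ _
      · rw [v1 v, v1 (_ ∘ _)]
        exact f6 _
      · rw [v1 v, v1 (_ ∘ _)]
        exact f7 _
      · rw [v1 v, v1 (_ ∘ _)]
        exact f10 _
    · rintro n ⟨⟩ v
      · rw [v1 v, v1 (_ ∘ _)]
        exact f2 _ _
      · rw [v1 v, v1 (_ ∘ _)]
        exact f8 _
      · rw [v2 v, v2 (_ ∘ _)]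
        exact f3 _ _
      · rw [v3 v, v3 (_ ∘ _)]
        exact f4 _ _ _
  have main : ∀ ξ : Ordinal.{0},
      (∀ A : Model ψ, #(A.ext (YR.O none)) ≤ aleph ξ → #A.M ≤ aleph (ξ + 1 + α)) ∧
        ∃ A : Model ψ, #(A.ext (YR.O none)) = aleph ξ ∧ #A.M = aleph (ξ + 1 + α) := by
    intro ξ
    have su : Order.succ (aleph ξ) = aleph (ξ + 1) := succ_aleph ξ
    have up : ∀ A : Model ψ, #(A.ext (YR.O none)) ≤ aleph ξ → #A.M ≤ aleph (ξ + 1 + α) := fun A hA =>
      ((hψ _ _).1 A.sat).card_le (aleph ξ) (fun i => aleph (ξ + 1 + ρ i)) _ (aleph0_le_aleph _) hA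
        (fun i => su.le.trans (aleph_le_aleph.2 le_self_add)) (fun i k h => sa _ _ _ ((r2 i k).2 h))
        (su.le.trans (aleph_le_aleph.2 le_self_add)) fun i => sa _ _ _ (r1 i)
    obtain ⟨M, T, h1, h2, h4, h3⟩ := exists_tw (aleph ξ) (fun i => aleph (ξ + 1 + ρ i))
      (aleph0_le_aleph _) (fun _ => aleph0_le_aleph _) fun i μ a b =>
        aleph_le (su.ge.trans a) fun β hβ => by
          obtain ⟨k, rfl⟩ := r3 β (hβ.trans (r1 i))
          exact b k ((r2 i k).1 hβ)
    let _ := str T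
    have := h1.toBase.infinite
    have : Nonempty M := ⟨(Classical.arbitrary {x // T.O none x}).1⟩
    refine ⟨up, ⟨M, (hψ _ _).2 h1⟩, h2, le_antisymm (up ⟨M, (hψ _ _).2 h1⟩ h2.le) ?_⟩
    refine aleph_le (su.ge.trans h4) fun β hβ => ?_
    obtain ⟨k, rfl⟩ := r3 β hβ
    exact h3 k
  refine ⟨Y α.ToType, hL, ψ, YR.O none, ⟨?_, fun A B c1 c2 => ?_⟩,
    fun A c => ⟨Set.infinite_coe_iff.1 ((hψ _ _).1 A.sat).toBase.infinite, fun σ => hiso A A c c σ⟩, main⟩
  · obtain ⟨A, -, hA⟩ := (main 0).2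
    obtain ⟨B, hB⟩ := lowenheim A le_rfl (hA ▸ aleph0_le_aleph _)
    exact ⟨B, mk_le_aleph0_iff.1 hB.le⟩
  · have i1 := ((hψ _ _).1 A.sat).toBase.infinite
    have i2 := ((hψ _ _).1 B.sat).toBase.infinite
    obtain ⟨σ⟩ : Nonempty ({x // (tow α.ToType A.M).O none x} ≃ {x // (tow α.ToType B.M).O none x}) :=
      nonempty_equiv_of_countable
    obtain ⟨g, -⟩ := hiso A B c1 c2 σ
    exact ⟨g⟩

theorem uniform (α : Ordinal.{0}) (h0 : 0 < α) (hα : α.card ≤ ℵ₀) :
    ∃ (L : FirstOrder.Language.{0, 0}) (_ : Countable L.Symbols) (ψ : Fml L 0) (N : L.Relations 1),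
      IsComplete ψ ∧ (∀ A : Model ψ, Countable A.M → A.Homogeneous N) ∧
      ∀ ξ : Ordinal.{0},
        (∀ A : Model ψ, #(A.ext N) ≤ aleph ξ → #A.M ≤ aleph (ξ + α)) ∧
        ∃ A : Model ψ, #(A.ext N) = aleph ξ ∧ #A.M = aleph (ξ + α) := by
  obtain ⟨β, rfl⟩ := exists_add_of_le (Order.one_le_iff_pos.2 h0)
  simpa only [add_assoc] using uniform' β ((Ordinal.card_le_card le_add_self).trans hα)

end Pool.Agent.P.MP_032f6a_lc.Uf
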